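import Mathlib

/-! A ring with a division algorithm for short relations has directly finite matrix rings. -/

set_option autoImplicit false

namespace Pool.Agent.P.MP_81321e_al

open Matrix

theorem ad_ring {R : Type} [Ring R] (e : R) (he : e * e = e) (hc : ∀ x, x * e = e * x)
    (ρ : R → ℕ) (n : ℕ)
    (red : ∀ k ≤ n, ∀ x a : Fin k → R, (∀ i, e * x i = x i) → ∑ i, a i * x i = 0 →
      (∃ j, x j ≠ 0 ∧ e * a j ≠ 0) → ∃ i, ∃ β : Fin k → R, IsUnit (β i) ∧
        ρ (∑ j, β j * x j) < ρ (x i)) :
    ∀ k ≤ n, ∀ P Q : Matrix (Fin k) (Fin k) R, e • (P * Q) = e • 1 → e • (Q * P) = e • 1 := by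
  have sm : ∀ (k : ℕ) (P Q : Matrix (Fin k) (Fin k) R), P * (e • Q) = e • (P * Q) :=
    fun k P Q => by
      ext i j
      simp only [mul_apply, Matrix.smul_apply, smul_eq_mul, Finset.mul_sum, ← mul_assoc, hc]
  intro k
  induction k with
  | zero => intro _ P Q _; exact Subsingleton.elim _ _
  | succ k ih =>
    intro hk
    have key : ∀ (s : ℕ) (P Q : Matrix (Fin (k + 1)) (Fin (k + 1)) R) (x : Fin (k + 1) → R),
        e • (P * Q) = e • 1 → (∀ i, e * x i = x i) → P *ᵥ x = 0 → ∑ i, ρ (x i) = s → x = 0 := by
      intro s
      induction s using Nat.strong_induction_on with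
      | _ s ihs =>
      intro P Q x h hx h0 hs
      by_cases hA : ∃ i j, x j ≠ 0 ∧ e * P i j ≠ 0
      · obtain ⟨i₀, hA⟩ := hA
        obtain ⟨i, β, ⟨u, hu⟩, hlt⟩ := red _ hk x (P i₀) hx (congrFun h0 i₀) hA
        let E : Matrix (Fin (k + 1)) (Fin (k + 1)) R :=
          of fun a b => if a = i then β b - (1 : Matrix _ _ R) i b else 0
        have e1 : E * E = ((u : R) - 1) • E := by
          ext a b
          simp only [E, mul_apply, of_apply, Matrix.smul_apply, smul_eq_mul, mul_ite, mul_zero,
            Finset.sum_ite_eq', Finset.mem_univ, if_true, one_apply_eq, hu]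
          split_ifs <;> simp
        have e2 : (1 - ((u⁻¹ : Rˣ) : R) • E) * (1 + E) = 1 := by
          rw [sub_mul, one_mul, mul_add, mul_one, smul_mul, e1, smul_smul, mul_sub, u.inv_mul,
            sub_smul, one_smul, mul_one]
          abel
        have e3 : ∀ a, ((1 + E) *ᵥ x) a = if a = i then ∑ j, β j * x j else x a := fun a => by
          rw [add_mulVec, one_mulVec, Pi.add_apply]
          simp only [E, mulVec, dotProduct, of_apply]
          split_ifs with ha
          · simp [ha, sub_mul, one_apply]
          · simp
        have e4 := ihs _ ?_ (P * (1 - ((u⁻¹ : Rˣ) : R) • E)) ((1 + E) * Q) ((1 + E) *ᵥ x)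
          (by rw [mul_assoc, ← mul_assoc _ _ Q, e2, one_mul, h]) (fun a => by
            rw [e3]
            split_ifs
            · rw [Finset.mul_sum]
              exact Finset.sum_congr rfl fun j _ => by rw [← mul_assoc, ← hc, mul_assoc, hx]
            · exact hx a) (by rw [mulVec_mulVec, mul_assoc, e2, mul_one, h0]) rfl
        · rw [← one_mulVec x, ← e2, ← mulVec_mulVec, e4, mulVec_zero]
        · rw [← hs]
          refine Finset.sum_lt_sum (fun a _ => ?_) ⟨i, Finset.mem_univ _, by rw [e3]; simpa⟩
          rw [e3]
          split_ifs with ha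
          · exact ha ▸ hlt.le
          · rfl
      push Not at hA
      funext j
      by_contra hj
      have e1 : ∀ a b, ∑ c : Fin k, e * P a (j.succAbove c) * Q (j.succAbove c) b =
          e * (1 : Matrix _ _ R) a b := fun a b => by
        have := congrFun (congrFun h a) b
        simp only [Matrix.smul_apply, smul_eq_mul, mul_apply, Finset.mul_sum, ← mul_assoc] at this
        rwa [Fin.sum_univ_succAbove _ j, hA a j hj, zero_mul, zero_add] at this
      have e2 := ih (by omega) (P.submatrix j.succAbove j.succAbove)
        (Q.submatrix j.succAbove j.succAbove) (by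
          ext a b
          simp only [Matrix.smul_apply, smul_eq_mul, mul_apply, Finset.mul_sum, ← mul_assoc,
            submatrix_apply, e1, one_apply, Fin.succAbove_right_inj])
      have e3 : (fun c => e * P j (j.succAbove c)) ᵥ* Q.submatrix j.succAbove j.succAbove = 0 := by
        funext b
        simp only [vecMul, dotProduct, submatrix_apply, e1]
        simp [(Fin.succAbove_ne j b).symm]
      have e4 : ∀ c, e * P j (j.succAbove c) = 0 := fun c => by
        have := congrFun (congrArg (vecMul fun c => e * P j (j.succAbove c)) e2) c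
        rw [← sm, ← vecMul_vecMul, e3, zero_vecMul] at this
        simp only [vecMul, dotProduct, Matrix.smul_apply, one_apply, smul_eq_mul, mul_ite, mul_one,
          mul_zero, Finset.sum_ite_eq', Finset.mem_univ, if_true, Pi.zero_apply] at this
        rw [hc, ← mul_assoc, he] at this
        exact this.symm
      have e5 := e1 j j
      simp only [e4, zero_mul, Finset.sum_const_zero, one_apply_eq, mul_one] at e5
      exact hj (by rw [← hx j, ← e5, zero_mul]; rfl)
    intro P Q h
    ext i j
    have := key _ P Q (fun a => (e • (Q * P) - e • 1 : Matrix _ _ R) a j) h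
      (fun a => by simp only [Matrix.sub_apply, Matrix.smul_apply, smul_eq_mul, mul_sub, ← mul_assoc, he])
      (by
        have : P * (e • (Q * P) - e • 1) = 0 := by
          rw [mul_sub, sm, sm, ← mul_assoc, ← smul_mul, h, smul_mul, one_mul, mul_one, sub_self]
        funext a
        exact congrFun (congrFun this a) j) rfl
    exact sub_eq_zero.1 (congrFun this i)

end Pool.Agent.P.MP_81321e_al
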