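import Pool.Agent.P.MP_81321e_al.ADGeo
import Pool.Agent.P.MP_81321e_al.ADRing

/-! The division algorithm in the algebra of a group acting on a hyperbolic space with large
displacement, and direct finiteness of small matrix rings. -/

set_option autoImplicit false

namespace Pool.Agent.P.MP_81321e_al

open Pool.Agent.P.MP_4b59b0_al MonoidAlgebra Pointwise

variable {K H V : Type} [Field K] [Group H] [MulAction H V]

/-- One more than the circumradius of the support. -/
noncomputable def rad (X : Sp V) (o : V) (x : MonoidAlgebra K H) : ℕ :=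
  sInf {r | ∃ c, ∀ g, x.coeff g ≠ 0 → X.d c (g • o) < r}

variable {X : Sp V} {o : V}

theorem rad_spec (x : MonoidAlgebra K H) :
    ∃ c, ∀ g, x.coeff g ≠ 0 → X.d c (g • o) < rad X o x :=
  Nat.sInf_mem (s := {r | ∃ c, ∀ g, x.coeff g ≠ 0 → X.d c (g • o) < r})
    ⟨x.coeff.support.sup (fun g => X.d o (g • o)) + 1, o, fun _ hg => Nat.lt_succ_of_le
      (Finset.le_sup (f := fun g => X.d o (g • o)) (Finsupp.mem_support_iff.2 hg))⟩

theorem rad_le {x : MonoidAlgebra K H} {r : ℕ} (c : V)
    (h : ∀ g, x.coeff g ≠ 0 → X.d c (g • o) < r) : rad X o x ≤ r := Nat.sInf_le ⟨c, h⟩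

theorem ad_reduce (iso : X.Iso H) {δ n Δ : ℕ} (hyp : X.Hyp δ)
    (hΔ : (2 * n + 6) * ((2 ^ n + 5) * δ + 2) ≤ Δ) {ι : Type} [Fintype ι]
    (hn : Fintype.card ι ≤ n) (x a : ι → MonoidAlgebra K H) (h0 : ∑ i, a i * x i = 0)
    (h1 : ∃ j, x j ≠ 0 ∧ a j ≠ 0)
    (sep : ∀ i g g' c, (a i).coeff g ≠ 0 → (a i).coeff g' ≠ 0 → X.d (g • c) (g' • c) < Δ → g = g') :
    ∃ i, ∃ β : ι → MonoidAlgebra K H, IsUnit (β i) ∧ rad X o (∑ j, β j * x j) < rad X o (x i) := by
  classical
  choose cen hcen using fun i => rad_spec (X := X) (o := o) (x i)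
  obtain ⟨p₀, ⟨i₀, g₀, a1, a2⟩, top⟩ := Set.exists_max_image
    {p : H | ∃ i g, (a i).coeff g ≠ 0 ∧ (x i).coeff (g⁻¹ * p) ≠ 0} (fun p => X.d o (p • o))
    ((Set.finite_iUnion fun i => (a i).coeff.support.finite_toSet.mul
      (x i).coeff.support.finite_toSet).subset (by
        rintro p ⟨i, g, h1, h2⟩
        exact Set.mem_iUnion.2 ⟨i, g, by simpa using h1, g⁻¹ * p, by simpa using h2, by simp⟩))
    (by
      obtain ⟨j, h2, h3⟩ := h1
      obtain ⟨g, hg⟩ : ∃ g, (a j).coeff g ≠ 0 := by
        by_contra hc; push Not at hc; exact h3 (by ext g; simp [hc])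
      obtain ⟨p, hp⟩ : ∃ g, (x j).coeff g ≠ 0 := by
        by_contra hc; push Not at hc; exact h2 (by ext g; simp [hc])
      exact ⟨g * p, j, g, hg, by simpa using hp⟩)
  have mv : ∀ (g p : H) (y : V), X.d (g • y) (p • o) = X.d y ((g⁻¹ * p) • o) := fun g p y => by
    rw [← iso g y, smul_smul, mul_inv_cancel_left]
  let F : Cf X o ι {v : ι × H // (a v.1).coeff v.2 ≠ 0} H Δ (X.d o (p₀ • o)) :=
    { col := fun v => v.1.1
      r := fun i => rad X o (x i)
      c := fun v => v.1.2 • cen v.1.1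
      Pt := fun v p => (x v.1.1).coeff (v.1.2⁻¹ * p) ≠ 0
      pos := fun p => p • o
      ins := fun v p hp => by rw [mv]; exact hcen _ _ hp
      opt := fun v p hp y => by
        by_contra hc
        push Not at hc
        have e1 := hcen _ _ hp
        have e2 := rad_le (X := X) (o := o) (x := x v.1.1) (r := rad X o (x v.1.1) - 1)
          (v.1.2⁻¹ • y) fun g hg => by
            have := hc (v.1.2 * g) (by simpa using hg)
            rw [mv, inv_inv]
            omega
        omega
      sep := by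
        rintro ⟨⟨i, g⟩, hg⟩ ⟨⟨i', g'⟩, hg'⟩ (rfl : i = i') hd
        exact Subtype.ext (Prod.ext rfl (sep i g g' _ hg hg' hd))
      top := fun v p hp => top p ⟨_, _, v.2, hp⟩ }
  obtain ⟨C, ⟨⟨i, g⟩, hg⟩, m, c1, c2, c3, c4⟩ :=
    F.main hyp hn hΔ (v₀ := ⟨(i₀, g₀), a1⟩) ⟨p₀, a2, le_rfl⟩
  let β : ι → MonoidAlgebra K H := fun j =>
    ofCoeff ((a j).coeff.filter fun g => ∃ h, (⟨(j, g), h⟩ : {v : ι × H // _}) ∈ C)
  have hβ : ∀ j p, (β j * x j).coeff p = ∑ g ∈ (a j).coeff.support,
      if ∃ h, (⟨(j, g), h⟩ : {v : ι × H // _}) ∈ C then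
        (a j).coeff g * (x j).coeff (g⁻¹ * p) else 0 := fun j p => by
    rw [coeff_mul_apply_left, Finsupp.sum, Finsupp.support_filter, Finset.sum_filter]
    exact Finset.sum_congr rfl fun g _ => by
      split_ifs with h
      · simp only [β, Finsupp.filter_apply, if_pos h]
      · rfl
  refine ⟨i, β, ?_, ?_⟩
  · have : β i = single g ((a i).coeff g) := by
      ext g'
      simp only [β, Finsupp.filter_apply, coeff_single, Finsupp.single_apply]
      by_cases e : g = g'
      · subst e; rw [if_pos ⟨hg, c1⟩, if_pos rfl]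
      · rw [if_neg e, if_neg]
        rintro ⟨h, h'⟩
        exact e (congrArg (fun v => v.1.2) (c3 _ h' rfl)).symm
    rw [this]
    exact ⟨⟨_, single g⁻¹ ((a i).coeff g)⁻¹, by simp [single_mul_single, one_def, hg],
      by simp [single_mul_single, one_def, hg]⟩, rfl⟩
  · refine lt_of_le_of_lt (rad_le (r := rad X o (x i) - 1) m fun p hp => ?_) (Nat.sub_one_lt c2.ne')
    simp only [coeff_sum, Finsupp.coe_finsetSum, Finset.sum_apply, hβ] at hp
    obtain ⟨j, -, e1⟩ := Finset.exists_ne_zero_of_sum_ne_zero hp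
    obtain ⟨g', -, e2⟩ := Finset.exists_ne_zero_of_sum_ne_zero e1
    obtain ⟨⟨h, h'⟩, e3⟩ := ite_ne_right_iff.1 e2
    rcases c4 _ h' p (right_ne_zero_of_mul e3) with e4 | e4
    · refine absurd ?_ hp
      have e5 := congrArg (fun y => y.coeff p) h0
      simp only [coeff_sum, Finsupp.coe_finsetSum, Finset.sum_apply, coeff_mul_apply_left,
        Finsupp.sum] at e5
      refine (Finset.sum_congr rfl fun j _ => Finset.sum_congr rfl fun g hg => ?_).trans e5
      split_ifs with h2
      · rfl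
      · by_contra h3
        exact h2 ⟨_, e4 ⟨(j, g), Finsupp.mem_support_iff.1 hg⟩ (right_ne_zero_of_mul (Ne.symm h3))⟩
    · exact Nat.lt_sub_of_add_lt e4

/-- Part A: large displacement off a central involution gives direct finiteness. -/
theorem partA (n δ : ℕ) (z : H) (h2 : (2 : K) ≠ 0) (hc : ∀ g, g * z = z * g) (hz : z * z = 1)
    (iso : X.Iso H) (hyp : X.Hyp δ) (o : V)
    (mv : ∀ g, g ≠ 1 → g ≠ z → X.Mv g ((2 * n + 6) * ((2 ^ n + 5) * δ + 2)))
    (P Q : Matrix (Fin n) (Fin n) (MonoidAlgebra K H)) (h : P * Q = 1) : Q * P = 1 := by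
  classical
  obtain ⟨_, -⟩ := exists_wellFoundedLT H
  have key : ∀ ε : K, ε * ε = 1 → ∀ e : MonoidAlgebra K H, e = single 1 2⁻¹ + single z (ε * 2⁻¹) →
      e • (Q * P) = e • 1 := fun ε hε e he => by
    have e1 : single z ε * e = e := by
      rw [he, mul_add, single_mul_single, single_mul_single, hz, ← mul_assoc, hε, add_comm]
      simp
    have e2 : e * e = e := by
      have : e = (2⁻¹ : K) • (1 + single z ε) := by simp [he, one_def, mul_comm]
      conv_lhs => enter [1]; rw [this]
      rw [smul_mul_assoc, add_mul, one_mul, e1, ← two_smul K, smul_smul, inv_mul_cancel₀ h2,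
        one_smul]
    have e3 : ∀ x, x * e = e * x := fun x => by
      rw [he]
      exact (((single_commute (fun _ => Commute.one_left _) (fun _ => Commute.all _ _) x).add_left
        (single_commute (fun g => (hc g).symm) (fun _ => Commute.all _ _) x))).symm
    have e4 : ∀ a : MonoidAlgebra K H, ∃ a' : MonoidAlgebra K H,
        (∀ g, a'.coeff g ≠ 0 → g ≤ g * z) ∧ a' * e = a * e := fun a => by
      induction a using MonoidAlgebra.induction_linear with
      | zero => exact ⟨0, by simp, rfl⟩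
      | add a b ha hb =>
        obtain ⟨a', a1, a2⟩ := ha
        obtain ⟨b', b1, b2⟩ := hb
        refine ⟨a' + b', fun g hg => ?_, by rw [add_mul, add_mul, a2, b2]⟩
        by_cases h3 : a'.coeff g = 0
        · exact b1 g (by simpa [h3] using hg)
        · exact a1 g h3
      | single g r =>
        rcases le_total g (g * z) with h3 | h3
        · exact ⟨single g r, fun g' hg => by
            rwa [(Finsupp.single_apply_ne_zero.1 hg).1], rfl⟩
        · refine ⟨single (g * z) (r * ε), fun g' hg => ?_, ?_⟩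
          · rwa [(Finsupp.single_apply_ne_zero.1 hg).1, mul_assoc, hz, mul_one]
          · rw [← single_mul_single, mul_assoc, e1]
    refine ad_ring e e2 e3 (rad X o) n (fun k hk x a hx h0 ⟨j, j1, j2⟩ => ?_) n le_rfl P Q
      (by rw [h])
    choose a' a1 a2 using fun i => e4 (a i)
    refine ad_reduce iso hyp le_rfl (by simpa using hk) x a' ?_ ⟨j, j1, fun h3 => j2 ?_⟩
      fun i g g' c g1 g2 hd => ?_
    · rw [← h0]
      exact Finset.sum_congr rfl fun i _ => by rw [← hx i, ← mul_assoc, a2, mul_assoc]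
    · rw [← e3, ← a2, h3, zero_mul]
    · by_contra hne
      by_cases h3 : g⁻¹ * g' = z
      · have h4 : g' = g * z := by rw [← h3, mul_inv_cancel_left]
        have h5 := a1 i g' g2
        rw [h4, mul_assoc, hz, mul_one] at h5
        exact hne ((le_antisymm (a1 i g g1) h5).trans h4.symm)
      · have := mv (g⁻¹ * g') (fun h4 => hne (inv_mul_eq_one.1 h4)) h3 c
        rw [← iso g, smul_smul, mul_inv_cancel_left] at this
        omega
  have e1 := key 1 (by simp) _ rfl
  have e2 := key (-1) (by simp) _ rfl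
  have e3 : (single 1 2⁻¹ + single z (1 * 2⁻¹) : MonoidAlgebra K H) +
      (single 1 2⁻¹ + single z (-1 * 2⁻¹)) = 1 := by
    rw [add_add_add_comm, ← single_add, ← single_add, one_def, ← two_mul, mul_inv_cancel₀ h2]
    simp
  rw [← one_smul (MonoidAlgebra K H) (Q * P), ← e3, add_smul, e1, e2, ← add_smul, e3, one_smul]

end Pool.Agent.P.MP_81321e_al
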