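import Pool.Agent.P.MP_4b59b0_al.Defs

/-! The geometric step of the division algorithm in group algebras (after Avramidi and Delzant). -/

set_option autoImplicit false

namespace Pool.Agent.P.MP_81321e_al

open Pool.Agent.P.MP_4b59b0_al

/-- A coloured sequence in which a colour cannot come back soon is short. -/
theorem ad_ruler {ι : Type} [DecidableEq ι] (r : ι → ℕ) (col : ℕ → ι) (L n : ℕ)
    (h : ∀ a b, a < b → b ≤ L → b - a ≤ 2 ^ n → col a = col b →
      (∀ t, a ≤ t → t ≤ b → r (col t) ≤ r (col a)) → False) :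
    ∀ (k : ℕ) (S : Finset ι), S.card = k → k ≤ n → ∀ a b, a ≤ b → b ≤ L + 1 →
      (∀ t, a ≤ t → t < b → col t ∈ S) → b - a < 2 ^ k := by
  intro k
  induction k with
  | zero =>
    intro S hS _ a b hab _ hc
    by_contra hlt
    have := hc a le_rfl (by omega)
    rw [Finset.card_eq_zero.1 hS] at this
    simp at this
  | succ k ih =>
    intro S hS hk a b hab hb hc
    obtain ⟨j, hj, top⟩ := S.exists_max_image r (Finset.card_pos.1 (by omega))
    have ih' : ∀ a' b', a ≤ a' → a' ≤ b' → b' ≤ b → (∀ t, a' ≤ t → t < b' → col t ≠ j) →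
        b' - a' < 2 ^ k := fun a' b' h1 h2 h3 h4 =>
      ih (S.erase j) (by rw [Finset.card_erase_of_mem hj]; omega) (by omega) a' b' h2 (by omega)
        fun t t1 t2 => Finset.mem_erase.2 ⟨h4 t t1 t2, hc t (by omega) (by omega)⟩
    have hp : 2 ^ k ≤ 2 ^ n := Nat.pow_le_pow_right (by omega) (by omega)
    rw [pow_succ]
    by_cases h1 : ∃ t, a ≤ t ∧ t < b ∧ col t = j
    swap
    · have := ih' a b le_rfl hab le_rfl fun t t1 t2 t3 => h1 ⟨t, t1, t2, t3⟩
      omega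
    obtain ⟨s1, s2, s3⟩ := Nat.find_spec h1
    have smin := fun t => Nat.find_min h1 (m := t)
    generalize Nat.find h1 = s at *
    have e1 := ih' a s le_rfl s1 s2.le fun t t1 t2 t3 => smin t t2 ⟨t1, by omega, t3⟩
    by_cases h2 : ∃ t, s < t ∧ t < b ∧ col t = j
    swap
    · have := ih' (s + 1) b (by omega) (by omega) le_rfl fun t t1 t2 t3 => h2 ⟨t, t1, t2, t3⟩
      omega
    obtain ⟨u1, u2, u3⟩ := Nat.find_spec h2
    have umin := fun t => Nat.find_min h2 (m := t)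
    generalize Nat.find h2 = u at *
    have e2 := ih' (s + 1) u (by omega) (by omega) u2.le
      fun t t1 t2 t3 => umin t t2 ⟨t1, by omega, t3⟩
    exact (h s u u1 (by omega) (by omega) (s3.trans u3.symm) fun t t1 t2 => by
      rw [s3]; exact top _ (hc t (by omega) (by omega))).elim

/-- An increasing chain of subsets of a finite set stops. -/
theorem ad_chain {ι : Type} [Fintype ι] (S : ℕ → Set ι) (h : ∀ k, S k ⊆ S (k + 1)) {n : ℕ}
    (hn : Fintype.card ι ≤ n) : ∃ k ≤ n, S (k + 1) ⊆ S k := by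
  by_contra hc
  push Not at hc
  have key : ∀ k ≤ n + 1, k ≤ (S k).ncard := fun k => by
    induction k with
    | zero => simp
    | succ k ih =>
      intro hk
      have := Set.ncard_lt_ncard (s := S k) (t := S (k + 1)) ⟨h k, hc k (by omega)⟩
      have := ih (by omega)
      omega
  have h1 := key (n + 1) le_rfl
  have h2 := Set.ncard_le_ncard (Set.subset_univ (S (n + 1)))
  rw [Set.ncard_univ, Nat.card_eq_fintype_card] at h2
  omega

variable {V : Type} (X : Sp V) (o : V)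

/-- Twice the Gromov product. -/
def gp (x y : V) : ℤ := X.d o x + X.d o y - X.d x y

variable {X o}

theorem gp_symm (x y : V) : gp X o x y = gp X o y x := by
  unfold gp; rw [X.symm x y]; ring

theorem gp_tri {δ : ℕ} (h : X.Hyp δ) (x y z : V) :
    gp X o x y - δ ≤ gp X o x z ∨ gp X o y z - δ ≤ gp X o x z := by
  unfold gp
  have := h x z y o
  have := X.symm y o; have := X.symm z o; have := X.symm x o; have := X.symm z y
  omega

/-- Coloured finite configurations of points with their circumcentres. -/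
structure Cf (X : Sp V) (o : V) (ι A T : Type) (Δ D : ℕ) where
  col : A → ι
  r : ι → ℕ
  c : A → V
  Pt : A → T → Prop
  pos : T → V
  ins : ∀ v p, Pt v p → X.d (c v) (pos p) < r (col v)
  opt : ∀ v p, Pt v p → ∀ y, ∃ q, Pt v q ∧ r (col v) ≤ X.d y (pos q) + 1
  sep : ∀ v w, col v = col w → X.d (c v) (c w) < Δ → v = w
  top : ∀ v p, Pt v p → X.d o (pos p) ≤ D

namespace Cf

variable {ι A T : Type} {Δ D δ : ℕ} (F : Cf X o ι A T Δ D)

theorem up (h : X.Hyp δ) {v : A} {p : T} (hp : F.Pt v p) :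
    X.d o (F.c v) + F.r (F.col v) ≤ D + 2 * δ + 2 := by
  by_cases hc : δ + 1 ≤ X.d (F.c v) o
  · obtain ⟨y, y1, y2⟩ := X.geod _ _ _ hc
    obtain ⟨q, q1, q2⟩ := F.opt v p hp y
    have := F.top v q q1; have := F.ins v q q1
    have := h (F.pos q) y o (F.c v)
    have := X.symm (F.pos q) y; have := X.symm (F.pos q) o; have := X.symm (F.pos q) (F.c v)
    have := X.symm y (F.c v); have := X.symm o (F.c v)
    omega
  · obtain ⟨q, q1, q2⟩ := F.opt v p hp o
    have := F.top v q q1; have := X.symm o (F.c v)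
    omega

/-- `v` has a point that is extremal up to `μ`. -/
def Ex (μ : ℕ) (v : A) : Prop := ∃ p, F.Pt v p ∧ D ≤ X.d o (F.pos p) + μ

/-- Configurations sharing a point that is extremal up to `μ`. -/
def G (μ : ℕ) : SimpleGraph A :=
  SimpleGraph.fromRel fun v w => ∃ p, F.Pt v p ∧ F.Pt w p ∧ D ≤ X.d o (F.pos p) + μ

theorem adj {μ : ℕ} {v w : A} (h : (F.G μ).Adj v w) :
    ∃ p, F.Pt v p ∧ F.Pt w p ∧ D ≤ X.d o (F.pos p) + μ := by
  obtain ⟨-, h | ⟨p, h1, h2, h3⟩⟩ := (SimpleGraph.fromRel_adj _ _ _).1 h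
  · exact h
  · exact ⟨p, h2, h1, h3⟩

theorem G_mono {μ ν : ℕ} (h : ν ≤ μ) : F.G ν ≤ F.G μ := fun v w hvw => by
  obtain ⟨p, h1, h2, h3⟩ := F.adj hvw
  exact (SimpleGraph.fromRel_adj _ _ _).2 ⟨hvw.ne, Or.inl ⟨p, h1, h2, by omega⟩⟩

theorem Ex.reach {μ : ℕ} {v w : A} (hv : F.Ex μ v) (h : (F.G μ).Reachable v w) : F.Ex μ w := by
  rw [SimpleGraph.reachable_iff_reflTransGen] at h
  induction h with
  | refl => exact hv
  | tail _ h2 _ => obtain ⟨p, -, h3, h4⟩ := F.adj h2; exact ⟨p, h3, h4⟩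

theorem Ex.low {μ : ℕ} {v : A} (hv : F.Ex μ v) :
    D + 1 ≤ X.d o (F.c v) + μ + F.r (F.col v) := by
  obtain ⟨p, h1, h2⟩ := hv
  have := F.ins v p h1; have := X.tri o (F.c v) (F.pos p)
  omega

theorem chain (h : X.Hyp δ) {μ : ℕ} {H : ℤ} (f : ℕ → A) (a : ℕ) (ha : F.Ex μ (f a)) :
    ∀ k, (∀ t, a ≤ t → t < a + k → (F.G μ).Adj (f t) (f (t + 1))) →
      (∀ t, a ≤ t → t ≤ a + k → ∀ p, F.Pt (f t) p → D ≤ X.d o (F.pos p) + μ →
        H ≤ gp X o (F.c (f t)) (F.pos p)) →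
      H - (k + 1) * δ ≤ gp X o (F.c (f a)) (F.c (f (a + k))) := by
  intro k
  induction k with
  | zero =>
    intro _ h2
    obtain ⟨p, p1, p2⟩ := ha
    have := h2 a le_rfl le_rfl p p1 p2
    have := X.tri o (F.c (f a)) (F.pos p)
    unfold gp at *
    simp only [Nat.add_zero, X.d_self]
    push_cast
    omega
  | succ k ih =>
    intro h1 h2
    have e1 := ih (fun t t1 t2 => h1 t t1 (by omega)) fun t t1 t2 => h2 t t1 (by omega)
    obtain ⟨p, p1, p2, p3⟩ := F.adj (h1 (a + k) (by omega) (by omega))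
    have e2 := h2 _ (by omega) (by omega) p p1 p3
    have e3 := h2 (a + k + 1) (by omega) (by omega) p p2 p3
    have e4 := gp_tri (o := o) h (F.c (f (a + k))) (F.pos p) (F.c (f (a + k + 1)))
    have e5 := gp_tri (o := o) h (F.c (f a)) (F.c (f (a + k))) (F.c (f (a + k + 1)))
    rw [gp_symm (F.pos p)] at e4
    have e6 : (0 : ℤ) ≤ k * δ := by positivity
    rw [← add_assoc]
    push_cast
    rcases e4 with e4 | e4 <;> rcases e5 with e5 | e5 <;> nlinarith

theorem base {μ R : ℕ} {v : A} {p : T} (h1 : F.Pt v p) (h2 : D ≤ X.d o (F.pos p) + μ)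
    (hR : F.r (F.col v) ≤ R) : 2 * ((D : ℤ) - μ - R + 1) ≤ gp X o (F.c v) (F.pos p) := by
  have := Ex.low F ⟨p, h1, h2⟩
  have := F.ins v p h1
  unfold gp
  omega

/-- Connected configurations are joined by a short chain. -/
theorem short [Fintype ι] (h : X.Hyp δ) {n μ : ℕ} (hn : Fintype.card ι ≤ n)
    (hΔ : 2 * μ + (2 ^ n + 5) * δ + 2 < Δ) {v w : A} (hv : F.Ex μ v)
    (hvw : (F.G μ).Reachable v w) {H : ℤ}
    (hH : ∀ u, (F.G μ).Reachable v u → ∀ p, F.Pt u p → D ≤ X.d o (F.pos p) + μ →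
      H ≤ gp X o (F.c u) (F.pos p)) :
    H - (2 ^ n + 1) * δ ≤ gp X o (F.c v) (F.c w) := by
  classical
  obtain ⟨q, hq⟩ := hvw.exists_isPath
  have re : ∀ t, (F.G μ).Reachable v (q.getVert t) := fun t => ⟨q.take t⟩
  have ad : ∀ t, t < q.length → (F.G μ).Adj (q.getVert t) (q.getVert (t + 1)) :=
    fun t ht => q.adj_getVert_succ ht
  have hl := ad_ruler F.r (fun t => F.col (q.getVert t)) q.length n (fun a b h1 h2 h3 h4 h5 => by
    obtain ⟨k, rfl⟩ := Nat.exists_eq_add_of_le h1.le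
    have e1 := F.chain h q.getVert a (Ex.reach F hv (re a)) k (fun t _ t2 => ad t (by omega))
      fun t t1 t2 p p1 p2 => F.base p1 p2 (h5 t t1 t2)
    obtain ⟨p, p1, -⟩ := Ex.reach F hv (re a)
    obtain ⟨p', p2, -⟩ := Ex.reach F hv (re (a + k))
    have e2 := F.up h p1
    have e3 := F.up h p2
    have e4 : k * δ ≤ 2 ^ n * δ := Nat.mul_le_mul_right _ (by omega)
    have e5 := F.sep _ _ h4 (by
      unfold gp at e1
      rw [← h4] at e3
      rw [add_mul] at hΔ
      zify at *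
      nlinarith)
    have := hq.getVert_injOn (by simp; omega) (by simpa using h2) e5
    omega) _ Finset.univ Finset.card_univ hn 0 (q.length + 1) (by omega) le_rfl fun _ _ _ => Finset.mem_univ _
  have e1 := F.chain h q.getVert 0 (by simpa using hv) q.length (fun t _ t2 => ad t (by omega))
    fun t _ _ => hH _ (re t)
  have e2 : 2 ^ Fintype.card ι ≤ 2 ^ n := Nat.pow_le_pow_right (by omega) hn
  have e3 : q.length * δ ≤ 2 ^ n * δ := Nat.mul_le_mul_right _ (by omega)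
  simp only [zero_add, SimpleGraph.Walk.getVert_zero, SimpleGraph.Walk.getVert_length] at e1
  zify at e3
  nlinarith

theorem main [Fintype ι] (h : X.Hyp δ) {n : ℕ} (hn : Fintype.card ι ≤ n)
    (hΔ : (2 * n + 6) * ((2 ^ n + 5) * δ + 2) ≤ Δ) {v₀ : A} (h₀ : F.Ex 0 v₀) :
    ∃ (C : Set A) (v : A) (m : V), v ∈ C ∧ 0 < F.r (F.col v) ∧ (∀ w ∈ C, F.col w = F.col v → w = v) ∧
      ∀ w ∈ C, ∀ p, F.Pt w p → (∀ u, F.Pt u p → u ∈ C) ∨ X.d m (F.pos p) + 1 < F.r (F.col v) := by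
  classical
  obtain ⟨E, hE⟩ : ∃ E, E = (2 ^ n + 5) * δ + 2 := ⟨_, rfl⟩
  obtain ⟨k, hk, hS⟩ := ad_chain (fun k => F.col '' {w | (F.G (k * E)).Reachable v₀ w})
    (fun k => Set.image_mono fun w hw => hw.mono (F.G_mono (Nat.mul_le_mul_right _ (by omega)))) hn
  obtain ⟨ν, hν⟩ : ∃ ν, ν = k * E := ⟨_, rfl⟩
  have hνE : ν ≤ n * E := hν ▸ Nat.mul_le_mul_right _ hk
  simp only [add_mul, one_mul, ← hν] at hS
  rw [← hE, add_mul, mul_assoc] at hΔ
  have ex : ∀ μ, F.Ex μ v₀ := fun μ => let ⟨p, p1, p2⟩ := h₀; ⟨p, p1, by omega⟩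
  obtain ⟨v, hv, top⟩ : ∃ v, (F.G (ν + E)).Reachable v₀ v ∧
      ∀ w, (F.G (ν + E)).Reachable v₀ w → F.r (F.col w) ≤ F.r (F.col v) := by
    obtain ⟨_, ⟨v, hv, rfl⟩, top⟩ := Set.exists_max_image
      (F.col '' {w | (F.G (ν + E)).Reachable v₀ w}) F.r (Set.toFinite _)
      ⟨_, v₀, SimpleGraph.Reachable.refl _, rfl⟩
    exact ⟨v, hv, fun w hw => top _ ⟨w, hw, rfl⟩⟩
  have sh : ∀ {u w : A} {H : ℤ}, (F.G (ν + E)).Reachable v₀ u → (F.G (ν + E)).Reachable v₀ w →
      (∀ u, (F.G (ν + E)).Reachable v₀ u → ∀ p, F.Pt u p → D ≤ X.d o (F.pos p) + (ν + E) →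
        H ≤ gp X o (F.c u) (F.pos p)) → H - (2 ^ n + 1) * δ ≤ gp X o (F.c u) (F.c w) :=
    fun hu hw hH => F.short h hn (by omega) (Ex.reach F (ex _) hu) (hu.symm.trans hw)
      fun u' h' => hH u' (hu.trans h')
  have hE' : (E : ℤ) = (2 ^ n + 1) * δ + 4 * δ + 2 := by rw [hE]; push_cast; ring
  have hL : (0 : ℤ) ≤ (2 ^ n + 1) * δ := by positivity
  generalize ((2 : ℤ) ^ n + 1) * δ = Lδ at *
  have uq : ∀ u w, (F.G (ν + E)).Reachable v₀ u → (F.G (ν + E)).Reachable v₀ w →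
      F.col u = F.col w → F.r (F.col v) ≤ F.r (F.col u) + E → u = w := fun u w hu hw e hr => by
    have e1 := sh hu hw fun u' h' p p1 p2 => F.base p1 p2 (top u' h')
    obtain ⟨p, p1, -⟩ := Ex.reach F (ex _) hu
    obtain ⟨p', p2, -⟩ := Ex.reach F (ex _) hw
    have e2 := F.up h p1
    have e3 := F.up h p2
    rw [← e] at e3
    refine F.sep _ _ e ?_
    unfold gp at e1
    omega
  have nr : ∀ w, (F.G (ν + E)).Reachable v₀ w → F.r (F.col v) ≤ F.r (F.col w) + E →
      D + 1 ≤ X.d o (F.c w) + ν + F.r (F.col w) := fun w hw hr => by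
    obtain ⟨w', h1, h2⟩ := hS ⟨w, hw, rfl⟩
    rw [uq w w' hw (h1.mono (F.G_mono (by omega))) h2.symm hr]
    exact Ex.low F (Ex.reach F (ex _) h1)
  obtain ⟨H, hH⟩ : ∃ H : ℤ, H = 2 * D - (ν + E) - ν - 2 * F.r (F.col v) + 2 := ⟨_, rfl⟩
  have al : ∀ w, (F.G (ν + E)).Reachable v₀ w → H - Lδ ≤ gp X o (F.c v) (F.c w) :=
    fun w hw => sh hv hw fun u hu p p1 p2 => by
      have := top u hu
      by_cases hr : F.r (F.col v) ≤ F.r (F.col u) + E
      · have := nr u hu hr; have := F.ins u p p1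
        unfold gp; omega
      · have := F.base p1 p2 le_rfl
        omega
  have e0 := al v hv
  unfold gp at e0
  rw [X.d_self] at e0
  obtain ⟨m, m1, m2⟩ := X.geod o (F.c v) ((H - Lδ) / 2).toNat (by omega)
  obtain ⟨p₀, q₀, -⟩ := Ex.reach F (ex _) hv
  refine ⟨{w | (F.G (ν + E)).Reachable v₀ w}, v, m, hv, Nat.zero_lt_of_lt (F.ins v p₀ q₀),
    fun w hw e => uq w v hw hv e (by rw [e]; omega), fun w hw p hp => ?_⟩
  by_cases hx : D ≤ X.d o (F.pos p) + (ν + E)
  · refine Or.inl fun u hu => ?_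
    by_cases e : w = u
    · exact e ▸ hw
    · exact hw.trans ((SimpleGraph.fromRel_adj _ _ _).2 ⟨e, Or.inl ⟨p, hp, hu, hx⟩⟩).reachable
  right
  have e1 := gp_tri (o := o) h m (F.c v) (F.pos p)
  have e2 := gp_tri (o := o) h (F.c v) (F.c w) (F.pos p)
  have e3 := al w hw
  have e4 := F.ins w p hp
  have e5 := top w hw
  have e6 := Ex.low F (Ex.reach F (ex _) hw)
  have e7 := X.tri m o (F.pos p)
  have e8 := X.symm m o
  unfold gp at *
  by_cases hr : F.r (F.col v) ≤ F.r (F.col w) + E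
  · have := nr w hw hr
    omega
  · omega

end Cf

end Pool.Agent.P.MP_81321e_al
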