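import Pool.Agent.P.MP_81321e_al.BDefs

/-! The rank argument. -/

set_option autoImplicit false

namespace Pool.Agent.P.MP_81321e_al

open Finset MonoidAlgebra

theorem nsf_of_rank {R A J : Type} [Ring R] [Fintype A] [DecidableEq A] [Fintype J] (e : R)
    (he : e * e = e) (hc : ∀ x, Commute e x) (h0 : e ≠ 0) (hJ : Fintype.card J < Fintype.card A)
    (M : Matrix A J R) (V : Matrix J A R) (h : M * V = Matrix.scalar A e) : NSF R := by
  classical
  by_contra hn
  have df : DF (Matrix A A R) := DF.mono (n := Fin (Fintype.card A)) (by simp) fun a b hab => by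
    by_contra hba
    exact hn ⟨_, a, b, hab, hba⟩
  obtain ⟨ι⟩ := Function.Embedding.nonempty_of_card_le hJ.le
  obtain ⟨a₀, ha₀⟩ : ∃ a₀, ∀ j, a₀ ≠ ι j := by
    by_contra hs
    push Not at hs
    exact absurd (Fintype.card_le_of_surjective ι fun a => (hs a).imp fun _ h => h.symm) hJ.not_ge
  obtain ⟨P, hP⟩ : ∃ P, P = (1 : Matrix A A R).submatrix id ι := ⟨_, rfl⟩
  obtain ⟨Q, hQ⟩ : ∃ Q, Q = (1 : Matrix A A R).submatrix ι id := ⟨_, rfl⟩
  have e1 : M * Q * (P * V) = Matrix.scalar A e := by
    have : Q * P = 1 := by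
      ext j j'
      simp [hP, hQ, Matrix.mul_apply, Matrix.one_apply]
    rw [Matrix.mul_assoc, ← Matrix.mul_assoc Q, this, Matrix.one_mul, h]
  have e2 : (P * V * (M * Q)) a₀ a₀ = 0 := by
    rw [Matrix.mul_assoc, Matrix.mul_apply]
    simp [hP, ha₀]
  generalize M * Q = X at e1 e2
  generalize P * V = Y at e1 e2
  have c : ∀ Z, Z * Matrix.scalar A e = Matrix.scalar A e * Z := fun Z =>
    (Matrix.scalar_commute e hc Z).symm
  have ee : Matrix.scalar A e * Matrix.scalar A e = Matrix.scalar A e := by rw [← map_mul, he]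
  have key : ∀ X Y : Matrix A A R, (Matrix.scalar A e * X + (1 - Matrix.scalar A e)) *
      (Matrix.scalar A e * Y + (1 - Matrix.scalar A e)) =
      Matrix.scalar A e * (X * Y) + (1 - Matrix.scalar A e) := fun X Y => by
    simp only [add_mul, mul_add, sub_mul, mul_sub, one_mul, mul_one, mul_assoc, c X, ee]
    simp only [← mul_assoc, ee]
    rw [mul_assoc _ X, c X, ← mul_assoc, ee]
    abel
  have e3 := df _ _ ((key X Y).trans (by rw [e1, ee, add_sub_cancel]))
  rw [key] at e3
  have e4 := congrFun (congrFun e3 a₀) a₀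
  simp [e2, h0] at e4

theorem sat_mem {R M Ω X : Type} [Ring R] [AddCommGroup M] [Module R M] [Fintype Ω]
    [DecidableEq X] (N : Submodule R M) (p : Ω → X) (S : Finset Ω)
    (hS : ∀ ω ω', p ω = p ω' → ω ∈ S → ω' ∈ S) (F : Ω → M) (t : X → R)
    (h : ∀ ω₀, ∑ ω ∈ univ.filter (fun ω => p ω = p ω₀), F ω ∈ N) :
    ∑ ω ∈ S, t (p ω) • F ω ∈ N := by
  rw [← sum_fiberwise_of_maps_to (t := S.image p) (g := p) fun ω hω => mem_image_of_mem _ hω]
  refine N.sum_mem fun x hx => ?_
  obtain ⟨ω₀, h₀, rfl⟩ := mem_image.1 hx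
  have : S.filter (fun ω => p ω = p ω₀) = univ.filter fun ω => p ω = p ω₀ := by
    ext ω
    simp only [mem_filter, mem_univ, true_and]
    exact ⟨fun h => h.2, fun h => ⟨hS _ _ h.symm h₀, h⟩⟩
  rw [this, sum_congr rfl fun ω hω => by rw [(mem_filter.1 hω).2], ← smul_sum]
  exact N.smul_mem _ (h ω₀)

theorem alg : SAlg := by
  intro K Ω A B C E R I _ _ _ _ _ L c H _ z s gA h gC h2 hc hz z1 s1 s2 rel
  classical
  have : Fintype A := Fintype.ofInjective c.sp (Function.LeftInverse.injective c.pA_sp)
  let T := (Matrix.of c.f).mulVecLin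
  have hT : Fintype.card I + Module.finrank K (LinearMap.ker T) = Fintype.card A := by
    have e1 := T.finrank_range_add_finrank_ker
    have e2 : (Matrix.of c.f).rank = Fintype.card I := LinearIndependent.rank_matrix c.ind
    rw [Module.finrank_fintype_fun_eq_card] at e1
    rw [← e2]; exact e1
  let b := Module.finBasis K (LinearMap.ker T)
  let ψ : (A → K) →ₗ[K] A → MonoidAlgebra K H := LinearMap.pi fun a =>
    LinearMap.toSpanSingleton K _ (single (gA a) 1) ∘ₗ LinearMap.proj a
  let V : Matrix (Fin (Module.finrank K (LinearMap.ker T)) ⊕ E) A (MonoidAlgebra K H) :=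
    Matrix.of (Sum.elim (fun k => ψ (b k)) fun e a => if c.eA a = e then 1 else 0)
  let N := Submodule.span (MonoidAlgebra K H) (Set.range V.row)
  have m1 : ∀ w ∈ LinearMap.ker T, ψ w ∈ N := fun w hw => by
    have := congrArg (fun x : LinearMap.ker T => ψ x) (b.sum_repr ⟨w, hw⟩)
    simp only [Submodule.coe_sum, Submodule.coe_smul, map_sum, map_smul] at this
    rw [← this]
    exact N.sum_mem fun k _ => N.smul_of_tower_mem _ (Submodule.subset_span ⟨.inl k, rfl⟩)
  have m2 : ∀ a₀, (Pi.single a₀ (single z 1 - 1) : A → MonoidAlgebra K H) ∈ N := fun a₀ => by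
    have e1 := sat_mem N c.pB (univ.filter fun ω => c.res ω = c.res (c.sp a₀))
      (fun ω ω' h1 h2 => by simpa [← c.res_B _ _ h1] using h2)
      (fun ω => Pi.single (c.pA ω) (single (gA (c.pA ω)) 1)) (fun b => single (h b) 1) fun ω₀ => by
        have := m1 (∑ ω ∈ univ.filter (fun ω => c.pB ω = c.pB ω₀), Pi.single (c.pA ω) 1) (by
          rw [LinearMap.mem_ker, map_sum]
          funext i
          simpa [T] using c.sum i (c.pB ω₀))
        rw [map_sum] at this
        refine (N.mem_carrier.1 (Set.mem_of_eq_of_mem (sum_congr rfl fun ω _ => ?_) this))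
        funext a
        by_cases ha : a = c.pA ω <;> simp [ψ, ha]
    have e2 := sat_mem N c.pC (univ.filter fun ω => c.res ω = c.res (c.sp a₀))
      (fun ω ω' h1 h2 => by simpa [← c.res_C _ _ h1] using h2)
      (fun ω => Pi.single (c.pA ω) 1) (fun x => single (gC x) 1) fun ω₀ => by
        have : V.row (.inr (c.eC (c.pC ω₀))) ∈ N := Submodule.subset_span ⟨_, rfl⟩
        refine (N.mem_carrier.1 (Set.mem_of_eq_of_mem (Eq.symm ?_) this))
        funext a
        simp only [V, Matrix.row_apply, Matrix.of_apply, Sum.elim_inr, Finset.sum_apply]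
        split_ifs with ha
        · obtain ⟨ω, ⟨h1, h2⟩, h3⟩ := c.grid ω₀ a ha
          rw [sum_eq_single_of_mem ω (by simpa using h1), h2, Pi.single_eq_same]
          intro ω' h4 h5
          exact Pi.single_eq_of_ne (fun h6 => h5 (h3 ω' ⟨by simpa using h4, h6.symm⟩)) _
        · refine (sum_eq_zero fun ω h4 => Pi.single_eq_of_ne (fun h6 => ha ?_) _).symm
          rw [h6, c.eAC, (mem_filter.1 h4).2]
    have e3 := N.smul_mem (single (gC (c.pC (c.sp a₀)))⁻¹ 1) (N.sub_mem e1 e2)
    rw [← sum_sub_distrib, sum_eq_single_of_mem (c.sp a₀) (by simp)] at e3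
    · have e4 := rel (c.sp a₀)
      rw [c.pA_sp, s1] at e4
      simpa [← Pi.single_smul, ← Pi.single_sub, single_mul_single, e4, c.pA_sp, mul_sub,
        ← one_def] using e3
    · intro ω h1 h3
      have : s ω = 1 := s2 ω fun h4 => h3 (by
        rw [← h4, c.res_sp (c.pA ω) a₀ (by rw [h4]; exact (mem_filter.1 h1).2)])
      simp [← Pi.single_smul, single_mul_single, rel, this]
  have m3 := fun a₀ => (Submodule.mem_span_range_iff_exists_fun _).1
    (N.smul_of_tower_mem (-2⁻¹ : K) (m2 a₀))
  choose M hM using m3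
  have zz : (single z 1 : MonoidAlgebra K H) * single z 1 = 1 := by
    rw [single_mul_single, hz, mul_one, one_def]
  refine nsf_of_rank ((-2⁻¹ : K) • (single z 1 - 1)) ?_ (fun x => ?_) (fun h0 => ?_) ?_
    (Matrix.of M) V ?_
  · have : (single z 1 - 1 : MonoidAlgebra K H) * (single z 1 - 1) = (-2 : K) • (single z 1 - 1) := by
      rw [mul_sub, sub_mul, zz, neg_smul, two_smul]
      simp only [mul_one, one_mul]
      abel
    rw [smul_mul_smul_comm, this, smul_smul]
    congr 1
    field_simp
  · exact ((single_commute (fun g => (hc g).symm) (fun _ => Commute.all _ _) x).sub_left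
      (Commute.one_left x)).smul_left _
  · simpa [h2, one_def, Finsupp.single_apply, z1] using congrArg (fun x => x.coeff 1) h0
  · have := c.card
    simp only [Fintype.card_sum, Fintype.card_fin]
    omega
  · ext a a' : 1
    have := congrFun (hM a) a'
    rw [Finset.sum_apply] at this
    refine this.trans ?_
    by_cases ha : a = a'
    · simp [ha]
    · simp [ha, Ne.symm ha]

end Pool.Agent.P.MP_81321e_al
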