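import Pool.Agent.P.MP_81321e_al.BSh

/-! The chamber system. -/

set_option autoImplicit false

namespace Pool.Agent.P.MP_81321e_al

namespace Sh

open Finset

variable {K : Type} [Field K] {L : ℕ}

/-- The letters of `A`. -/
def QA : Set (Lt L) := Set.range Sum.inr

/-- One of the small letters. -/
def Q1 (k : Fin 3) : Set (Lt L) := {.inl k}

theorem monoE : Mono (QA ∪ Q1 1 : Set (Lt L)) :=
  ⟨false, by rintro a (⟨i, rfl⟩ | rfl) <;> rfl⟩

theorem monoA : Mono (QA : Set (Lt L)) := ⟨false, by rintro a ⟨i, rfl⟩; rfl⟩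

theorem mono1 (k : Fin 3) : Mono (Q1 k : Set (Lt L)) := ⟨_, by rintro a rfl; rfl⟩

/-- The small ring inside the large ring. -/
def pull : Rg K L (Fin 3) →+* Rg K L (Lt L) :=
  RingHom.pi fun σ => Pi.evalRingHom _ fun i => Sum.elim id (fun _ => 2) (σ i)

/-- The retraction to the small ring. -/
def push : Rg K L (Lt L) →+* Rg K L (Fin 3) :=
  RingHom.pi fun σ => Pi.evalRingHom _ fun i => Sum.inl (σ i)

theorem push_pull (t : Rg K L (Fin 3)) : push (pull t) = t := rfl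

theorem pull_push {k : Fin 3} (hk : k ≠ 2) {β : Lt L → K} (h : Sup (Q1 k) β) :
    pull (push (N β)) = N β := by
  ext σ i j
  have h1 : ∀ a : Lt L, ty (Sum.inl (Sum.elim id (fun _ => 2) a) : Lt L) = ty a := by
    rintro (a | a) <;> rfl
  have h2 : ∀ a : Lt L, β (Sum.inl (Sum.elim id (fun _ => 2) a)) = β a := by
    rintro (a | a)
    · rfl
    · exact (h _ fun hh => hk (Sum.inl.inj hh).symm).trans (h _ fun hh => by cases hh).symm
  show N β (fun i => Sum.inl (Sum.elim id (fun _ => 2) (σ i))) i j = _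
  simp only [N_apply, h1, h2]

theorem push_N {β : Lt L → K} (h : Sup QA β) : push (N β) = 0 := by
  ext σ i j
  show N β (fun i => Sum.inl (σ i)) i j = 0
  rw [N_apply, h (Sum.inl _) (by rintro ⟨i, hi⟩; cases hi), ite_self]

/-- The residue. -/
def res (x : Rg K L (Lt L)) : (Ix L → K) × Set (Rg K L (Lt L)) :=
  (fun i => ρ x (.inr i), Set.range fun t => (1 + x) * pull t)

theorem res_eq {k : Fin 3} (hk : k ≠ 2) (x y : J K (∅ : Set (Lt L)))
    (h : pan (Q1 k) x = pan (Q1 k) y) : res x.1 = res y.1 := by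
  have key : ∀ x y : J K (∅ : Set (Lt L)), pan (Q1 k) x = pan (Q1 k) y →
      (res y.1).2 ⊆ (res x.1).2 := fun x y h => by
    obtain ⟨β, hb, h⟩ := (pan_iff (mono1 k) _ _).1 h
    rintro _ ⟨t, rfl⟩
    exact ⟨push (1 + N β) * t, by
      simp only [h, act_eq, map_mul, map_add, map_one, pull_push hk hb, mul_assoc]⟩
  refine Prod.ext (funext fun i => ?_) ((key _ _ h.symm).antisymm (key _ _ h))
  obtain ⟨β, hb, h⟩ := (pan_iff (mono1 k) _ _).1 h
  show ρ x.1 _ = ρ y.1 _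
  rw [h, ρ_act x.2, Pi.add_apply, hb _ (fun hh => by cases hh), add_zero]

/-- The code of the retraction. -/
def code (x : Rg K L (Lt L)) : Lt L → K := Sum.elim 0 fun i => push x i.1 i.2.1 i.2.2

theorem code_sup (x : Rg K L (Lt L)) : Sup QA (code x) := by
  rintro (a | a) h
  · rfl
  · exact (h ⟨a, rfl⟩).elim

/-- The special chambers. -/
def sp (a : J K (QA : Set (Lt L))) : J K (∅ : Set (Lt L)) :=
  ⟨act a.1 (code a.1), act_mem (J.up a.2) _⟩

theorem pan_sp (a : J K (QA : Set (Lt L))) : pan QA (sp a) = a :=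
  ((pan_iff monoA _ _).2 ⟨_, code_sup _, rfl⟩).symm.trans (pan_self a)

theorem res_sp (a a' : J K (QA : Set (Lt L))) (h : res (sp a).1 = res (sp a').1) : a = a' := by
  have h1 : ∀ a : J K (QA : Set (Lt L)), ∀ i, (res (sp a).1).1 i = push a.1 i.1 i.2.1 i.2.2 :=
    fun a i => by
      show ρ (act _ _) _ = _
      rw [ρ_act (J.up a.2), Pi.add_apply, a.2.2 _ ⟨i, rfl⟩, zero_add]
      rfl
  have h2 : push a.1 = push a'.1 := by
    ext σ i j
    exact (h1 a (σ, i, j)).symm.trans (h ▸ h1 a' (σ, i, j))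
  have h3 : ∀ a : J K (QA : Set (Lt L)), push (1 + (sp a).1) = 1 + push a.1 := fun a => by
    simp only [sp, act_eq, map_mul, map_add, map_one, push_N (code_sup _), add_zero, mul_one]
  obtain ⟨t, ht⟩ : (1 + (sp a').1) * pull 1 ∈ (res (sp a).1).2 := h ▸ ⟨1, rfl⟩
  have h4 := congrArg push ht
  simp only [map_mul, push_pull, h3, ← h2] at h4
  have h5 : IsUnit (1 + push a.1) := by simpa using (unit (J.up a.2)).map push
  rw [h5.mul_left_cancel h4] at ht
  simp only [map_one, mul_one, add_right_inj] at ht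
  rw [← pan_sp a, Subtype.ext ht, pan_sp]

theorem grid (ω : J K (∅ : Set (Lt L))) (a : J K (QA : Set (Lt L)))
    (h : pan (QA ∪ Q1 1) a = pan (QA ∪ Q1 1) (pan (Q1 1) ω)) :
    ∃! ω' : J K (∅ : Set (Lt L)), pan (Q1 1) ω' = pan (Q1 1) ω ∧ pan QA ω' = a := by
  have d : ∀ x : Lt L, x ∈ QA → x ∉ Q1 1 := by
    rintro _ ⟨i, rfl⟩ h
    cases h
  refine existsUnique_of_exists_of_unique ?_ fun x y hx hy => ?_
  · rw [pan_pan monoE Set.subset_union_right] at h
    obtain ⟨β, hb, h⟩ := (pan_iff monoE _ _).1 h.symm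
    refine ⟨⟨act ω.1 ((Q1 1).indicator β), act_mem ω.2 _⟩,
      ((pan_iff (mono1 1) _ _).2 ⟨_, Sup.ind _ _, rfl⟩).symm,
      ((pan_iff monoA _ _).2 ⟨_, Sup.ind QA β, ?_⟩).trans (pan_self a)⟩
    rw [h, act_act monoE _ ((Sup.ind _ _).mono Set.subset_union_right)
      ((Sup.ind _ _).mono Set.subset_union_left)]
    congr 1
    ext x
    by_cases h1 : x ∈ QA
    · simp [h1, d x h1]
    · by_cases h2 : x ∈ Q1 1
      · simp [h1, h2]
      · simp [h1, h2, hb x fun h => h.elim h1 h2]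
  · obtain ⟨β, hb, h1⟩ := (pan_iff (mono1 1) _ _).1 (hx.1.trans hy.1.symm)
    obtain ⟨α, ha, h2⟩ := (pan_iff monoA _ _).1 (hx.2.trans hy.2.symm)
    have h3 : β = α := add_left_cancel ((ρ_act x.2 β).symm.trans (h1 ▸ h2 ▸ ρ_act x.2 α))
    have h4 : β = 0 := funext fun c => by
      by_cases hc : c ∈ QA
      · exact hb c (d c hc)
      · exact h3 ▸ ha c hc
    exact Subtype.ext (by rw [h1, h4, act_zero])

theorem gal' (m : ℕ) (ω : ℕ → J K (∅ : Set (Lt L))) (j : ℕ → Bool) (hm : 0 < m) (hL : m ≤ L)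
    (h1 : ∀ i, i < m → ω i ≠ ω (i + 1) ∧ (j i = true → pan (Q1 0) (ω i) = pan (Q1 0) (ω (i + 1))) ∧
      (j i = false → pan (QA ∪ Q1 1) (pan QA (ω i)) = pan (QA ∪ Q1 1) (pan QA (ω (i + 1)))))
    (h2 : ∀ i, i + 1 < m → j i ≠ j (i + 1)) : ω m ≠ ω 0 := by
  have key : ∀ i, ∃ (β : Lt L → K) (a : Lt L), i < m →
      (ω (i + 1)).1 = act (ω i).1 β ∧ β a ≠ 0 ∧ ty a = j i := fun i => by
    by_cases hi : i < m
    swap
    · exact ⟨0, ot true, fun h => (hi h).elim⟩
    obtain ⟨e1, e2, e3⟩ := h1 i hi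
    obtain ⟨Q, β, hQ, hb, h⟩ : ∃ (Q : Set (Lt L)) (β : Lt L → K), (∀ a ∈ Q, ty a = j i) ∧
        Sup Q β ∧ (ω (i + 1)).1 = act (ω i).1 β := by
      cases hj : j i
      · have := e3 hj
        simp only [pan_pan monoE Set.subset_union_left] at this
        obtain ⟨β, hb, h⟩ := (pan_iff monoE _ _).1 this
        exact ⟨_, β, by rintro a (⟨i, rfl⟩ | rfl) <;> rfl, hb, h⟩
      · obtain ⟨β, hb, h⟩ := (pan_iff (mono1 0) _ _).1 (e2 hj)
        exact ⟨_, β, by rintro a rfl; rfl, hb, h⟩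
    obtain ⟨a, ha⟩ := Function.ne_iff.1 fun h0 : β = 0 =>
      e1 (Subtype.ext (by rw [h, h0, act_zero]))
    exact ⟨β, a, fun _ => ⟨h, ha, hQ a (not_not.1 fun hh => ha (hb a hh))⟩⟩
  choose β a key using key
  intro h
  refine gal m (fun i => (ω i).1) β (fun i => if i < m then a i else ot (!j (m - 1))) (ω 0).2 hm hL
    (fun i hi => ?_) (congrArg (·.1) h)
  obtain ⟨e1, e2, e3⟩ := key i hi
  simp only [if_pos hi]
  refine ⟨e1, e2, ?_⟩
  split_ifs with h'
  · rw [e3, (key _ h').2.2]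
    exact h2 i h'
  · rw [e3, ty_ot, show m - 1 = i by omega]
    simp

theorem sup1 (k : Fin 3) (t : K) : 
    Sup (Q1 k) (t • Pi.single (M := fun _ => K) (.inl k : Lt L) 1) :=
  fun a ha => by rw [Pi.smul_apply, Pi.single_eq_of_ne ha, smul_zero]

theorem card_le [Fintype K] [Fintype (J K (QA : Set (Lt L)))]
    [Fintype (J K (QA ∪ Q1 1 : Set (Lt L)))] :
    Fintype.card K * Fintype.card (J K (QA ∪ Q1 1 : Set (Lt L))) ≤
      Fintype.card (J K (QA : Set (Lt L))) := by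
  rw [← Fintype.card_prod]
  have r : ∀ (t : K) (y : J K (QA ∪ Q1 1 : Set (Lt L))) (a : Lt L),
      ρ (act y.1 (t • Pi.single (.inl 1) 1)) a =
        ρ y.1 a + t * Pi.single (M := fun _ => K) (.inl 1) 1 a :=
    fun t y a => congrFun (ρ_act (J.up y.2) _) a
  refine Fintype.card_le_of_injective (fun p => ⟨act p.2.1 (p.1 • Pi.single (.inl 1) 1),
    (act_mem (J.up p.2.2) _).1, ?_⟩) fun p q h => ?_
  · rintro _ ⟨i, rfl⟩
    rw [r, p.2.2.2 _ (Or.inl ⟨i, rfl⟩)]
    simp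
  · have h := congrArg (·.1) h
    have h1 := congrArg (fun x => ρ x (.inl 1)) h
    simp only [r, p.2.2.2 _ (Or.inr rfl), q.2.2.2 _ (Or.inr rfl), Pi.single_eq_same, zero_add,
      mul_one] at h1
    have h2 := congrArg (fun x => act x (-(q.1 • Pi.single (.inl 1) 1))) h
    simp only [h1, act_act (mono1 1) _ (sup1 1 _) (sup1 1 _).neg, add_neg_cancel, act_zero] at h2
    exact Prod.ext h1 (Subtype.ext h2)

theorem sum_line [Fintype K] [Fintype (J K (∅ : Set (Lt L)))]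
    [DecidableEq (J K (Q1 0 : Set (Lt L)))] (f : J K (QA : Set (Lt L)) → K)
    (hf : ∀ u v, ∑ t : K, f (u + t • v) = 0) (b : J K (Q1 0 : Set (Lt L))) :
    ∑ ω ∈ univ.filter (fun ω : J K (∅ : Set (Lt L)) => pan (Q1 0) ω = b), f (pan QA ω) = 0 := by
  let g : K → J K (∅ : Set (Lt L)) := fun t =>
    ⟨act b.1 (t • Pi.single (.inl 0) 1), act_mem (J.up b.2) _⟩
  rw [← hf (pan QA (g 0)) (pan QA (g 1) - pan QA (g 0))]
  symm
  refine sum_bij (fun t _ => g t) (fun t _ => mem_filter.2 ⟨mem_univ _,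
    ((pan_iff (mono1 0) _ _).2 ⟨_, sup1 0 t, rfl⟩).symm.trans (pan_self b)⟩)
    (fun s _ t _ h => ?_) (fun ω h => ?_) fun t _ => congrArg f (Subtype.ext ?_)
  · simpa [g, ρ_act (J.up b.2)] using congrArg (fun x => ρ x.1 (.inl 0)) h
  · obtain ⟨β, hb, h⟩ := (pan_iff (mono1 0) _ _).1 ((pan_self b).trans (mem_filter.1 h).2.symm)
    refine ⟨β (.inl 0), mem_univ _, Subtype.ext (h.trans (congrArg _ (funext fun a => ?_))).symm⟩
    by_cases ha : a = .inl 0
    · simp [ha]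
    · simp [ha, hb a ha]
  · have : ∀ t, QA.indicator (ρ (g t).1) = QA.indicator (ρ b.1) := fun t =>
      Set.indicator_congr (by
        rintro _ ⟨i, rfl⟩
        simp [g, ρ_act (J.up b.2)])
    simp only [pan, this, Submodule.coe_add, Submodule.coe_smul, AddSubgroupClass.coe_sub]
    simp only [g, act, map_smul, zero_smul, one_smul, add_mul, mul_smul_comm, smul_mul_assoc,
      map_zero, mul_zero, add_zero]
    module

end Sh

open Sh in
theorem cs (h : SPhi) : SCS := by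
  classical
  intro L
  obtain ⟨K, _, _, k2, h⟩ := h (Fintype.card (Fin (L + 2) → Lt L) * ((L + 2) * (L + 2)))
  let _ : ∀ Q : Set (Lt L), Fintype (J K Q) := fun Q => Fintype.ofFinite _
  obtain ⟨I, _, f, h1, h2, h3⟩ := h (J K (QA : Set (Lt L))) ((Submodule.finrank_le _).trans (by
    simp [Module.finrank_pi_fintype, Module.finrank_matrix]))
  exact ⟨K, J K ∅, J K QA, J K (Q1 0), J K (Q1 1), J K (QA ∪ Q1 1), _, I, _, _, _, _, _, k2,
    ⟨⟨pan _, pan _, pan _, pan _, pan _, fun ω => (pan_pan monoE Set.subset_union_left ω).trans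
      (pan_pan monoE Set.subset_union_right ω).symm, grid, gal', fun x => res x.1,
      res_eq (by decide), res_eq (by decide), sp, pan_sp, res_sp, f, h1,
      Nat.lt_of_mul_lt_mul_left (card_le.trans_lt h2), fun i => sum_line _ (h3 i)⟩⟩⟩

end Pool.Agent.P.MP_81321e_al
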