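import Pool.Agent.P.MP_81321e_al.Glue

/-! Interface of the construction of a group algebra which is not stably finite. -/

set_option autoImplicit false

namespace Pool.Agent.P.MP_81321e_al

open Pool.Agent.P.MP_4b59b0_al Finset

/-- Not stably finite. -/
def NSF (R : Type) [Ring R] : Prop :=
  ∃ (n : ℕ) (a b : Matrix (Fin n) (Fin n) R), a * b = 1 ∧ b * a ≠ 1

/-- Many functions on an affine space sum to zero on all lines. -/
def SPhi : Prop := ∀ k : ℕ, ∃ (K : Type) (_ : Field K) (_ : Fintype K), (2 : K) ≠ 0 ∧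
  ∀ (V : Type) [AddCommGroup V] [Module K V] [Fintype V], Module.finrank K V ≤ k →
    ∃ (I : Type) (_ : Fintype I) (f : I → V → K), LinearIndependent K f ∧
      Fintype.card V < Fintype.card K * Fintype.card I ∧
      ∀ i (u v : V), ∑ x : K, f i (u + x • v) = 0

/-- A chamber system with panels `A, B, C`, where the residues `E` of `A` and `C` are grids, with
long closed galleries in `E, B`, special chambers, and many functions on `A` killing `B`. -/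
structure CS (K Ω A B C E R I : Type) [Field K] [Fintype Ω] [Fintype E] [Fintype I]
    [DecidableEq B] (L : ℕ) where
  pA : Ω → A
  pB : Ω → B
  pC : Ω → C
  eA : A → E
  eC : C → E
  eAC : ∀ ω, eA (pA ω) = eC (pC ω)
  grid : ∀ ω a, eA a = eC (pC ω) → ∃! ω', pC ω' = pC ω ∧ pA ω' = a
  gal : ∀ (m : ℕ) (ω : ℕ → Ω) (j : ℕ → Bool), 0 < m → m ≤ L →
    (∀ i, i < m → ω i ≠ ω (i + 1) ∧ (j i = true → pB (ω i) = pB (ω (i + 1))) ∧
      (j i = false → eA (pA (ω i)) = eA (pA (ω (i + 1))))) →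
    (∀ i, i + 1 < m → j i ≠ j (i + 1)) → ω m ≠ ω 0
  res : Ω → R
  res_B : ∀ ω ω', pB ω = pB ω' → res ω = res ω'
  res_C : ∀ ω ω', pC ω = pC ω' → res ω = res ω'
  sp : A → Ω
  pA_sp : ∀ a, pA (sp a) = a
  res_sp : ∀ a a', res (sp a) = res (sp a') → a = a'
  f : I → A → K
  ind : LinearIndependent K f
  card : Fintype.card E < Fintype.card I
  sum : ∀ i b, ∑ ω ∈ univ.filter (fun ω => pB ω = b), f i (pA ω) = 0

/-- Such chamber systems exist. -/
def SCS : Prop := ∀ L : ℕ, ∃ (K Ω A B C E R I : Type) (_ : Field K) (_ : Fintype Ω)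
  (_ : Fintype E) (_ : Fintype I) (_ : DecidableEq B),
  (2 : K) ≠ 0 ∧ Nonempty (CS K Ω A B C E R I L)

/-- The rank condition fails. -/
def SAlg : Prop := ∀ (K Ω A B C E R I : Type) [Field K] [Fintype Ω] [Fintype E] [Fintype I]
  [DecidableEq B] (L : ℕ) (c : CS K Ω A B C E R I L) (H : Type) [Group H] (z : H) (s : Ω → H)
  (gA : A → H) (h : B → H) (gC : C → H), (2 : K) ≠ 0 → (∀ g, g * z = z * g) → z * z = 1 → z ≠ 1 →
  (∀ a, s (c.sp a) = z) → (∀ ω, c.sp (c.pA ω) ≠ ω → s ω = 1) →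
  (∀ ω, h (c.pB ω) * gA (c.pA ω) = gC (c.pC ω) * s ω) → NSF (MonoidAlgebra K H)

/-- Twisted graphical small cancellation. -/
def SGeo : Prop := ∃ δ : ℕ, ∀ D : ℕ, ∃ L : ℕ, ∀ (K Ω A B C E R I : Type) [Field K] [Fintype Ω]
  [Fintype E] [Fintype I] [DecidableEq B] [DecidableEq Ω] (c : CS K Ω A B C E R I L),
  ∃ (H : Type) (_ : Group H) (z : H) (V : Type) (_ : MulAction H V) (X : Sp V) (lam : Ω → H)
    (gA : A → H) (gB gB' : B → H) (gC : C → H), (∀ g, g * z = z * g) ∧ z * z = 1 ∧ z ≠ 1 ∧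
    X.Iso H ∧ X.Hyp δ ∧ Nonempty V ∧ (∀ g : H, g ≠ 1 → g ≠ z → X.Mv g D) ∧
    (∀ ω, gB (c.pB ω) = gA (c.pA ω) * lam ω) ∧
    ∀ ω, gB' (c.pB ω) = gC (c.pC ω) * lam ω * (if c.sp (c.pA ω) = ω then z else 1)

theorem partB_of (h1 : SCS) (h2 : SAlg) (h3 : SGeo) : StmtB := by
  classical
  obtain ⟨δ, h⟩ := h3
  refine ⟨δ, fun D => ?_⟩
  obtain ⟨L, h⟩ := h D
  obtain ⟨K, Ω, A, B, C, E, R, I, _, _, _, _, _, k2, ⟨c⟩⟩ := h1 L
  obtain ⟨H, _, z, V, _, X, lam, gA, gB, gB', gC, a1, a2, a3, a4, a5, a6, a7, a8, a9⟩ :=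
    h K Ω A B C E R I c
  refine ⟨K, _, H, _, z, V, _, X, k2, a1, a2, a4, a5, a6, a7, h2 K Ω A B C E R I L c H z
    (fun ω => if c.sp (c.pA ω) = ω then z else 1) gA (fun b => gB' b * (gB b)⁻¹) gC k2 a1 a2 a3
    (fun a => by simp [c.pA_sp]) (fun ω h => if_neg h) fun ω => ?_⟩
  rw [a8, a9]
  split_ifs
  · rw [mul_assoc (gC _), a1]
    group
  · group

end Pool.Agent.P.MP_81321e_al
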