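import Pool.Agent.P.MP_81321e_al.BDefs
import Pool.Agent.P.MP_e79ed6_al.Phi

/-! Reed-Muller codes. -/

set_option autoImplicit false

namespace Pool.Agent.P.MP_81321e_al

open Finset Pool.Agent.P.MP_e79ed6_al

theorem phi : SPhi := by
  intro k
  obtain ⟨p, hp, pp⟩ := Nat.exists_infinite_primes ((3 * (k + 1)) ^ k + 3)
  have : Fact p.Prime := ⟨pp⟩
  have p3 : 3 ≤ p := le_trans (Nat.le_add_left _ _) hp
  refine ⟨ZMod p, inferInstance, inferInstance, fun h => ?_, fun V _ _ _ hV => ?_⟩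
  · have := Nat.le_of_dvd two_pos ((ZMod.natCast_eq_zero_iff 2 p).1 h)
    omega
  obtain ⟨a, ha⟩ : ∃ a, a = (p - 2) / (k + 1) := ⟨_, rfl⟩
  have a1 : (k + 1) * a ≤ p - 2 := ha ▸ Nat.mul_div_le _ _
  have a2 : p - 2 < (k + 1) * (a + 1) := ha ▸ Nat.lt_mul_div_succ _ k.succ_pos
  obtain ⟨d, hd⟩ : ∃ d, Module.finrank (ZMod p) V = d := ⟨_, rfl⟩
  let b := (Module.finBasisOfFinrankEq (ZMod p) V hd).equivFun
  have a3 : a ≤ (k + 1) * a := Nat.le_mul_of_pos_left a k.succ_pos
  have li := (phi_li (ZMod p) (Fin d) (a := a) (by rw [ZMod.card]; omega)).map'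
    (LinearEquiv.funCongrLeft (ZMod p) (ZMod p) b.toEquiv).toLinearMap (LinearEquiv.ker _)
  refine ⟨_, inferInstance, _, li, ?_, fun e u v => ?_⟩
  · rw [Module.card_eq_pow_finrank (K := ZMod p), hd, ZMod.card, Fintype.card_fun,
      Fintype.card_fin, Fintype.card_fin]
    have h1 : p ≤ 3 * (k + 1) * (a + 1) := by
      have : 0 < (k + 1) * (a + 1) := by positivity
      rw [mul_assoc]; omega
    calc p ^ d ≤ (3 * (k + 1)) ^ d * (a + 1) ^ d := by rw [← mul_pow]; gcongr
      _ ≤ (3 * (k + 1)) ^ k * (a + 1) ^ d := by gcongr <;> omega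
      _ < _ := by gcongr; omega
  · have := phi_sum (∏ i, (Polynomial.C (b v i) * Polynomial.X + Polynomial.C (b u i)) ^ (e i : ℕ))
      (by
        refine (Polynomial.natDegree_prod_le _ _).trans_lt ((sum_le_card_nsmul _ _ a fun i _ =>
          Polynomial.natDegree_pow_le.trans ?_).trans_lt ?_)
        · exact (Nat.mul_le_mul (Nat.lt_succ_iff.1 (e i).2) Polynomial.natDegree_linear_le).trans
            (mul_one a).le
        · rw [ZMod.card, card_univ, Fintype.card_fin, smul_eq_mul]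
          have : d * a ≤ (k + 1) * a := Nat.mul_le_mul_right _ (by omega)
          omega)
    rw [← this]
    refine sum_congr rfl fun x _ => ?_
    rw [Polynomial.eval_prod]
    show ∏ i, b (u + x • v) i ^ (e i : ℕ) = _
    refine prod_congr rfl fun i _ => ?_
    simp only [map_add, map_smul, Polynomial.eval_pow, Polynomial.eval_add, Polynomial.eval_mul,
      Polynomial.eval_C, Polynomial.eval_X, Pi.add_apply, Pi.smul_apply, smul_eq_mul]
    ring

end Pool.Agent.P.MP_81321e_al
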