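import Pool.Agent.P.MP_81321e_al.BDefs

/-! Shift matrices and their panels. -/

set_option autoImplicit false

namespace Pool.Agent.P.MP_81321e_al.Sh

open Finset

/-- Coordinates of the small ring. -/
abbrev Ix (L : ℕ) := (Fin (L + 2) → Fin 3) × Fin (L + 2) × Fin (L + 2)

/-- Letters. -/
abbrev Lt (L : ℕ) := Fin 3 ⊕ Ix L

/-- Families of matrices. -/
abbrev Rg (K : Type) (L : ℕ) (S : Type) :=
  (Fin (L + 2) → S) → Matrix (Fin (L + 2)) (Fin (L + 2)) K

variable {K : Type} [Field K] {L : ℕ}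

/-- The type of a letter. -/
def ty : Lt L → Bool := Sum.elim (fun i => decide (i = 0)) fun _ => false

/-- A letter of the given type. -/
def ot (b : Bool) : Lt L := .inl (cond b 0 1)

theorem ty_ot (b : Bool) : ty (ot b : Lt L) = b := by cases b <;> rfl

/-- Shift matrices. -/
def N : (Lt L → K) →ₗ[K] Rg K L (Lt L) where
  toFun α σ := Matrix.of fun i i' =>
    if (i' : ℕ) = i + 1 ∧ ty (σ i) ≠ ty (σ i') then α (σ i) else 0
  map_add' α β := by
    ext σ i i'
    simp only [Matrix.of_apply, Pi.add_apply, Matrix.add_apply]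
    split_ifs <;> simp
  map_smul' c α := by
    ext σ i i'
    simp only [Matrix.of_apply, Pi.smul_apply, Matrix.smul_apply, RingHom.id_apply]
    split_ifs <;> simp

theorem N_apply (α : Lt L → K) (σ : Fin (L + 2) → Lt L) (i i' : Fin (L + 2)) : N α σ i i' =
    if (i' : ℕ) = i + 1 ∧ ty (σ i) ≠ ty (σ i') then α (σ i) else 0 := rfl

/-- Supported in `Q`. -/
def Sup (Q : Set (Lt L)) (α : Lt L → K) : Prop := ∀ a, a ∉ Q → α a = 0

/-- All letters of `Q` have the same type. -/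
def Mono (Q : Set (Lt L)) : Prop := ∃ b, ∀ a ∈ Q, ty a = b

theorem Sup.ind (Q : Set (Lt L)) (α : Lt L → K) : Sup Q (Q.indicator α) :=
  fun _ h => Set.indicator_of_notMem h _

theorem Sup.neg {Q : Set (Lt L)} {α : Lt L → K} (h : Sup Q α) : Sup Q (-α) :=
  fun a ha => by rw [Pi.neg_apply, h a ha, neg_zero]

theorem Sup.add {Q : Set (Lt L)} {α β : Lt L → K} (h : Sup Q α) (h' : Sup Q β) :
    Sup Q (α + β) := fun a ha => by rw [Pi.add_apply, h a ha, h' a ha, add_zero]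

theorem Sup.mono {Q Q' : Set (Lt L)} {α : Lt L → K} (h : Sup Q α) (h' : Q ⊆ Q') : Sup Q' α :=
  fun a ha => h a fun hh => ha (h' hh)

theorem NN {Q : Set (Lt L)} (hQ : Mono Q) {α β : Lt L → K} (ha : Sup Q α) (hb : Sup Q β) :
    N α * N β = 0 := by
  obtain ⟨b, hQ⟩ := hQ
  ext σ i j
  rw [Pi.mul_apply, Matrix.mul_apply]
  refine sum_eq_zero fun k _ => ?_
  rw [N_apply, N_apply]
  split_ifs with h1 h2
  · by_cases h3 : σ i ∈ Q
    · rw [hb _ fun h4 => h1.2 ((hQ _ h3).trans (hQ _ h4).symm), mul_zero]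
    · rw [ha _ h3, zero_mul]
  all_goals simp

/-- Linear coordinates. -/
def ρ (x : Rg K L (Lt L)) (a : Lt L) : K := x (fun i => if i = 0 then a else ot (!ty a)) 0 1

/-- Strictly upper triangular families whose linear coordinates vanish on `Q`. -/
def J (K : Type) [Field K] (Q : Set (Lt L)) : Submodule K (Rg K L (Lt L)) where
  carrier := {x | (∀ σ i j, j ≤ i → x σ i j = 0) ∧ ∀ a ∈ Q, ρ x a = 0}
  add_mem' := fun {x y} hx hy => ⟨fun σ i j h => by
      rw [Pi.add_apply, Matrix.add_apply, hx.1 σ i j h, hy.1 σ i j h, add_zero],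
    fun a h => (congrArg₂ (· + ·) (hx.2 a h) (hy.2 a h)).trans (add_zero 0)⟩
  zero_mem' := ⟨fun _ _ _ _ => rfl, fun _ _ => rfl⟩
  smul_mem' := fun c x hx => ⟨fun σ i j h => by
      rw [Pi.smul_apply, Matrix.smul_apply, hx.1 σ i j h, smul_zero],
    fun a h => (congrArg (c * ·) (hx.2 a h)).trans (mul_zero c)⟩

theorem J.up {Q : Set (Lt L)} {x : Rg K L (Lt L)} (h : x ∈ J K Q) : x ∈ J K ∅ :=
  ⟨h.1, fun _ h => h.elim⟩

theorem N_mem (α : Lt L → K) : N α ∈ J K ∅ :=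
  ⟨fun σ i j h => if_neg fun hh => by have := hh.1; have := Fin.le_def.1 h; omega,
    fun _ h => h.elim⟩

theorem ρ_N (α : Lt L → K) : ρ (N α) = α := by
  ext a
  rw [ρ, N_apply, if_pos ⟨rfl, by simp [ty_ot]⟩, if_pos rfl]

theorem mul_z {x y : Rg K L (Lt L)} (hx : x ∈ J K ∅) (hy : y ∈ J K ∅) (σ : Fin (L + 2) → Lt L)
    (i j : Fin (L + 2)) (h : (j : ℕ) ≤ i + 1) : (x * y) σ i j = 0 := by
  rw [Pi.mul_apply, Matrix.mul_apply]
  refine sum_eq_zero fun k _ => ?_
  by_cases hk : k ≤ i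
  · rw [hx.1 σ i k hk, zero_mul]
  · rw [hy.1 σ k j (by rw [Fin.le_def] at hk ⊢; omega), mul_zero]

theorem unit {x : Rg K L (Lt L)} (hx : x ∈ J K ∅) : IsUnit (1 + x) := by
  refine Pi.isUnit_iff.2 fun σ => (Matrix.isUnit_iff_isUnit_det _).2 ?_
  rw [Matrix.det_of_upperTriangular fun i j h => ?_, prod_eq_one fun i _ => ?_]
  · exact isUnit_one
  · simp [hx.1 σ i i le_rfl]
  · have : i ≠ j := ne_of_gt h
    simp [hx.1 σ i j (le_of_lt h), this]

/-- Right multiplication of `1 + x` by `1 + N β`. -/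
def act (x : Rg K L (Lt L)) (β : Lt L → K) : Rg K L (Lt L) := x + N β + x * N β

theorem act_eq (x : Rg K L (Lt L)) (β : Lt L → K) : 1 + act x β = (1 + x) * (1 + N β) := by
  rw [act]; noncomm_ring

theorem act_zero (x : Rg K L (Lt L)) : act x 0 = x := by simp [act]

theorem act_act {Q : Set (Lt L)} (hQ : Mono Q) (x : Rg K L (Lt L)) {α β : Lt L → K}
    (ha : Sup Q α) (hb : Sup Q β) : act (act x α) β = act x (α + β) := by
  simp only [act, map_add, add_mul, mul_add, mul_assoc, NN hQ ha hb, mul_zero]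
  abel

theorem act_mem {x : Rg K L (Lt L)} (hx : x ∈ J K ∅) (β : Lt L → K) : act x β ∈ J K ∅ :=
  add_mem (add_mem hx (N_mem β)) ⟨fun σ i j h => mul_z hx (N_mem β) σ i j
    ((Fin.le_def.1 h).trans (Nat.le_succ _)), fun _ h => h.elim⟩

theorem ρ_act {x : Rg K L (Lt L)} (hx : x ∈ J K ∅) (β : Lt L → K) : ρ (act x β) = ρ x + β := by
  ext a
  exact (congrArg₂ (fun s t => ρ x a + s + t) (congrFun (ρ_N β) a)
    (mul_z hx (N_mem β) _ 0 1 le_rfl)).trans (add_zero _)

/-- The canonical point of the panel. -/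
noncomputable def pan (Q : Set (Lt L)) {Q' : Set (Lt L)} (x : J K Q') : J K Q :=
  ⟨act x (-Q.indicator (ρ x.1)), (act_mem (J.up x.2) _).1, fun a ha => by
    rw [ρ_act (J.up x.2)]; simp [ha]⟩

theorem pan_self {Q : Set (Lt L)} (x : J K Q) : pan Q x = x := by
  refine Subtype.ext ?_
  have : Q.indicator (ρ x.1) = 0 := funext fun a => Set.indicator_apply_eq_zero.2 (x.2.2 a)
  simp only [pan, this, neg_zero, act_zero]

theorem pan_iff {Q Q1 Q2 : Set (Lt L)} (hQ : Mono Q) (x : J K Q1) (y : J K Q2) :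
    pan Q x = pan Q y ↔ ∃ β, Sup Q β ∧ y.1 = act x β := by
  constructor
  · intro h
    refine ⟨_, (Sup.ind Q (ρ x.1)).neg.add (Sup.ind Q (ρ y.1)), ?_⟩
    rw [← act_act hQ _ (Sup.ind Q _).neg (Sup.ind Q _), show act x.1 _ = _ from congrArg (·.1) h,
      pan, act_act hQ _ (Sup.ind Q _).neg (Sup.ind Q _), neg_add_cancel, act_zero]
  · rintro ⟨β, hb, h⟩
    refine Subtype.ext ?_
    simp only [pan]
    rw [h, act_act hQ _ hb (Sup.ind Q _).neg, ρ_act (J.up x.2)]
    congr 1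
    ext a
    by_cases ha : a ∈ Q
    · simp [ha]
    · simp [ha, hb a ha]

theorem pan_pan {Q Q1 Q2 : Set (Lt L)} (hQ : Mono Q) (h : Q1 ⊆ Q) (x : J K Q2) :
    pan Q (pan Q1 x) = pan Q x :=
  ((pan_iff hQ _ _).2 ⟨_, (Sup.ind Q1 _).neg.mono h, rfl⟩).symm

theorem gal (m : ℕ) (ω : ℕ → Rg K L (Lt L)) (β : ℕ → Lt L → K) (a : ℕ → Lt L) (h0 : ω 0 ∈ J K ∅)
    (hm : 0 < m) (hL : m ≤ L) (h1 : ∀ i, i < m → ω (i + 1) = act (ω i) (β i) ∧ β i (a i) ≠ 0 ∧
      ty (a i) ≠ ty (a (i + 1))) : ω m ≠ ω 0 := by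
  obtain ⟨g, hg⟩ := (unit h0).exists_left_inv
  have key : ∀ k, k ≤ m → ∀ j : Fin (L + 2), (k < j → (g * (1 + ω k)) (fun i => a i) 0 j = 0) ∧
      (j = k → (g * (1 + ω k)) (fun i => a i) 0 j ≠ 0) := by
    intro k
    induction k with
    | zero =>
      intro _ j
      rw [hg]
      exact ⟨fun h => Matrix.one_apply_ne (Fin.pos_iff_ne_zero.1 h).symm, fun h => by
        rw [show j = 0 from Fin.ext h]; simp⟩
    | succ k ih =>
      intro hk j
      obtain ⟨e1, e2, e3⟩ := h1 k hk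
      have ih := ih (by omega)
      rw [e1, act_eq, ← mul_assoc, mul_add _ 1, mul_one, Pi.add_apply, Matrix.add_apply,
        Pi.mul_apply _ (N _), Matrix.mul_apply]
      have h2 : ∀ i : Fin (L + 2), k < j → (i : ℕ) ≠ k ∨ (j : ℕ) ≠ k + 1 →
          (g * (1 + ω k)) (fun i => a i) 0 i * N (β k) (fun i => a i) i j = 0 := fun i h h' => by
        by_cases hi : k < i
        · rw [(ih i).1 hi, zero_mul]
        · rw [N_apply, if_neg fun hh => by have := hh.1; omega, mul_zero]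
      refine ⟨fun h => ?_, fun h => ?_⟩
      · rw [(ih j).1 (by omega), zero_add, sum_eq_zero fun i _ => h2 i (by omega) (by omega)]
      · rw [(ih j).1 (by omega), zero_add, sum_eq_single_of_mem ⟨k, by omega⟩ (mem_univ _)
          fun i _ hi => h2 i (by omega) (Or.inl fun hh => hi (Fin.ext hh)), N_apply,
          if_pos ⟨h, by simpa only [h] using e3⟩]
        exact mul_ne_zero ((ih _).2 rfl) e2
  intro h
  refine (key m le_rfl ⟨m, by omega⟩).2 rfl ?_
  rw [h]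
  exact (key 0 m.zero_le _).1 hm

end Pool.Agent.P.MP_81321e_al.Sh
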