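import Mathlib

/-! From unbounded levels of direct finiteness to every level, by Brandt monoids. -/

set_option autoImplicit false

namespace Pool.Agent.P.MP_81321e_al

open MonoidAlgebra

/-- Direct finiteness. -/
def DF (A : Type) [Monoid A] : Prop := ∀ a b : A, a * b = 1 → b * a = 1

theorem DF.inj {A B F : Type} [Monoid A] [Monoid B] [FunLike F A B] [MonoidHomClass F A B] (f : F)
    (hf : Function.Injective f) (h : DF B) : DF A := fun a b hab =>
  hf (by rw [map_mul, map_one]; exact h _ _ (by rw [← map_mul, hab, map_one]))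

variable {R : Type} [Ring R]

theorem DF.mono {m n : Type} [Fintype m] [Fintype n] [DecidableEq m] [DecidableEq n]
    (hmn : Fintype.card m ≤ Fintype.card n) (h : DF (Matrix n n R)) : DF (Matrix m m R) := by
  have e : m ⊕ Fin (Fintype.card n - Fintype.card m) ≃ n :=
    Fintype.equivOfCardEq (by simp [hmn])
  have h1 := h.inj (Matrix.reindexRingEquiv R e) (Matrix.reindexRingEquiv R e).injective
  intro a b hab
  have := h1 (Matrix.fromBlocks a 0 0 1) (Matrix.fromBlocks b 0 0 1)
    (by simp [Matrix.fromBlocks_multiply, hab])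
  rw [Matrix.fromBlocks_multiply, ← Matrix.fromBlocks_one, Matrix.fromBlocks_inj] at this
  simpa using this.1

theorem df_prod {K n : Type} [CommRing K] [Fintype n] [DecidableEq n] :
    DF (Matrix n n (R × K × K)) ↔ DF (Matrix n n R) := by
  constructor
  · intro h a b hab
    have := h (Matrix.of fun i j => (a i j, (1 : Matrix n n (K × K)) i j))
      (Matrix.of fun i j => (b i j, (1 : Matrix n n (K × K)) i j)) (by
        ext i j : 1
        refine Prod.ext ?_ ?_
        · simpa [Matrix.mul_apply, Prod.fst_sum, Matrix.one_apply, apply_ite Prod.fst] using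
            congrFun (congrFun hab i) j
        · simp [Matrix.mul_apply, Prod.snd_sum, Matrix.one_apply, apply_ite Prod.snd])
    ext i j
    simpa [Matrix.mul_apply, Prod.fst_sum, Matrix.one_apply, apply_ite Prod.fst] using
      congrArg Prod.fst (congrFun (congrFun this i) j)
  · intro h a b hab
    have h1 := h _ _ (by rw [← map_mul, hab, map_one] :
      (RingHom.fst R (K × K)).mapMatrix a * (RingHom.fst R (K × K)).mapMatrix b = 1)
    have h2 := mul_eq_one_comm.1 (by rw [← map_mul, hab, map_one] :
      (RingHom.snd R (K × K)).mapMatrix a * (RingHom.snd R (K × K)).mapMatrix b = 1)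
    rw [← map_mul] at h1 h2
    ext i j : 1
    refine Prod.ext ?_ ?_
    · simpa [Matrix.one_apply, apply_ite Prod.fst] using congrFun (congrFun h1 i) j
    · simpa [Matrix.one_apply, apply_ite Prod.snd] using congrFun (congrFun h2 i) j

/-- An algebra with a multiplicative basis is a monoid algebra. -/
theorem of_basis {K S I : Type} [Field K] [Ring S] [Algebra K S] (v : I → S)
    (h1 : LinearIndependent K v) (h2 : Submodule.span K (Set.range v) = ⊤) (h3 : 1 ∈ Set.range v)
    (h4 : ∀ i j, v i * v j ∈ Set.range v) :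
    ∃ (M : Type) (_ : Monoid M), Nonempty (MonoidAlgebra K M ≃+* S) := by
  let M : Submonoid S := ⟨⟨Set.range v, by rintro _ _ ⟨i, rfl⟩ ⟨j, rfl⟩; exact h4 i j⟩, h3⟩
  have e : ∀ x : MonoidAlgebra K M, lift K S M M.subtype x =
      Finsupp.linearCombination K (fun m : Set.range v => (m : S)) x.coeff := fun x => by
    rw [lift_apply, Finsupp.linearCombination_apply]; rfl
  refine ⟨M, inferInstance, ⟨RingEquiv.ofBijective (lift K S M M.subtype).toRingHom ⟨?_, ?_⟩⟩⟩
  · intro x y hxy
    exact coeff_injective (h1.linearIndepOn_id ((e x).symm.trans (hxy.trans (e y))))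
  · intro s
    have : s ∈ LinearMap.range (Finsupp.linearCombination K fun m : Set.range v => (m : S)) := by
      rw [Finsupp.range_linearCombination, Subtype.range_coe, h2]; trivial
    obtain ⟨x, hx⟩ := this
    exact ⟨ofCoeff x, (e _).trans hx⟩

theorem brandt (K H : Type) [Field K] [Monoid H] (k : ℕ) : ∃ (M : Type) (_ : Monoid M),
    Nonempty (MonoidAlgebra K M ≃+* Matrix (Fin k) (Fin k) (MonoidAlgebra K H) × K × K) := by
  classical
  let u : Fin k × Fin k × H → Matrix (Fin k) (Fin k) (MonoidAlgebra K H) :=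
    fun p => Matrix.single p.1 p.2.1 (single p.2.2 1)
  let v : Option (Option (Fin k × Fin k × H)) → Matrix (Fin k) (Fin k) (MonoidAlgebra K H) × K × K :=
    fun o => o.elim 1 fun o => o.elim (0, 0, 1) fun p => (u p, 0, 1)
  have hu : LinearIndependent K u := by
    rw [linearIndependent_iff']
    rintro s c h ⟨i, j, g⟩ hp
    have := congrArg (fun A : Matrix (Fin k) (Fin k) (MonoidAlgebra K H) => (A i j).coeff g) h
    simp only [Matrix.sum_apply, coeff_sum, Finsupp.coe_finsetSum, Finset.sum_apply] at this
    rw [Finset.sum_eq_single_of_mem _ hp] at this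
    · simpa [u] using this
    · rintro ⟨i', j', g'⟩ - hne
      by_cases h1 : i' = i ∧ j' = j
      · obtain ⟨rfl, rfl⟩ := h1
        have : g' ≠ g := fun h => hne (by rw [h])
        simp [u, this]
      · simp [u, h1]
  refine of_basis v ?_ ?_ ⟨none, rfl⟩ ?_
  · refine linearIndependent_option.2 ⟨linearIndependent_option.2
      ⟨LinearIndependent.of_comp (LinearMap.fst K _ _) hu, fun h => ?_⟩, fun h => ?_⟩
    · obtain ⟨c, hc⟩ := Finsupp.mem_span_range_iff_exists_finsupp.1 h
      have h1 : c = 0 := linearIndependent_iff.1 hu c (by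
        simpa [v, Finsupp.sum, Prod.fst_sum, Finsupp.linearCombination_apply] using
          congrArg Prod.fst hc)
      simpa [h1, v] using congrArg (fun x => x.2.2) hc
    · have h1 : Submodule.span K (Set.range (v ∘ some)) ≤
          LinearMap.ker (LinearMap.fst K K K ∘ₗ LinearMap.snd K _ _) :=
        Submodule.span_le.2 (by rintro _ ⟨_ | p, rfl⟩ <;> simp [v])
      simpa [v] using h1 h
  · set W := Submodule.span K (Set.range v)
    have m0 : ∀ o, v o ∈ W := fun o => Submodule.subset_span ⟨o, rfl⟩
    have m1 : ∀ A : Matrix (Fin k) (Fin k) (MonoidAlgebra K H), (A, (0 : K × K)) ∈ W := by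
      intro A
      have m2 : ∀ i j (a : MonoidAlgebra K H), (Matrix.single i j a, (0 : K × K)) ∈ W := by
        intro i j a
        induction a using MonoidAlgebra.induction_linear with
        | zero => rw [Matrix.single_zero]; exact W.zero_mem
        | add a b ha hb => simpa [Matrix.single_add] using W.add_mem ha hb
        | single g r =>
          simpa [v, u] using W.smul_mem r (W.sub_mem (m0 (some (some (i, j, g)))) (m0 (some none)))
      induction A using Matrix.induction_on' with
      | h_zero => exact W.zero_mem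
      | h_add a b ha hb => simpa using W.add_mem ha hb
      | h_std_basis i j a => exact m2 i j a
    rw [eq_top_iff]
    rintro ⟨A, s, t⟩ -
    have := W.add_mem (W.add_mem (m1 (A - s • 1)) (W.smul_mem s (m0 none)))
      (W.smul_mem (t - s) (m0 (some none)))
    convert this using 1
    ext : 1
    · simp [v]
    · ext <;> simp [v]
  · rintro (_ | a) b
    · exact ⟨b, (one_mul _).symm⟩
    rcases b with _ | b
    · exact ⟨some a, (mul_one _).symm⟩
    rcases a with _ | ⟨i, j, g⟩
    · exact ⟨some none, by cases b <;> simp [v]⟩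
    rcases b with _ | ⟨i', j', g'⟩
    · exact ⟨some none, by simp [v]⟩
    by_cases h : j = i'
    · exact ⟨some (some (i, j', g * g')), by simp [v, u, h, single_mul_single]⟩
    · exact ⟨some none, by simp [v, u, h]⟩

theorem levels (h : ∀ n : ℕ, ∃ (K : Type) (_ : Field K) (H : Type) (_ : Monoid H),
      DF (Matrix (Fin n) (Fin n) (MonoidAlgebra K H)) ∧
      ∃ m, ¬ DF (Matrix (Fin m) (Fin m) (MonoidAlgebra K H))) (d : ℕ) (hd : 1 ≤ d) :
    ∃ (M : Type) (_ : Monoid M) (K : Type) (_ : Field K),
      DF (Matrix (Fin d) (Fin d) (MonoidAlgebra K M)) ∧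
      ¬ DF (Matrix (Fin (d + 1)) (Fin (d + 1)) (MonoidAlgebra K M)) := by
  classical
  obtain ⟨K, _, H, _, h1, h2⟩ := h (d * d)
  have a1 := Nat.find_spec h2
  have a2 := fun m => Nat.find_min h2 (m := m)
  generalize Nat.find h2 = m at a1 a2
  have a3 : d * d < m := by
    by_contra hc
    exact a1 (h1.mono (by simpa using hc))
  obtain ⟨k, hk⟩ : ∃ k, k = (m - 1) / d := ⟨_, rfl⟩
  have b1 : d * k ≤ m - 1 := hk ▸ Nat.mul_div_le _ _
  have b2 : d ≤ k := hk ▸ (Nat.le_div_iff_mul_le hd).2 (by omega)
  have b3 : m - 1 < d * (k + 1) := hk ▸ Nat.lt_mul_div_succ _ hd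
  obtain ⟨M, _, ⟨e⟩⟩ := brandt K H k
  refine ⟨M, inferInstance, K, inferInstance, DF.inj e.mapMatrix e.mapMatrix.injective
    (df_prod.2 (DF.inj (Matrix.compRingEquiv _ _ _) (RingEquiv.injective _)
      ((not_not.1 (a2 (m - 1) (by omega))).mono (by simpa using b1)))), fun hc => a1 ?_⟩
  refine (DF.inj (Matrix.compRingEquiv _ _ _).symm (RingEquiv.injective _)
    (df_prod.1 (hc.inj e.mapMatrix.symm (RingEquiv.injective _)))).mono ?_
  simp only [Fintype.card_fin, Fintype.card_prod]
  rw [Nat.mul_succ] at b3
  rw [Nat.succ_mul]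
  omega

end Pool.Agent.P.MP_81321e_al
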