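import Mathlib

set_option autoImplicit false

namespace Pool.Agent.P.MP_81321e_al

open MonoidAlgebra

/-- Restriction of scalars along a finite free algebra. -/
theorem stablyFinite_of_finite (k F M : Type*) [Field k] [Field F] [Algebra k F]
    [Module.Finite k F] [Monoid M] [IsStablyFiniteRing (MonoidAlgebra k M)] :
    IsStablyFiniteRing (MonoidAlgebra F M) := by
  classical
  let b := Module.finBasis k F
  let f : F →+* Matrix (Fin (Module.finrank k F)) (Fin (Module.finrank k F)) (MonoidAlgebra k M) :=
    (RingHom.mapMatrix (singleOneRingHom (R := k) (M := M))).comp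
      (Algebra.leftMulMatrix b).toRingHom
  let g : M →* Matrix (Fin (Module.finrank k F)) (Fin (Module.finrank k F)) (MonoidAlgebra k M) :=
    (Matrix.scalar _).toMonoidHom.comp (MonoidAlgebra.of k M)
  have hc : ∀ x y, Commute (f x) (g y) := by
    intro x y
    ext i j : 2
    simp [f, g, Matrix.mul_diagonal, Matrix.diagonal_mul, single_mul_single]
  let φ := liftNCRingHom f g hc
  have hφ : ∀ x i j m, (φ x i j).coeff m = Algebra.leftMulMatrix b (x.coeff m) i j := by
    intro x i j m
    induction x using MonoidAlgebra.induction_linear with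
    | zero => simp
    | add x y hx hy => simp [hx, hy]
    | single m' c =>
      simp only [φ, liftNCRingHom_single]
      by_cases h : m' = m
      · subst h
        simp [f, g, Matrix.mul_diagonal, single_mul_single]
      · simp [f, g, Matrix.mul_diagonal, single_mul_single, Finsupp.single_eq_of_ne' h]
  refine IsStablyFiniteRing.of_injective φ ?_
  rw [injective_iff_map_eq_zero]
  intro x hx
  ext m
  apply Algebra.leftMulMatrix_injective b
  ext i j
  rw [← hφ, hx]
  simp

/-- Stable finiteness of monoid algebras passes to field extensions. -/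
theorem stablyFinite_of_ext (k K M : Type*) [Field k] [Field K] [Algebra k K] [Monoid M]
    [IsStablyFiniteRing (MonoidAlgebra k M)] : IsStablyFiniteRing (MonoidAlgebra K M) := by
  classical
  refine ⟨fun n => ⟨fun {X Y} h => ?_⟩⟩
  by_contra h'
  obtain ⟨i0, j0, m0, hc⟩ : ∃ i j m, ((Y * X - 1) i j).coeff m ≠ 0 := by
    by_contra hc
    push Not at hc
    apply h'
    rw [← sub_eq_zero]
    ext i j m
    simpa using hc i j m
  set c := ((Y * X - 1) i0 j0).coeff m0 with hcdef
  let s : Finset K := insert c⁻¹ (Finset.univ.biUnion fun ij : Fin n × Fin n =>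
    (X ij.1 ij.2).coeff.frange ∪ (Y ij.1 ij.2).coeff.frange)
  let A : Subalgebra k K := Algebra.adjoin k (s : Set K)
  have hft : Algebra.FiniteType k A :=
    (Subalgebra.fg_iff_finiteType _).1 (Subalgebra.fg_adjoin_finset s)
  let ι : A →+* K := A.val.toRingHom
  have hι : Function.Injective (mapRingHom M ι) :=
    MonoidAlgebra.map_injective ι.toAddMonoidHom Subtype.val_injective
  have hdesc : ∀ x : MonoidAlgebra K M, x.coeff.frange ⊆ s → ∃ y, mapRingHom M ι y = x := by
    intro x hx
    have : x ∈ Set.range (MonoidAlgebra.map (M := M) ι.toAddMonoidHom) := by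
      rw [range_map]
      intro m
      by_cases h0 : x.coeff m = 0
      · exact ⟨0, by rw [h0]; simp⟩
      · exact ⟨⟨x.coeff m, Algebra.subset_adjoin (hx (Finsupp.mem_frange.2 ⟨h0, m, rfl⟩))⟩, rfl⟩
    exact this
  have hX : ∀ i j, ∃ y, mapRingHom M ι y = X i j := fun i j => hdesc _ fun z hz =>
    Finset.mem_insert_of_mem (Finset.mem_biUnion.2 ⟨(i, j), Finset.mem_univ _,
      Finset.mem_union_left _ hz⟩)
  have hY : ∀ i j, ∃ y, mapRingHom M ι y = Y i j := fun i j => hdesc _ fun z hz =>
    Finset.mem_insert_of_mem (Finset.mem_biUnion.2 ⟨(i, j), Finset.mem_univ _,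
      Finset.mem_union_right _ hz⟩)
  choose X' hX' using hX
  choose Y' hY' using hY
  have eX : (mapRingHom M ι).mapMatrix (Matrix.of X') = X := Matrix.ext fun i j => hX' i j
  have eY : (mapRingHom M ι).mapMatrix (Matrix.of Y') = Y := Matrix.ext fun i j => hY' i j
  have h1 : Matrix.of X' * Matrix.of Y' = 1 := by
    apply Matrix.map_injective hι
    change (mapRingHom M ι).mapMatrix _ = (mapRingHom M ι).mapMatrix _
    rw [map_mul, map_one, eX, eY, h]
  obtain ⟨𝔪, h𝔪⟩ := Ideal.exists_maximal A
  let _ : Field (A ⧸ 𝔪) := Ideal.Quotient.field 𝔪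
  have : Module.Finite k (A ⧸ 𝔪) := finite_of_finite_type_of_isJacobsonRing k (A ⧸ 𝔪)
  have := stablyFinite_of_finite k (A ⧸ 𝔪) M
  let π := (mapRingHom M (Ideal.Quotient.mk 𝔪)).mapMatrix (m := Fin n)
  have h2 : π (Matrix.of X') * π (Matrix.of Y') = 1 := by rw [← map_mul, h1, map_one]
  have h3 : π (Matrix.of Y' * Matrix.of X' - 1) = 0 := by
    rw [map_sub, map_mul, map_one, IsDedekindFiniteMonoid.mul_eq_one_symm h2, sub_self]
  set c' : A := ((Matrix.of Y' * Matrix.of X' - 1) i0 j0).coeff m0 with hc'
  have h4 : Ideal.Quotient.mk 𝔪 c' = 0 := by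
    have := congrArg (fun Z => (Z i0 j0).coeff m0) h3
    simpa [π, hc'] using this
  have h5 : ι c' = c := by
    rw [hcdef, ← eX, ← eY, ← map_mul, ← map_one (mapRingHom M ι).mapMatrix, ← map_sub]
    simp [hc']
  let d : A := ⟨c⁻¹, Algebra.subset_adjoin (by simp [s])⟩
  have h6 : c' * d = 1 := by
    apply Subtype.val_injective
    change ι c' * c⁻¹ = 1
    rw [h5, mul_inv_cancel₀ hc]
  have h7 := congrArg (Ideal.Quotient.mk 𝔪) h6
  rw [map_mul, h4, zero_mul, map_one] at h7
  exact zero_ne_one h7

end Pool.Agent.P.MP_81321e_al
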