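import Pool.Agent.P.MP_81321e_al.ChTw
import Pool.Agent.P.MP_81321e_al.BCS
import Pool.Agent.P.MP_81321e_al.BAlg
import Pool.Agent.P.MP_81321e_al.BPhi
import Pool.Agent.P.MP_81321e_al.Descent

/-! The rank argument and the division algorithm in every positive characteristic. -/

set_option autoImplicit false

namespace Pool.Agent.P.MP_81321e_al.Ch

open Finset MonoidAlgebra Pool.Agent.P.MP_4b59b0_al Pool.Agent.P.MP_e79ed6_al

/-- Reed-Muller codes over a large finite field. -/
theorem phic (k : ℕ) (K : Type) [Field K] [Fintype K]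
    (hp : (3 * (k + 1)) ^ k + 3 ≤ Fintype.card K) (V : Type) [AddCommGroup V] [Module K V]
    [Fintype V] (hV : Module.finrank K V ≤ k) :
    ∃ (I : Type) (_ : Fintype I) (f : I → V → K), LinearIndependent K f ∧
      Fintype.card V < Fintype.card K * Fintype.card I ∧
      ∀ i (u v : V), ∑ x : K, f i (u + x • v) = 0 := by
  classical
  obtain ⟨p, hK⟩ : ∃ p, Fintype.card K = p := ⟨_, rfl⟩
  rw [hK] at hp
  have p3 : 3 ≤ p := le_trans (Nat.le_add_left _ _) hp
  obtain ⟨a, ha⟩ : ∃ a, a = (p - 2) / (k + 1) := ⟨_, rfl⟩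
  have a1 : (k + 1) * a ≤ p - 2 := ha ▸ Nat.mul_div_le _ _
  have a2 : p - 2 < (k + 1) * (a + 1) := ha ▸ Nat.lt_mul_div_succ _ k.succ_pos
  obtain ⟨d, hd⟩ : ∃ d, Module.finrank K V = d := ⟨_, rfl⟩
  let b := (Module.finBasisOfFinrankEq K V hd).equivFun
  have a3 : a ≤ (k + 1) * a := Nat.le_mul_of_pos_left a k.succ_pos
  have li := (phi_li K (Fin d) (a := a) (by rw [hK]; omega)).map'
    (LinearEquiv.funCongrLeft K K b.toEquiv).toLinearMap (LinearEquiv.ker _)
  refine ⟨_, inferInstance, _, li, ?_, fun e u v => ?_⟩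
  · rw [Module.card_eq_pow_finrank (K := K), hd, hK, Fintype.card_fun,
      Fintype.card_fin, Fintype.card_fin]
    have h1 : p ≤ 3 * (k + 1) * (a + 1) := by
      have : 0 < (k + 1) * (a + 1) := by positivity
      rw [mul_assoc]; omega
    calc p ^ d ≤ (3 * (k + 1)) ^ d * (a + 1) ^ d := by rw [← mul_pow]; gcongr
      _ ≤ (3 * (k + 1)) ^ k * (a + 1) ^ d := by gcongr <;> omega
      _ < _ := by gcongr; omega
  · have := phi_sum (∏ i, (Polynomial.C (b v i) * Polynomial.X + Polynomial.C (b u i)) ^ (e i : ℕ))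
      (by
        refine (Polynomial.natDegree_prod_le _ _).trans_lt ((sum_le_card_nsmul _ _ a fun i _ =>
          Polynomial.natDegree_pow_le.trans ?_).trans_lt ?_)
        · exact (Nat.mul_le_mul (Nat.lt_succ_iff.1 (e i).2) Polynomial.natDegree_linear_le).trans
            (mul_one a).le
        · rw [hK, card_univ, Fintype.card_fin, smul_eq_mul]
          have : d * a ≤ (k + 1) * a := Nat.mul_le_mul_right _ (by omega)
          omega)
    rw [← this]
    refine sum_congr rfl fun x _ => ?_
    rw [Polynomial.eval_prod]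
    show ∏ i, b (u + x • v) i ^ (e i : ℕ) = _
    refine prod_congr rfl fun i _ => ?_
    simp only [map_add, map_smul, Polynomial.eval_pow, Polynomial.eval_add, Polynomial.eval_mul,
      Polynomial.eval_C, Polynomial.eval_X, Pi.add_apply, Pi.smul_apply, smul_eq_mul]
    ring

open Sh in
/-- Chamber systems in characteristic `p`. -/
theorem csc (p L : ℕ) [Fact p.Prime] : ∃ (K Ω A B C E R I : Type) (_ : Field K)
    (_ : Algebra (ZMod p) K) (_ : Fintype Ω) (_ : Fintype E) (_ : Fintype I) (_ : DecidableEq B)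
    (_ : Finite A) (_ : Finite B) (_ : Finite C), Nonempty (CS K Ω A B C E R I L) := by
  classical
  obtain ⟨k, hk⟩ : ∃ k, k = Fintype.card (Fin (L + 2) → Lt L) * ((L + 2) * (L + 2)) := ⟨_, rfl⟩
  obtain ⟨n, hn⟩ : ∃ n, n = (3 * (k + 1)) ^ k + 3 := ⟨_, rfl⟩
  let K := GaloisField p n
  let _ : Fintype K := Fintype.ofFinite K
  let _ : ∀ Q : Set (Lt L), Fintype (J K Q) := fun Q => Fintype.ofFinite _
  obtain ⟨I, _, f, h1, h2, h3⟩ := phic k K (by
      rw [← Nat.card_eq_fintype_card, GaloisField.card p n (by omega), ← hn]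
      exact (Nat.lt_pow_self (Fact.out : p.Prime).one_lt).le)
    (J K (QA : Set (Lt L))) ((Submodule.finrank_le _).trans (by
      simp [hk, Module.finrank_pi_fintype, Module.finrank_matrix]))
  exact ⟨K, J K ∅, J K QA, J K (Q1 0), J K (Q1 1), J K (QA ∪ Q1 1), _, I, _, inferInstance, _, _,
    _, _, inferInstance, inferInstance, inferInstance,
    ⟨⟨pan _, pan _, pan _, pan _, pan _, fun ω => (pan_pan monoE Set.subset_union_left ω).trans
      (pan_pan monoE Set.subset_union_right ω).symm, grid, gal', fun x => res x.1,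
      res_eq (by decide), res_eq (by decide), sp, pan_sp, res_sp, f, h1,
      Nat.lt_of_mul_lt_mul_left (card_le.trans_lt h2), fun i => sum_line _ (h3 i)⟩⟩⟩

/-- The rank condition fails in a central corner. -/
theorem algc {K Ω A B C E R I : Type} [Field K] [Fintype Ω] [Fintype E] [Fintype I]
    [DecidableEq B] {L : ℕ} (c : CS K Ω A B C E R I L) {H : Type} [Group H] (z : H) (s : Ω → H)
    (gA : A → H) (h : B → H) (gC : C → H) (e w : MonoidAlgebra K H) (he : e * e = e)
    (hc : ∀ x, Commute e x) (h0 : e ≠ 0) (hw : w * (single z 1 - 1) = e)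
    (s1 : ∀ a, s (c.sp a) = z) (s2 : ∀ ω, c.sp (c.pA ω) ≠ ω → s ω = 1)
    (rel : ∀ ω, h (c.pB ω) * gA (c.pA ω) = gC (c.pC ω) * s ω) : NSF (MonoidAlgebra K H) := by
  classical
  have : Fintype A := Fintype.ofInjective c.sp (Function.LeftInverse.injective c.pA_sp)
  let T := (Matrix.of c.f).mulVecLin
  have hT : Fintype.card I + Module.finrank K (LinearMap.ker T) = Fintype.card A := by
    have e1 := T.finrank_range_add_finrank_ker
    have e2 : (Matrix.of c.f).rank = Fintype.card I := LinearIndependent.rank_matrix c.ind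
    rw [Module.finrank_fintype_fun_eq_card] at e1
    rw [← e2]; exact e1
  let b := Module.finBasis K (LinearMap.ker T)
  let ψ : (A → K) →ₗ[K] A → MonoidAlgebra K H := LinearMap.pi fun a =>
    LinearMap.toSpanSingleton K _ (single (gA a) 1) ∘ₗ LinearMap.proj a
  let V : Matrix (Fin (Module.finrank K (LinearMap.ker T)) ⊕ E) A (MonoidAlgebra K H) :=
    Matrix.of (Sum.elim (fun k => ψ (b k)) fun e a => if c.eA a = e then 1 else 0)
  let N := Submodule.span (MonoidAlgebra K H) (Set.range V.row)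
  have m1 : ∀ w ∈ LinearMap.ker T, ψ w ∈ N := fun w hw => by
    have := congrArg (fun x : LinearMap.ker T => ψ x) (b.sum_repr ⟨w, hw⟩)
    simp only [Submodule.coe_sum, Submodule.coe_smul, map_sum, map_smul] at this
    rw [← this]
    exact N.sum_mem fun k _ => N.smul_of_tower_mem _ (Submodule.subset_span ⟨.inl k, rfl⟩)
  have m2 : ∀ a₀, (Pi.single a₀ (single z 1 - 1) : A → MonoidAlgebra K H) ∈ N := fun a₀ => by
    have e1 := sat_mem N c.pB (univ.filter fun ω => c.res ω = c.res (c.sp a₀))
      (fun ω ω' h1 h2 => by simpa [← c.res_B _ _ h1] using h2)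
      (fun ω => Pi.single (c.pA ω) (single (gA (c.pA ω)) 1)) (fun b => single (h b) 1) fun ω₀ => by
        have := m1 (∑ ω ∈ univ.filter (fun ω => c.pB ω = c.pB ω₀), Pi.single (c.pA ω) 1) (by
          rw [LinearMap.mem_ker, map_sum]
          funext i
          simpa [T] using c.sum i (c.pB ω₀))
        rw [map_sum] at this
        refine (N.mem_carrier.1 (Set.mem_of_eq_of_mem (sum_congr rfl fun ω _ => ?_) this))
        funext a
        by_cases ha : a = c.pA ω <;> simp [ψ, ha]
    have e2 := sat_mem N c.pC (univ.filter fun ω => c.res ω = c.res (c.sp a₀))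
      (fun ω ω' h1 h2 => by simpa [← c.res_C _ _ h1] using h2)
      (fun ω => Pi.single (c.pA ω) 1) (fun x => single (gC x) 1) fun ω₀ => by
        have : V.row (.inr (c.eC (c.pC ω₀))) ∈ N := Submodule.subset_span ⟨_, rfl⟩
        refine (N.mem_carrier.1 (Set.mem_of_eq_of_mem (Eq.symm ?_) this))
        funext a
        simp only [V, Matrix.row_apply, Matrix.of_apply, Sum.elim_inr, Finset.sum_apply]
        split_ifs with ha
        · obtain ⟨ω, ⟨h1, h2⟩, h3⟩ := c.grid ω₀ a ha
          rw [sum_eq_single_of_mem ω (by simpa using h1), h2, Pi.single_eq_same]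
          intro ω' h4 h5
          exact Pi.single_eq_of_ne (fun h6 => h5 (h3 ω' ⟨by simpa using h4, h6.symm⟩)) _
        · refine (sum_eq_zero fun ω h4 => Pi.single_eq_of_ne (fun h6 => ha ?_) _).symm
          rw [h6, c.eAC, (mem_filter.1 h4).2]
    have e3 := N.smul_mem (single (gC (c.pC (c.sp a₀)))⁻¹ 1) (N.sub_mem e1 e2)
    rw [← sum_sub_distrib, sum_eq_single_of_mem (c.sp a₀) (by simp)] at e3
    · have e4 := rel (c.sp a₀)
      rw [c.pA_sp, s1] at e4
      simpa [← Pi.single_smul, ← Pi.single_sub, single_mul_single, e4, c.pA_sp, mul_sub,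
        ← one_def] using e3
    · intro ω h1 h3
      have : s ω = 1 := s2 ω fun h4 => h3 (by
        rw [← h4, c.res_sp (c.pA ω) a₀ (by rw [h4]; exact (mem_filter.1 h1).2)])
      simp [← Pi.single_smul, single_mul_single, rel, this]
  have m3 := fun a₀ => (Submodule.mem_span_range_iff_exists_fun _).1 (N.smul_mem w (m2 a₀))
  choose M hM using m3
  refine nsf_of_rank e he hc h0 ?_ (Matrix.of M) V ?_
  · have := c.card
    simp only [Fintype.card_sum, Fintype.card_fin]
    omega
  · ext a a' : 1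
    have := congrFun (hM a) a'
    rw [Finset.sum_apply] at this
    refine this.trans ?_
    by_cases ha : a = a'
    · simp [ha, hw]
    · simp [ha, Ne.symm ha]

section

variable (K : Type) [Field K] {S Z : Type} [Ring S] [Algebra K S] [Group Z] [Fintype Z]
  (o : Z →* S)

/-- The mean over a finite group. -/
noncomputable def av : S := (Fintype.card Z : K)⁻¹ • ∑ c, o c

theorem mul_av (c : Z) : o c * av K o = av K o := by
  rw [av, mul_smul_comm, mul_sum, ← Equiv.sum_comp (Equiv.mulLeft c) o]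
  simp

variable {K o}

theorem av_abs (hl : (Fintype.card Z : K) ≠ 0) {u : S} (h : ∀ c, o c * u = u) :
    av K o * u = u := by
  simp [av, sum_mul, h, ← Nat.cast_smul_eq_nsmul K, smul_smul, hl]

theorem av_idem (hl : (Fintype.card Z : K) ≠ 0) : av K o * av K o = av K o :=
  av_abs hl (mul_av K o)

theorem av_comm {u : S} (h : ∀ c, Commute (o c) u) : Commute (av K o) u :=
  (Commute.sum_left _ _ _ fun c _ => h c).smul_left _

theorem exists_w (hl : (Fintype.card Z : K) ≠ 0) {z : Z} (hz : ∀ c, ∃ n : ℕ, z ^ n = c) :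
    ∃ w, w * (o z - 1) = 1 - av K o := by
  have h : ∀ c, ∃ w, w * (o z - 1) = o c - 1 := fun c => by
    obtain ⟨n, rfl⟩ := hz c
    exact ⟨_, by rw [o.map_pow]; exact geom_sum_mul _ _⟩
  choose w hw using h
  refine ⟨-(Fintype.card Z : K)⁻¹ • ∑ c, w c, ?_⟩
  rw [smul_mul_assoc, sum_mul, sum_congr rfl fun c _ => hw c, sum_sub_distrib, av, sum_const,
    card_univ, ← Nat.cast_smul_eq_nsmul K, neg_smul, smul_sub, smul_smul, inv_mul_cancel₀ hl,
    one_smul, neg_sub]

end

theorem av_ne {K Z H : Type} [Field K] [Group Z] [Fintype Z] [Nontrivial Z] [Group H] (ι : Z →* H)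
    (hι : Function.Injective ι) (hl : (Fintype.card Z : K) ≠ 0) :
    1 - av K ((of K H).comp ι) ≠ 0 := fun h => by
  classical
  obtain ⟨z, hz⟩ := exists_ne (1 : Z)
  have h1 : (1 : H) ≠ ι z := fun h => hz (hι (by rw [← h, map_one]))
  simpa [av, one_def, Finsupp.single_apply, hι.eq_iff, h1, hl] using
    congrArg (fun x => x.coeff (ι z)) h

/-- Large displacement off a finite central subgroup gives direct finiteness. -/
theorem partc {K H V Z : Type} [Field K] [IsAlgClosed K] [Group H] [MulAction H V] {X : Sp V}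
    [CommGroup Z] [Fintype Z] (hl : (Fintype.card Z : K) ≠ 0) (n δ : ℕ) (ι : Z →* H)
    (hc : ∀ g c, g * ι c = ι c * g) (iso : X.Iso H) (hyp : X.Hyp δ) (o : V)
    (mv : ∀ g, g ∉ ι.range → X.Mv g ((2 * n + 6) * ((2 ^ n + 5) * δ + 2))) :
    DF (Matrix (Fin n) (Fin n) (MonoidAlgebra K H)) := by
  classical
  intro P Q h
  have : NeZero (Fintype.card Z : K) := ⟨hl⟩
  have : HasEnoughRootsOfUnity K (Monoid.exponent Z) :=
    HasEnoughRootsOfUnity.of_dvd K (Group.exponent_dvd_card (G := Z))
  have c1 := CommGroup.card_monoidHom_of_hasEnoughRootsOfUnity Z K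
  have : Finite (Z →* Kˣ) := Nat.finite_of_card_ne_zero (by rw [c1]; exact Nat.card_pos.ne')
  have := Fintype.ofFinite (Z →* Kˣ)
  rw [Nat.card_eq_fintype_card, Nat.card_eq_fintype_card] at c1
  let t : (Z →* Kˣ) → Z →* MonoidAlgebra K H := fun χ =>
    { toFun := fun c => single (ι c) (χ c)
      map_one' := by simp [one_def]
      map_mul' := fun a b => by simp [single_mul_single] }
  have t1 : ∀ χ c, t χ c = single (ι c) (χ c : K) := fun _ _ => rfl
  have key : ∀ χ, av K (t χ) • (Q * P) = av K (t χ) • 1 := fun χ => by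
    obtain ⟨e, he⟩ : ∃ e, e = av K (t χ) := ⟨_, rfl⟩
    have e1 : ∀ c, single (ι c) (χ c : K) * e = e := fun c => he ▸ mul_av K (t χ) c
    have e2 : e * e = e := he ▸ av_idem hl
    have e3 : ∀ x, x * e = e * x := fun x => he ▸ (av_comm fun c =>
      single_commute (fun g => (hc g c).symm) (fun _ => Commute.all _ _) x).symm
    have e4 : ∀ a : MonoidAlgebra K H, ∃ a' : MonoidAlgebra K H,
        (∀ g, a'.coeff g ≠ 0 → (g : H ⧸ ι.range).out = g) ∧ a' * e = a * e := fun a => by
      induction a using MonoidAlgebra.induction_linear with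
      | zero => exact ⟨0, by simp, rfl⟩
      | add a b ha hb =>
        obtain ⟨a', a1, a2⟩ := ha
        obtain ⟨b', b1, b2⟩ := hb
        refine ⟨a' + b', fun g hg => ?_, by rw [add_mul, add_mul, a2, b2]⟩
        by_cases h3 : a'.coeff g = 0
        · exact b1 g (by simpa [h3] using hg)
        · exact a1 g h3
      | single g r =>
        obtain ⟨⟨_, c, rfl⟩, hg⟩ := QuotientGroup.mk_out_eq_mul ι.range g
        refine ⟨single (g * ι c) (r * χ c), fun g' hg' => ?_, ?_⟩
        · rw [(Finsupp.single_apply_ne_zero.1 hg').1, ← hg, QuotientGroup.out_eq']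
        · rw [← single_mul_single, mul_assoc, e1]
    rw [← he]
    refine ad_ring e e2 e3 (rad X o) n (fun k hk x a hx h0 ⟨j, j1, j2⟩ => ?_) n le_rfl P Q
      (by rw [h])
    choose a' a1 a2 using fun i => e4 (a i)
    refine ad_reduce iso hyp le_rfl (by simpa using hk) x a' ?_ ⟨j, j1, fun h3 => j2 ?_⟩
      fun i g g' c g1 g2 hd => ?_
    · rw [← h0]
      exact Finset.sum_congr rfl fun i _ => by rw [← hx i, ← mul_assoc, a2, mul_assoc]
    · rw [← e3, ← a2, h3, zero_mul]
    · by_cases h3 : g⁻¹ * g' ∈ ι.range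
      · rw [← a1 i g g1, ← a1 i g' g2, QuotientGroup.eq.2 h3]
      · have := mv (g⁻¹ * g') h3 c
        rw [← iso g, smul_smul, mul_inv_cancel_left] at this
        omega
  have e3 : ∑ χ, av K (t χ) = 1 := by
    have a1 : ∀ c, ∑ χ, t χ c = if c = 1 then (Fintype.card Z : K) • 1 else 0 := fun c => by
      have a2 : ∑ χ, t χ c = single (ι c) (∑ χ : Z →* Kˣ, (χ c : K)) :=
        (map_sum (singleAddHom (ι c)) _ _).symm
      rw [a2]
      split_ifs with h1
      · simp [h1, c1, one_def]
      · obtain ⟨φ, hφ⟩ := CommGroup.exists_apply_ne_one_of_hasEnoughRootsOfUnity Z K h1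
        have := sum_hom_units_eq_zero ((Units.coeHom K).comp (MonoidHom.eval c : (Z →* Kˣ) →* Kˣ))
          fun h2 => hφ (by simpa using DFunLike.congr_fun h2 φ)
        simp only [MonoidHom.comp_apply, MonoidHom.eval_apply_apply, Units.coeHom_apply] at this
        rw [this, single_zero]
    simp only [av, ← smul_sum]
    rw [sum_comm, sum_congr rfl fun c _ => a1 c, sum_ite_eq' , if_pos (mem_univ _), smul_smul,
      inv_mul_cancel₀ hl, one_smul]
  rw [← one_smul (MonoidAlgebra K H) (Q * P), ← e3, sum_smul, sum_congr rfl fun χ _ => key χ,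
    ← sum_smul, e3, one_smul]

end Pool.Agent.P.MP_81321e_al.Ch
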