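import Pool.Agent.P.MP_e79ed6_al.QI

/-! Coarse retracts of hyperbolic spaces. -/

set_option autoImplicit false

namespace Pool.Agent.P.MP_81321e_al.Ch

open Pool.Agent.P.MP_4b59b0_al Pool.Agent.P.MP_e79ed6_al Sp FreeGroup

/-- A coarse retract of a hyperbolic space is hyperbolic. -/
theorem retr {V V' : Type} (X : Sp V) (X' : Sp V') (φ : V → V') (ρ : V' → V) (δ A B : ℕ)
    (hδ : X'.Hyp δ) (h1 : ∀ a b, X.d a b ≤ 1 → X'.d (φ a) (φ b) ≤ A)
    (h2 : ∀ c c', X.d (ρ c) (ρ c') ≤ B * X'.d c c' + B) (h3 : ∀ a, X.d a (ρ (φ a)) ≤ B) :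
    ∃ δ', X.Hyp δ' := by
  obtain ⟨δ₀, K, H⟩ := bowditch (B * (A + 2 * δ + 1) + 2 * B)
  have hd : ∀ c c', X'.d c c' ≤ A + 2 * δ + 1 → X.d (ρ c) (ρ c') ≤ B * (A + 2 * δ + 1) + B :=
    fun c c' h => (h2 c c').trans (Nat.add_le_add_right (Nat.mul_le_mul_left _ h) _)
  refine ⟨δ₀, (H V X (fun a b => {c | c = a ∨ c = b ∨ ∃ m, X'.Bt 0 (φ a) m (φ b) ∧ c = ρ m}) ?_
    (fun a b => Or.inl rfl) (fun a b => ?_) ?_ ?_).1⟩
  · rintro a b c (h | h | ⟨m, h, h'⟩)
    · exact Or.inr (Or.inl h)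
    · exact Or.inl h
    · exact Or.inr (Or.inr ⟨m, h.symm, h'⟩)
  · obtain ⟨γ, g0, gn, hγ⟩ := X'.exists_geo (φ a) (φ b)
    have hm : ∀ i ≤ X'.d (φ a) (φ b), X'.Bt 0 (φ a) (γ i) (φ b) := fun i hi => by
      have := hγ.bt (Nat.zero_le i) hi le_rfl
      rwa [g0, gn] at this
    have hc : ∀ i ≤ X'.d (φ a) (φ b), Relation.ReflTransGen (fun c c' =>
        c' ∈ {c | c = a ∨ c = b ∨ ∃ m, X'.Bt 0 (φ a) m (φ b) ∧ c = ρ m} ∧
          X.d c c' ≤ B * (A + 2 * δ + 1) + 2 * B) a (ρ (γ i)) := by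
      intro i
      induction i with
      | zero =>
        intro hi
        refine Relation.ReflTransGen.single ⟨Or.inr (Or.inr ⟨_, hm 0 hi, rfl⟩), ?_⟩
        have := h3 a
        rw [g0]
        omega
      | succ i ih =>
        intro hi
        refine (ih (by omega)).tail ⟨Or.inr (Or.inr ⟨_, hm _ hi, rfl⟩), ?_⟩
        have a3 := hγ i (i + 1) (by omega) hi
        have := hd (γ i) (γ (i + 1)) (by omega)
        omega
    refine (hc _ le_rfl).tail ⟨Or.inr (Or.inl rfl), ?_⟩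
    have a1 := h3 b
    have a2 := X.symm b (ρ (φ b))
    rw [gn]
    omega
  · rintro a b e c (rfl | rfl | ⟨m, h, rfl⟩)
    · exact ⟨c, Or.inl (Or.inl rfl), by rw [X.d_self]; omega⟩
    · exact ⟨c, Or.inr (Or.inl rfl), by rw [X.d_self]; omega⟩
    · rcases hδ.l1 h (φ e) with h | h
      · obtain ⟨n, n1, n2⟩ := hδ.nb h
        exact ⟨ρ n, Or.inl (Or.inr (Or.inr ⟨n, n1, rfl⟩)), by have := hd m n (by omega); omega⟩
      · obtain ⟨n, n1, n2⟩ := hδ.nb h
        exact ⟨ρ n, Or.inr (Or.inr (Or.inr ⟨n, n1, rfl⟩)), by have := hd m n (by omega); omega⟩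
  · rintro a b c hab (rfl | rfl | ⟨m, h, rfl⟩)
    · rw [X.d_self]; omega
    · have a1 := hd _ _ ((h1 a c hab).trans (by omega))
      have a2 := h3 a
      have a3 := h3 c
      rcases Nat.eq_zero_or_pos B with rfl | hB
      · have a4 := X.tri a (ρ (φ a)) c
        have a5 := X.tri (ρ (φ a)) (ρ (φ c)) c
        have a6 := X.symm c (ρ (φ c))
        omega
      · omega
    · have a1 := h1 a b hab
      have a2 : X'.d (φ a) m + X'.d m (φ b) ≤ X'.d (φ a) (φ b) + 0 := h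
      have a3 := hd (φ a) m (by omega)
      have a4 := h3 a
      have a5 := X.tri a (ρ (φ a)) (ρ m)
      omega

theorem norm_act {T G : Type} [DecidableEq T] [Group G] (ψ : FreeGroup T →* G) (l : G → ℕ) (A : ℕ)
    (h0 : l 1 = 0) (h1 : ∀ a b, l (a * b) ≤ l a + l b) (h2 : ∀ t, l (ψ (of t)) ≤ A)
    (h3 : ∀ t, l (ψ (of t))⁻¹ ≤ A) (f : FreeGroup T) : l (ψ f) ≤ A * norm f := by
  suffices ∀ w : List (T × Bool), l (ψ (FreeGroup.mk w)) ≤ A * w.length by
    have := this f.toWord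
    rwa [mk_toWord] at this
  intro w
  induction w with
  | nil => rw [← one_eq_mk, ψ.map_one, h0]; omega
  | cons c w ih =>
    have e : FreeGroup.mk (c :: w) = FreeGroup.mk [c] * FreeGroup.mk w := rfl
    have a1 : l (ψ (FreeGroup.mk [c])) ≤ A := by
      obtain ⟨s, _ | _⟩ := c
      · have : FreeGroup.mk [(s, false)] = (of s)⁻¹ := rfl
        rw [this, ψ.map_inv]; exact h3 s
      · exact h2 s
    have := h1 (ψ (FreeGroup.mk [c])) (ψ (FreeGroup.mk w))
    rw [e, ψ.map_mul, List.length_cons, Nat.mul_succ]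
    omega

/-- A group whose orbit in a hyperbolic space is a coarse retract is hyperbolic. -/
theorem hyp_of {S C H V : Type} [Finite S] [DecidableEq S] [Group C] [Finite C] [Group H]
    [MulAction H V] (X' : Sp V) (ι : C →* H) (Λ : FreeGroup S →* H) (j : FreeGroup S → V) (o : V)
    {δ r : ℕ} (iso : X'.Iso H) (hyp : X'.Hyp δ) (near : ∀ v, ∃ x, X'.d v (j x) ≤ r)
    (base : ∀ h, ∃ x c, j x = h • o ∧ h = Λ x * ι c)
    (lip : ∀ l : H → ℕ, (∀ a b, l (a * b) ≤ l a + l b) → (∀ f, l (Λ f) ≤ norm f) →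
      ∃ B, ∀ x y, ∃ c, l ((Λ x)⁻¹ * Λ y * ι c) ≤ B * X'.d (j x) (j y))
    (F : Type) [Group F] [Finite F] : IsHyp (H × F) := by
  classical
  have := Fintype.ofFinite (S ⊕ C × F)
  let σ : FreeGroup (S ⊕ C × F) →* H × F :=
    FreeGroup.lift (Sum.elim (fun s => (Λ (of s), 1)) fun p => (ι p.1, p.2))
  have σ1 : ∀ f, σ (FreeGroup.map Sum.inl f) = (Λ f, 1) := fun f =>
    DFunLike.congr_fun (FreeGroup.ext_hom (σ.comp (FreeGroup.map Sum.inl))
      ((MonoidHom.inl _ _).comp Λ) fun s => by simp [σ]) f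
  have σ3 : Function.Surjective σ := by
    rintro ⟨h, l⟩
    obtain ⟨x, c, -, rfl⟩ := base h
    exact ⟨FreeGroup.map Sum.inl x * of (.inr (c, l)), by rw [σ.map_mul, σ1]; simp [σ]⟩
  obtain ⟨X, x1, x2, x3⟩ := word _ _ σ σ3
  have inv : ∀ g a b, X.d (g * a) (g * b) ≤ X.d a b := fun g a b => by
    obtain ⟨g, rfl⟩ := σ3 g
    obtain ⟨f, rfl⟩ := σ3 a
    obtain ⟨f', rfl, e⟩ := x2 f b
    rw [e, ← σ.map_mul, ← σ.map_mul]
    simpa [mul_assoc] using x1 (g * f) (g * f')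
  have gen : ∀ t, X.d 1 (σ (of t)) ≤ 1 := fun t => by simpa using x1 1 (of t)
  have step : ∀ a c l, X.d a (a * (ι c, l)) ≤ 1 := fun a c l => by
    have := (inv a 1 _).trans (gen (.inr (c, l)))
    simpa [σ] using this
  have sub : ∀ a b : H, X.d 1 (a * b, 1) ≤ X.d 1 (a, 1) + X.d 1 (b, 1) := fun a b => by
    have a1 := X.tri 1 (a, 1) (a * b, 1)
    have a2 := inv (a, 1) 1 (b, 1)
    simp only [mul_one, Prod.mk_mul_mk] at a2
    omega
  obtain ⟨B, hB⟩ := lip (fun h => X.d 1 (h, 1)) sub fun f => by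
    simpa using norm_act Λ (fun h => X.d 1 (h, 1)) 1 (X.d_self _) sub
      (fun s => by simpa [σ] using gen (.inl s)) (fun s => by
        have a1 := inv ((Λ (of s))⁻¹, 1) 1 (Λ (of s), 1)
        have a2 := gen (.inl s)
        simp only [σ, lift_apply_of, Sum.elim_inl] at a2
        simp only [mul_one, Prod.mk_mul_mk, inv_mul_cancel] at a1
        rw [X.symm]
        exact a1.trans a2) f
  have key : ∀ x y, X.d (Λ x, 1) (Λ y, 1) ≤ B * X'.d (j x) (j y) + 1 := fun x y => by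
    obtain ⟨c, hc⟩ := hB x y
    have a1 := inv (Λ x, 1) 1 ((Λ x)⁻¹ * Λ y * ι c, 1)
    have a2 := step (Λ y, 1) c 1
    have a3 := X.tri (Λ x, 1) (Λ y * ι c, 1) (Λ y, 1)
    have a4 := X.symm (Λ y * ι c, 1) (Λ y, 1)
    simp only [mul_one, Prod.mk_mul_mk, mul_assoc, mul_inv_cancel_left] at a1 a2 hc
    omega
  choose p hp using near
  obtain ⟨A, hA⟩ := (Set.finite_range fun t => X'.d o ((σ (of t)).1 • o)).bddAbove
  have hA' : ∀ t, X'.d o ((σ (of t)).1 • o) ≤ A := fun t => hA ⟨t, rfl⟩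
  refine x3 (retr X X' (fun g => g.1 • o) (fun v => (Λ (p v), 1)) δ A (B * (2 * r + 1) + 2) hyp
    (fun a b hab => ?_) (fun c c' => ?_) fun a => ?_)
  · obtain ⟨f, rfl⟩ := σ3 a
    obtain ⟨f', rfl, e⟩ := x2 f b
    have a1 := norm_act σ (fun g => X'.d o (g.1 • o)) A (by simp [X'.d_self]) (fun a b => by
      have b1 := X'.tri o (a.1 • o) ((a * b).1 • o)
      rw [Prod.fst_mul, mul_smul, iso] at b1
      rwa [Prod.fst_mul, mul_smul]) hA' (fun t => by
        rw [← iso (σ (of t)).1, Prod.fst_inv, smul_inv_smul, X'.symm]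
        exact hA' t) (f⁻¹ * f')
    rw [← iso (σ f).1, smul_smul, σ.map_mul, σ.map_inv, Prod.fst_mul, Prod.fst_inv,
      mul_inv_cancel_left] at a1
    exact a1.trans (by rw [← e]; simpa using Nat.mul_le_mul_left A hab)
  · have a1 := key (p c) (p c')
    have a2 := hp c
    have a3 := hp c'
    have a4 := X'.tri (j (p c)) c (j (p c'))
    have a5 := X'.tri c c' (j (p c'))
    have a6 := X'.symm c (j (p c))
    have a7 : B * X'.d (j (p c)) (j (p c')) ≤ B * (X'.d c c' + 2 * r) :=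
      Nat.mul_le_mul_left _ (by omega)
    nlinarith [Nat.zero_le (B * r * X'.d c c'), Nat.zero_le (X'.d c c')]
  · obtain ⟨h, l⟩ := a
    obtain ⟨x, c, e1, e2⟩ := base h
    have a1 := key x (p (h • o))
    have a2 := hp (h • o)
    have a3 := step (Λ x, 1) c l
    have a4 := X.tri (h, l) (Λ x, 1) (Λ (p (h • o)), 1)
    have a5 := X.symm (h, l) (Λ x, 1)
    rw [e1] at a1
    simp only [Prod.mk_mul_mk, one_mul, ← e2] at a3
    have a7 : B * X'.d (h • o) (j (p (h • o))) ≤ B * (2 * r + 1) :=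
      Nat.mul_le_mul_left _ (by omega)
    change X.d (h, l) (Λ (p (h • o)), 1) ≤ _
    omega

end Pool.Agent.P.MP_81321e_al.Ch
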