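import Pool.Agent.P.MP_81321e_al.TwCore
import Pool.Agent.P.MP_81321e_al.BDefs
import Pool.Agent.P.MP_81321e_al.ChHyp
import Pool.Agent.P.MP_e79ed6_al.Cone

/-! Small cancellation over the fundamental group of a graph of large girth, twisted by a finite
abelian group. -/

set_option autoImplicit false

namespace Pool.Agent.P.MP_81321e_al.Ch

open Pool.Agent.P.MP_4b59b0_al Pool.Agent.P.MP_e79ed6_al Sp FreeGroup LG Tw

section

variable {Ed N S C : Type} [CommGroup C] (Γ : LG Ed N S) (sg : Ed → C)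

/-- The cover given by weights on the edges. -/
def cov : LG (Ed × C) (N × C) S where
  en e b := (Γ.en e.1 b, if b then e.2 else e.2 * sg e.1)
  lab e := Γ.lab e.1
  fold := by
    rintro ⟨e, a⟩ ⟨e', a'⟩ b h1 h2
    simp only [Prod.mk.injEq] at h1 h2 ⊢
    have := Γ.fold e e' b h1.1 h2
    subst this
    cases b <;> simpa using h1.2

variable {Γ sg}

theorem cov_lift {w : List (S × Bool)} : ∀ {y z : N} (a : C), Γ.Rd w y z →
    ∃ a', (cov Γ sg).Rd w (y, a) (z, a') := by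
  induction w with
  | nil => intro y z a h; exact ⟨a, congrArg (·, a) h⟩
  | cons c w ih =>
    rintro y z a ⟨m, ⟨e, a1, a2, a3⟩, h⟩
    obtain ⟨s, b⟩ := c
    cases b
    · obtain ⟨a', h'⟩ := ih (a * (sg e)⁻¹) h
      exact ⟨a', _, ⟨(e, a * (sg e)⁻¹), a1, by simp [cov, ← a2], by simp [cov, ← a3]⟩, h'⟩
    · obtain ⟨a', h'⟩ := ih (a * sg e) h
      exact ⟨a', _, ⟨(e, a), a1, by simp [cov, ← a2], by simp [cov, ← a3]⟩, h'⟩

/-- Reading a word changes a potential by the value of the word. -/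
theorem tele {H : Type} [Group H] (ι : C →* H) (hι : ∀ g c, g * ι c = ι c * g) (lam : S → H)
    (gam : N → H) (h : ∀ e, gam (Γ.en e false) = gam (Γ.en e true) * lam (Γ.lab e) * ι (sg e))
    {w : List (S × Bool)} : ∀ {y z : N}, Γ.Rd w y z →
      ∃ c, gam z = gam y * lift lam (FreeGroup.mk w) * ι c := by
  induction w with
  | nil => rintro y z rfl; exact ⟨1, by simp [← one_eq_mk]⟩
  | cons c w ih =>
    rintro y z ⟨m, ⟨e, a1, a2, a3⟩, hr⟩
    obtain ⟨k, hk⟩ := ih hr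
    have e0 : FreeGroup.mk (c :: w) = FreeGroup.mk [c] * FreeGroup.mk w := rfl
    have e1 := h e
    obtain ⟨s, b⟩ := c
    obtain rfl : Γ.lab e = s := a1
    cases b
    · have e2 : FreeGroup.mk [(Γ.lab e, false)] = (of (Γ.lab e))⁻¹ := rfl
      obtain rfl : Γ.en e false = y := a2
      obtain rfl : Γ.en e true = m := a3
      refine ⟨(sg e)⁻¹ * k, ?_⟩
      rw [hk, e0, e2, e1, (lift lam).map_mul, (lift lam).map_inv, lift_apply_of, ι.map_mul,
        ι.map_inv, mul_assoc _ (ι (sg e)), ← hι]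
      group
    · have e2 : FreeGroup.mk [(Γ.lab e, true)] = of (Γ.lab e) := rfl
      obtain rfl : Γ.en e true = y := a2
      obtain rfl : Γ.en e false = m := a3
      refine ⟨sg e * k, ?_⟩
      rw [hk, e0, e2, e1, (lift lam).map_mul, lift_apply_of, ι.map_mul, mul_assoc _ (ι (sg e)),
        ← hι]
      group

variable [DecidableEq S]

theorem cov_down {y z : N × C} {f : FreeGroup S} (h : (cov Γ sg).Rf y f z) : Γ.Rf y.1 f z.1 :=
  rd_map (Γ := cov Γ sg) (Γ' := Γ) Prod.fst Prod.fst (fun _ => rfl) (fun _ _ => rfl) h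

theorem cov_shift {y z : N} {a a' : C} {f : FreeGroup S} (h : (cov Γ sg).Rf (y, a) f (z, a'))
    (k : C) : (cov Γ sg).Rf (y, k * a) f (z, k * a') :=
  rd_map (Γ := cov Γ sg) (Γ' := cov Γ sg) (fun p => (p.1, k * p.2)) (fun p => (p.1, k * p.2))
    (fun _ => rfl) (fun e b => by cases b <;> simp [cov, mul_assoc]) h

end

/-- The properties of the group which are used later. -/
structure Nice (δ D : ℕ) {C H : Type} [Group C] [Group H] (ι : C →* H) : Prop where
  cen : ∀ g c, g * ι c = ι c * g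
  inj : Function.Injective ι
  hyp : ∀ (F : Type) [Group F] [Finite F], IsHyp (H × F)
  act : ∃ (V : Type) (_ : MulAction H V) (X : Sp V), X.Iso H ∧ X.Hyp δ ∧ Nonempty V ∧
    ∀ g : H, g ∉ ι.range → X.Mv g D

attribute [local instance] ConeOff.act QS.act

theorem twc : ∃ δ : ℕ, ∀ D : ℕ, ∃ L : ℕ, ∀ (S N₀ Ed N C : Type) [DecidableEq S] [Finite S]
    [Finite N] [CommGroup C] [Finite C] (X₀ : LG S N₀ S) (Γ : LG Ed N S) (pr : N → N₀)
    (sg : Ed → C) (x₀ : N₀), (∀ s, X₀.lab s = s) → (∀ x, ∃ f, X₀.Rf x₀ f x) → X₀.Girth L →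
    Γ.Pieces 2 → (∀ e b, pr (Γ.en e b) = X₀.en (Γ.lab e) b) →
    ∃ (H : Type) (_ : Group H) (ι : C →* H) (lam : S → H) (gam : N → H), Nice δ D ι ∧
      ∀ e, gam (Γ.en e false) = gam (Γ.en e true) * lam (Γ.lab e) * ι (sg e) := by
  classical
  obtain ⟨δ₀, K, h⟩ := cone_gen
  refine ⟨2 * δ₀ + 2, fun D => ?_⟩
  obtain ⟨M, B, -, h⟩ := h 10 1000 (3 * D + 1) le_rfl (by omega)
  obtain ⟨E, hE⟩ : ∃ E, E = 3 * D * 2 ^ (3 * D) * 1000 := ⟨_, rfl⟩
  refine ⟨100 * M + 1000 + E + 49, fun S N₀ Ed N C _ _ _ _ _ X₀ Γ pr sg x₀ hl hcon hg hc hpr => ?_⟩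
  have hmap : ∀ {y z : N} {f : FreeGroup S}, Γ.Rf y f z → X₀.Rf (pr y) f (pr z) :=
    fun h => rd_map pr Γ.lab (fun e => hl _) hpr h
  let u₀ : Quotient X₀.sd := Quotient.mk X₀.sd (1, x₀)
  let H₁ := MulAction.stabilizer (FreeGroup S) u₀
  have mem₁ : ∀ {f : FreeGroup S}, f ∈ H₁ ↔ X₀.Rf x₀ f x₀ := by
    intro f
    change f • u₀ = u₀ ↔ _
    rw [smul_mk, eq_comm, mk_eq]; simp
  let θ : H₁ × C →* FreeGroup S := H₁.subtype.comp (MonoidHom.fst _ _)
  let prq : Quotient Γ.sd → Quotient X₀.sd :=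
    Quotient.map (fun p => (p.1, pr p.2)) fun p q h => hmap h
  have prq_smul : ∀ (g : FreeGroup S) q, prq (g • q) = g • prq q := by
    rintro g ⟨p⟩; rfl
  let U := {q : Quotient Γ.sd // prq q = u₀}
  let aV : MulAction (H₁ × C) (FreeGroup S) := MulAction.compHom _ θ
  let aU : MulAction (H₁ × C) U :=
    { smul := fun g q => ⟨θ g • q.1, by rw [prq_smul, q.2]; exact g.1.2⟩
      one_smul := fun q => Subtype.ext (by
        change θ 1 • q.1 = q.1
        rw [θ.map_one, one_smul])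
      mul_smul := fun g k q => Subtype.ext (by
        change θ (g * k) • q.1 = θ g • θ k • q.1
        rw [θ.map_mul, mul_smul]) }
  have sU : ∀ (g : H₁ × C) (u : U), (g • u).1 = θ g • u.1 := fun _ _ => rfl
  have sV : ∀ (g : H₁ × C) (x : FreeGroup S), g • x = θ g • x := fun _ _ => rfl
  let Y : U → Set (FreeGroup S) := fun u => {f | ∃ z, Quotient.mk Γ.sd (f, z) = u.1}
  have F : Fam (tree S) Y 10 := fam' (fun u : U => u.1) Subtype.val_injective hc
  have iso : (tree S).Iso (H₁ × C) := fun g x y => tree_iso S (θ g) x y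
  have eqv : Eqv (H₁ × C) Y := by
    rintro g u f ⟨z, hz⟩
    exact ⟨z, by rw [sU, ← hz]; rfl⟩
  have dsp : ∀ g : H₁ × C, θ g ≠ 1 → ∀ x, 100 * M + 1000 + E + 1 ≤ (tree S).d x (g • x) := by
    intro g g1 x
    have := disp_all hl hg (q := u₀) g.1.2 g1 x
    change _ ≤ (tree S).d x (g • x) + 48 at this
    omega
  obtain ⟨Z, z1, z2⟩ := h _ (tree S) (H₁ × C) U Y F iso eqv
  let Gu : U → Subgroup (H₁ × C) := fun u =>
    { carrier := {g | ∀ f y, Quotient.mk Γ.sd (f, y) = u.1 →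
        (cov Γ sg).Rf (y, 1) (f⁻¹ * θ g * f) (y, g.2)}
      one_mem' := fun f y _ => by simpa using rf_one (Γ := cov Γ sg) (y, 1)
      mul_mem' := fun {a b} ha hb f y hy => by
        have := (ha f y hy).mul (by simpa using cov_shift (hb f y hy) a.2)
        simpa [mul_assoc] using this
      inv_mem' := fun {a} ha f y hy => by
        have := cov_shift (ha f y hy).inv a.2⁻¹
        simpa [mul_assoc] using this }
  have memG : ∀ (u : U) (g : H₁ × C) f y, Quotient.mk Γ.sd (f, y) = u.1 →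
      (cov Γ sg).Rf (y, 1) (f⁻¹ * θ g * f) (y, g.2) → g ∈ Gu u := by
    intro u g f y hy hr f' y' hy'
    obtain ⟨k, hk⟩ := cov_lift (sg := sg) 1 (mk_eq.1 (hy.trans hy'.symm))
    have a1 : (cov Γ sg).Rf (y, 1) (f⁻¹ * f') (y', k) := hk
    have a2 := cov_shift ((a1.inv.mul hr).mul (by simpa using cov_shift a1 g.2)) k⁻¹
    rw [inv_mul_cancel, mul_comm g.2, inv_mul_cancel_left] at a2
    simpa [mul_assoc] using a2
  have Gfix : ∀ u r, r ∈ Gu u → r • u = u := by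
    intro u r hr
    obtain ⟨⟨f, y⟩, hy⟩ := Quotient.exists_rep u.1
    refine Subtype.ext ?_
    rw [sU, ← hy, smul_mk, eq_comm, mk_eq]
    simpa [mul_assoc] using cov_down (hr f y hy)
  have Gne : ∀ u r, r ∈ Gu u → r ≠ 1 → θ r ≠ 1 := by
    intro u r hr r1 hθ
    obtain ⟨⟨f, y⟩, hy⟩ := Quotient.exists_rep u.1
    have a1 := hr f y hy
    rw [hθ, mul_one, inv_mul_cancel] at a1
    have a2 := Rd.func a1 (rf_one _)
    exact r1 (Prod.ext (Subtype.ext hθ) (Prod.ext_iff.1 a2).2)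
  let R : Rot Z.P (100 * M) :=
    { G := Gu
      conj := fun g u r hr f y hy => by
        have a1 : Quotient.mk Γ.sd ((θ g)⁻¹ * f, y) = u.1 := by
          rw [← smul_mk, hy, sU, inv_smul_smul]
        have a2 := hr _ _ a1
        have e : (g * r * g⁻¹).2 = r.2 := by
          change g.2 * r.2 * g.2⁻¹ = r.2
          rw [mul_comm g.2, mul_inv_cancel_right]
        rw [e]
        simpa [mul_assoc] using a2
      fix := Gfix
      rot := fun u r a hr r1 => Z.rot r u (100 * M + 1000) _ a (Gfix u r hr)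
        (fun y _ => le_trans (by omega) (dsp r (Gne u r hr r1) y)) le_rfl }
  let π : H₁ × C →* (H₁ × C) ⧸ R.N := QuotientGroup.mk' R.N
  obtain ⟨Q⟩ := exists_QS R Z.iso
  have hyp := (Q.rips Z.iso le_rfl Z.hyp (by omega) Z.sep).hyp
  obtain ⟨τ, hτ, τ0⟩ : ∃ τ : N₀ → FreeGroup S, (∀ x, X₀.Rf x₀ (τ x) x) ∧ τ x₀ = 1 := by
    choose τ hτ using hcon
    exact ⟨fun x => (τ x₀)⁻¹ * τ x, fun x => (hτ x₀).inv.mul (hτ x), inv_mul_cancel _⟩
  let cn : Setoid N := ⟨fun y z => ∃ f, Γ.Rf y f z, ⟨fun y => ⟨1, rf_one y⟩,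
    fun ⟨f, hf⟩ => ⟨_, hf.inv⟩, fun ⟨f, hf⟩ ⟨f', hf'⟩ => ⟨_, hf.mul hf'⟩⟩⟩
  let rep : N → N := fun y => (Quotient.mk cn y).out
  have hp : ∀ y, ∃ f a, (cov Γ sg).Rf (rep y, 1) f (y, a) := by
    intro y
    obtain ⟨f, hf⟩ : ∃ f, Γ.Rf (rep y) f y := Quotient.mk_out (s := cn) y
    exact ⟨f, cov_lift 1 hf⟩
  choose pth sgn hpth using hp
  let ι : C →* (H₁ × C) ⧸ R.N := π.comp (MonoidHom.inr _ _)
  have ι1 : ∀ c, ι c = π (1, c) := fun _ => rfl
  have triv : ∀ k : H₁ × C, θ k = 1 → π k ∈ ι.range := by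
    rintro ⟨k, a⟩ hk
    have : k = 1 := Subtype.ext hk
    subst this
    exact ⟨a, rfl⟩
  have cen : ∀ g c, g * ι c = ι c * g := fun g c => by
    obtain ⟨g, rfl⟩ := QuotientGroup.mk'_surjective R.N g
    change π g * _ = _ * π g
    rw [ι1, ← π.map_mul, ← π.map_mul]
    congr 1
    exact Prod.ext (by simp) (mul_comm _ _)
  let lam : S → (H₁ × C) ⧸ R.N := fun s => π (⟨τ (X₀.en s true) * of s * (τ (X₀.en s false))⁻¹,
      mem₁.2 (((hτ _).mul (by simpa [hl] using rf_edge (Γ := X₀) s)).mul (hτ _).inv)⟩, 1)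
  let gam : N → (H₁ × C) ⧸ R.N := fun y => π (⟨τ (pr (rep y)) * pth y * (τ (pr y))⁻¹,
      mem₁.2 (((hτ _).mul (hmap (cov_down (hpth y)))).mul (hτ _).inv)⟩, sgn y)
  have rel : ∀ e, gam (Γ.en e false) = gam (Γ.en e true) * lam (Γ.lab e) * ι (sg e) := fun e => by
    have e1 : rep (Γ.en e false) = rep (Γ.en e true) := by
      simp only [rep]
      congr 1
      exact (Quotient.sound (s := cn) ⟨_, rf_edge e⟩).symm
    simp only [gam, lam]
    rw [ι1, ← π.map_mul, ← π.map_mul, eq_comm]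
    refine QuotientGroup.eq.2 ?_
    rw [← inv_mem_iff, mul_inv_rev, inv_inv, ← R.normal.mem_comm_iff]
    have a1 := hpth (Γ.en e true)
    have a2 := hpth (Γ.en e false)
    rw [e1] at a2
    have a3 : (cov Γ sg).Rf (Γ.en e true, sgn (Γ.en e true)) (of (Γ.lab e))
        (Γ.en e false, sgn (Γ.en e true) * sg e) := rf_edge (Γ := cov Γ sg) (e, sgn (Γ.en e true))
    have a4 := cov_shift a2.inv (sgn (Γ.en e true) * sg e * (sgn (Γ.en e false))⁻¹)
    rw [inv_mul_cancel_right, mul_one] at a4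
    refine R.le_N ⟨Quotient.mk Γ.sd (τ (pr (rep (Γ.en e true))), rep (Γ.en e true)), ?_⟩
      (memG _ _ _ _ rfl ?_)
    · exact (mk_eq.2 (by simpa using hτ _)).symm
    · have a5 := (a1.mul a3).mul a4
      simpa [θ, mul_assoc, e1, hpr] using a5
  have val : ∀ (w : List (S × Bool)) (a b : N₀) (k : H₁), X₀.Rd w a b →
      k.1 = τ a * FreeGroup.mk w * (τ b)⁻¹ → lift lam (FreeGroup.mk w) = π (k, 1) := by
    intro w
    induction w with
    | nil =>
      rintro a b k rfl hk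
      obtain rfl : k = 1 := Subtype.ext (by simpa [← one_eq_mk] using hk)
      rw [← one_eq_mk, (lift lam).map_one]
      exact π.map_one.symm
    | cons c w ih =>
      rintro a b k ⟨m, ⟨e, a1, a2, a3⟩, hr⟩ hk
      have e0 : FreeGroup.mk (c :: w) = FreeGroup.mk [c] * FreeGroup.mk w := rfl
      have e1 := ih m b ⟨_, mem₁.2 (((hτ m).mul hr.rf).mul (hτ b).inv)⟩ hr rfl
      obtain ⟨s, _ | _⟩ := c
      · have e2 : FreeGroup.mk [(s, false)] = (of s)⁻¹ := rfl
        obtain rfl : e = s := (hl e).symm.trans a1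
        rw [e0, e2] at hk ⊢
        rw [(lift lam).map_mul, (lift lam).map_inv, lift_apply_of, e1, ← π.map_inv, ← π.map_mul]
        congr 1
        refine Prod.ext (Subtype.ext ?_) (by simp)
        simp [hk, ← a2, ← a3, mul_assoc]
      · have e2 : FreeGroup.mk [(s, true)] = of s := rfl
        obtain rfl : e = s := (hl e).symm.trans a1
        rw [e0, e2] at hk ⊢
        rw [(lift lam).map_mul, lift_apply_of, e1, ← π.map_mul]
        congr 1
        refine Prod.ext (Subtype.ext ?_) (by simp)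
        simp [hk, ← a2, ← a3, mul_assoc]
  have val' : ∀ k : H₁, lift lam k.1 = π (k, 1) := fun k => by
    have := val k.1.toWord x₀ x₀ k (mem₁.1 k.2) (by simp [τ0, mk_toWord])
    rwa [mk_toWord] at this
  have hφ : ∀ (k : H₁ × C) x, π k • Q.pr (Z.ι x) = Q.pr (Z.ι (θ k * x)) := fun k x => by
    have := Q.eqv k (Z.ι x)
    rw [← Z.ι_smul, sV] at this
    exact this.symm
  refine ⟨_, inferInstance, ι, lam, gam, ⟨cen, (injective_iff_map_eq_one _).2 fun c hz => ?_,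
    fun F _ _ => hyp_of Q.X' ι (lift lam) (fun x => Q.pr (Z.ι x)) (Q.pr (Z.ι 1))
      (r := 3 * D + 1 + 1) (Q.iso' Z.iso) hyp (fun v => ?_) (fun g => ?_) (fun l l1 l2 => ?_) F,
    Q.V', inferInstance, Q.X', Q.iso' Z.iso, hyp, ⟨Q.pr (Z.ι 1)⟩, fun g g1 x => ?_⟩, rel⟩
  · by_contra c1
    obtain ⟨k, hk⟩ := R.mem_N_iff.1 ((QuotientGroup.eq_one_iff _).1 hz)
    have z1 : ((1, c) : H₁ × C) ≠ 1 := fun h => c1 (Prod.ext_iff.1 h).2
    cases k with
    | zero => exact z1 hk.zero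
    | succ k =>
      obtain ⟨u, r, hr, r1, -, ha⟩ := R.green Z.iso (by omega) (x := Z.ι 1) (Z.ι_ne 1) hk z1
      have e : ((1, c) : H₁ × C) • Z.ι 1 = Z.ι 1 := by
        rw [← Z.ι_smul, sV]; congr 1
      change Z.P.Ang u _ ((r⁻¹ * (1, c)) • _) _ at ha
      rw [mul_smul, e] at ha
      exact R.rot u r⁻¹ _ (inv_mem hr) (inv_ne_one.2 r1) (Z.P.mono ha (by omega))
  · obtain ⟨c, rfl⟩ := Q.surj v
    obtain ⟨x, hx⟩ := z1 c
    exact ⟨x, (Q.le _ _).trans hx⟩
  · obtain ⟨⟨k, c⟩, rfl⟩ := QuotientGroup.mk'_surjective R.N g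
    refine ⟨k.1, c, ?_, ?_⟩
    · rw [hφ, mul_one]; rfl
    · rw [val', ι1, ← π.map_mul]; simp [π]
  · obtain ⟨C₀, hC⟩ := (Set.finite_range fun p : N × N × C =>
      l ((gam p.1)⁻¹ * gam p.2.1 * (ι p.2.2)⁻¹)).bddAbove
    have a0 := z2 (fun x y => l ((lift lam x)⁻¹ * lift lam y)) C₀
      (fun x y z => by
        simpa [mul_assoc] using l1 ((lift lam x)⁻¹ * lift lam y) ((lift lam y)⁻¹ * lift lam z))
      (fun x y => by
        have := l2 (x⁻¹ * y)
        rwa [(lift lam).map_mul, (lift lam).map_inv] at this) (by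
        rintro u x ⟨z, a1⟩ y ⟨z', a2⟩
        obtain ⟨c, hc⟩ := tele ι cen lam gam rel (mk_eq.1 (a1.trans a2.symm))
        rw [mk_toWord] at hc
        refine le_trans (le_of_eq ?_) (hC ⟨(z, z', c), rfl⟩)
        simp [hc, mul_assoc])
    refine ⟨B + C₀, fun x y => ?_⟩
    obtain ⟨n, hn, e⟩ := Q.ex (Z.ι x) (Z.ι y)
    refine ⟨n.2⁻¹, ?_⟩
    have a1 := a0 x (n • y)
    have a2 : lift lam (n • y) = lift lam y * ι n.2⁻¹ := by
      have a3 : π (n.1, 1) * ι n.2 = 1 := by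
        rw [ι1, ← π.map_mul]
        have : π n = 1 := (QuotientGroup.eq_one_iff n).2 hn
        simpa using this
      rw [cen, ι.map_inv, ← eq_inv_of_mul_eq_one_left a3, ← val', ← (lift lam).map_mul]
      rfl
    rw [a2, Z.ι_smul, ← e, ← mul_assoc] at a1
    exact a1
  · obtain ⟨c, rfl⟩ := Q.surj x
    obtain ⟨k, rfl, e⟩ := Q.lift_el g c
    rw [← e]
    by_contra hlt
    rcases Z.shallow c D (by omega) with ⟨u, -, hu⟩ | ⟨y, hy⟩
    · have a1 := hu k (by omega)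
      obtain ⟨⟨f, y⟩, hy⟩ := Quotient.exists_rep u.1
      have a2 : Γ.Rf y (f⁻¹ * θ k * f) y := by
        rw [mul_assoc, ← mk_eq, ← smul_mk, hy, ← sU, a1]
      obtain ⟨a, ha⟩ := cov_lift (sg := sg) 1 a2
      have a3 : π (k.1, a) = 1 :=
        (QuotientGroup.eq_one_iff _).2 (R.le_N u (memG u (k.1, a) f y hy ha))
      refine g1 ⟨a⁻¹ * k.2, ?_⟩
      rw [← one_mul (ι _), ← a3, ι1, ← π.map_mul]
      simp [π]
    · have a1 := Z.iso k c (Z.ι y)
      have a2 := Z.Z.tri (Z.ι y) c (k • Z.ι y)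
      have a3 := Z.Z.tri c (k • c) (k • Z.ι y)
      have a4 := Z.Z.symm c (Z.ι y)
      have a5 := Z.sh y (k • y) (3 * D) (by rw [Z.ι_smul]; omega) (by omega)
      by_cases hk : θ k = 1
      · exact g1 (triv k hk)
      · have := dsp k hk y
        omega

/-- The connectivity hypothesis is not needed. -/
theorem twc' : ∃ δ : ℕ, ∀ D : ℕ, ∃ L : ℕ, ∀ (S N₀ Ed N C : Type) [Finite S] [Finite N]
    [CommGroup C] [Finite C] (X₀ : LG S N₀ S) (Γ : LG Ed N S) (pr : N → N₀) (sg : Ed → C),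
    (∀ s, X₀.lab s = s) → X₀.Girth L → Γ.Pieces 2 → (∀ e b, pr (Γ.en e b) = X₀.en (Γ.lab e) b) →
    ∃ (H : Type) (_ : Group H) (ι : C →* H) (lam : S → H) (gam : N → H), Nice δ D ι ∧
      ∀ e, gam (Γ.en e false) = gam (Γ.en e true) * lam (Γ.lab e) * ι (sg e) := by
  classical
  obtain ⟨δ, h⟩ := twc
  refine ⟨δ, fun D => ?_⟩
  obtain ⟨L, h⟩ := h D
  refine ⟨L + 2, fun S N₀ Ed N C _ _ _ _ X₀ Γ pr sg hl hg hc hpr => ?_⟩
  let cn : Setoid N₀ := ⟨fun y z => ∃ f, X₀.Rf y f z, ⟨fun y => ⟨1, rf_one y⟩,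
    fun ⟨f, hf⟩ => ⟨_, hf.inv⟩, fun ⟨f, hf⟩ ⟨f', hf'⟩ => ⟨_, hf.mul hf'⟩⟩⟩
  let rep : N₀ → N₀ := fun y => (Quotient.mk cn y).out
  have rep_rep : ∀ y, rep (rep y) = rep y := fun y => by simp [rep]
  have rep_en : ∀ s b, rep (X₀.en s b) = rep (X₀.en s true) := by
    intro s b
    cases b
    · simp only [rep]
      congr 1
      exact (Quotient.sound (s := cn) ⟨_, rf_edge s⟩).symm
    · rfl
  let N₁ := Option {y : N₀ // rep y ≠ y}
  let q : N₀ → N₁ := fun y => if h : rep y = y then none else some ⟨y, h⟩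
  let X₁ : LG S N₁ S := ⟨fun s b => q (X₀.en s b), id, fun _ _ _ _ h => h⟩
  refine h S N₁ Ed N C X₁ Γ (fun y => q (pr y)) sg none (fun _ => rfl) (fun x => ?_)
    (girth _ _ _ X₁ L fun e _ hw => ?_) hc (fun e b => by rw [hpr])
  · cases x with
    | none => exact ⟨1, rf_one _⟩
    | some y =>
      obtain ⟨f, hf⟩ : ∃ f, X₀.Rf (rep y.1) f y.1 := Quotient.mk_out (s := cn) y.1
      have h1 : X₁.Rf (q (rep y.1)) f (q y.1) :=
        rd_map (Γ := X₀) (Γ' := X₁) q id (fun e => (hl e).symm) (fun _ _ => rfl) hf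
      refine ⟨f, ?_⟩
      simpa only [q, dif_pos (rep_rep _), dif_neg y.2] using h1
  · let r := rep (X₀.en e true)
    let ρ : N₁ → N₀ := fun a => match a with
      | none => r
      | some y => if rep y.1 = r then y.1 else r
    have ρ1 : ∀ y, rep y = r → ρ (q y) = y := by
      intro y hy
      by_cases h1 : rep y = y
      · simp only [q, dif_pos h1, ρ]; rw [← hy, h1]
      · simp only [q, dif_neg h1, ρ, if_pos hy]
    have ρ2 : ∀ y, rep y ≠ r → ρ (q y) = r := by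
      intro y hy
      by_cases h1 : rep y = y
      · simp only [q, dif_pos h1, ρ]
      · simp only [q, dif_neg h1, ρ, if_neg hy]
    have h1 := walk_map (R' := Adj X₀.en (Set.univ \ {e})) ρ (by
      rintro a b (rfl | ⟨e', he, c, rfl, rfl⟩)
      · exact Or.inl rfl
      · change Adj _ _ (ρ (q _)) (ρ (q _))
        by_cases h2 : rep (X₀.en e' true) = r
        · rw [ρ1 _ ((rep_en _ _).trans h2), ρ1 _ ((rep_en _ _).trans h2)]
          exact Or.inr ⟨e', he, c, rfl, rfl⟩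
        · rw [ρ2 _ (by rwa [rep_en]), ρ2 _ (by rwa [rep_en])]
          exact Or.inl rfl) hw
    change Walk _ _ (ρ (q _)) (ρ (q _)) at h1
    rw [ρ1 _ rfl, ρ1 _ (rep_en _ _)] at h1
    exact gir_of_girth hl hg e trivial h1

/-- The group of a chamber system. -/
theorem geoc : ∃ δ : ℕ, ∀ D : ℕ, ∃ L : ℕ, ∀ (K Ω A B C E R I Z : Type) [Field K] [Fintype Ω]
    [Fintype E] [Fintype I] [DecidableEq B] [DecidableEq Ω] [Finite A] [Finite B] [Finite C]
    [CommGroup Z] [Finite Z] (c : CS K Ω A B C E R I L) (z : Z),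
    ∃ (H : Type) (_ : Group H) (ι : Z →* H) (gA : A → H) (h : B → H) (gC : C → H), Nice δ D ι ∧
      ∀ ω, h (c.pB ω) * gA (c.pA ω) =
        gC (c.pC ω) * if c.sp (c.pA ω) = ω then ι z else 1 := by
  classical
  obtain ⟨δ, h⟩ := twc'
  refine ⟨δ, fun D => ?_⟩
  obtain ⟨L, h⟩ := h D
  refine ⟨L, fun K Ω A B C E R I Z _ _ _ _ _ _ _ _ _ _ _ c z => ?_⟩
  obtain ⟨H, _, ι, lam, gam, a1, a2⟩ :=
    h Ω _ _ _ Z (x0 c.pA c.pB c.eA) (cones c.pA c.pB c.pC)
      (Sum.elim (fun a => Sum.inl (Sum.elim c.eA c.eC a)) fun b => Sum.inr b.1)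
      (fun e => if e.2 = false ∧ c.sp (c.pA e.1) = e.1 then z else 1) (fun _ => rfl)
      (x0_girth _ _ _ fun m w s h1 h2 h3 h4 => c.gal m w s h1 h2
        (fun i hi => ⟨(h4 i hi).1, fun e => by simpa [e] using (h4 i hi).2,
          fun e => by simpa [e] using (h4 i hi).2⟩) fun i _ => by rw [h3]; simp)
      (cones_pieces _ _ _ fun w w' h1 h2 =>
        (c.grid w' (c.pA w') (c.eAC w')).unique ⟨h2, h1⟩ ⟨rfl, rfl⟩) (by
        rintro ⟨w, t⟩ b
        cases b <;> cases t <;> simp [cones, x0, c.eAC])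
  refine ⟨H, inferInstance, ι, fun a => gam (.inl (.inl a)),
    fun b => gam (.inr (b, false)) * (gam (.inr (b, true)))⁻¹, fun c => gam (.inl (.inr c)), a1,
    fun w => ?_⟩
  have b1 := a2 (w, true)
  have b2 := a2 (w, false)
  simp only [cones, Bool.false_eq_true, if_false, if_true, Bool.true_eq_false, false_and,
    true_and, ι.map_one, mul_one] at b1 b2
  simp only [b1, b2]
  rw [mul_assoc (gam _), a1.cen]
  split_ifs
  · group
  · rw [ι.map_one]
    group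

end Pool.Agent.P.MP_81321e_al.Ch
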