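import Mathlib

set_option autoImplicit false

namespace Pool.Agent.P.MP_81321e_al

open MonoidAlgebra
open scoped InnerProductSpace

section Shift

variable {ι : Type*}

/-- Real square summable families. -/
abbrev L2 (ι : Type*) := lp (fun _ : ι => ℝ) 2

/-- Reindexing of square summable families. -/
noncomputable def shift (σ : ι ≃ ι) (v : L2 ι) : L2 ι :=
  ⟨fun x => v (σ x), by
    have h : (0 : ℝ) < (2 : ENNReal).toReal := by norm_num
    have h1 := (lp.memℓp v).summable h
    exact memℓp_gen ((σ.summable_iff (f := fun i => ‖v i‖ ^ (2 : ENNReal).toReal)).2 h1)⟩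

theorem shift_apply (σ : ι ≃ ι) (v : L2 ι) (x : ι) : shift σ v x = v (σ x) := rfl

theorem inner_shift (σ : ι ≃ ι) (a b : L2 ι) : ⟪shift σ a, shift σ b⟫_ℝ = ⟪a, b⟫_ℝ := by
  rw [lp.inner_eq_tsum, lp.inner_eq_tsum]
  exact σ.tsum_eq (fun i => ⟪a i, b i⟫_ℝ)

theorem continuous_eval (x : ι) : Continuous fun v : L2 ι => v x :=
  (lp.evalCLM ℝ (fun _ : ι => ℝ) 2 x).continuous

open Classical in
/-- The vector attached to a finitely supported family. -/
noncomputable def vec (f : ι →₀ ℝ) : L2 ι := f.sum fun x c => lp.single 2 x c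

theorem vec_apply (f : ι →₀ ℝ) (x : ι) : vec f x = f x := by
  classical
  rw [vec, Finsupp.sum, lp.coeFn_sum, Finset.sum_apply]
  simp only [lp.single_apply, Pi.single_apply]
  rw [Finset.sum_ite_eq]
  split_ifs with h
  · rfl
  · exact (Finsupp.notMem_support_iff.1 h).symm

theorem inner_vec (f : ι →₀ ℝ) (v : L2 ι) : ⟪vec f, v⟫_ℝ = f.sum fun x c => c * v x := by
  classical
  rw [vec, Finsupp.sum, sum_inner, Finsupp.sum]
  refine Finset.sum_congr rfl fun x _ => ?_
  rw [lp.inner_single_left]
  simp [mul_comm]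

end Shift

variable {G : Type*} [Group G] {n : Type*} [Fintype n]

/-- The closed subspace of vectors fixed by `q`. -/
def fixSp (q : Matrix n n (MonoidAlgebra ℝ G)) : Submodule ℝ (L2 (n × G)) where
  carrier := {v | ∀ j g, v (j, g) = ∑ i, (q j i).coeff.sum fun h c => c * v (i, h⁻¹ * g)}
  add_mem' := by
    intro a b ha hb j g
    rw [lp.coeFn_add, Pi.add_apply, ha j g, hb j g, ← Finset.sum_add_distrib]
    refine Finset.sum_congr rfl fun i _ => ?_
    simp [Finsupp.sum, mul_add, Finset.sum_add_distrib]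
  zero_mem' := by
    intro j g
    simp
  smul_mem' := by
    intro c a ha j g
    rw [lp.coeFn_smul, Pi.smul_apply, ha j g, smul_eq_mul, Finset.mul_sum]
    refine Finset.sum_congr rfl fun i _ => ?_
    simp [Finsupp.sum, Finset.mul_sum, mul_left_comm]

theorem isClosed_fixSp (q : Matrix n n (MonoidAlgebra ℝ G)) :
    IsClosed (fixSp q : Set (L2 (n × G))) := by
  have : (fixSp q : Set (L2 (n × G))) = ⋂ j, ⋂ g,
      {v | v (j, g) = ∑ i, (q j i).coeff.sum fun h c => c * v (i, h⁻¹ * g)} := by
    ext v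
    simp only [Set.mem_iInter]
    rfl
  rw [this]
  refine isClosed_iInter fun j => isClosed_iInter fun g => isClosed_eq (continuous_eval _) ?_
  refine continuous_finsetSum _ fun i _ => continuous_finsetSum _ fun h _ => ?_
  exact continuous_const.mul (continuous_eval _)

/-- Right translation on the index set. -/
def rt (n : Type*) (g : G) : n × G ≃ n × G := (Equiv.refl n).prodCongr (Equiv.mulRight g)

theorem shift_mem {q : Matrix n n (MonoidAlgebra ℝ G)} {v : L2 (n × G)} (hv : v ∈ fixSp q)
    (g : G) : shift (rt n g) v ∈ fixSp q := by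
  intro j h
  simpa [shift_apply, rt, mul_assoc] using hv j (h * g)

/-- Kaplansky: an idempotent matrix over a real group algebra with zero trace vanishes. -/
theorem kaplansky (q : Matrix n n (MonoidAlgebra ℝ G)) (hq : q * q = q)
    (htr : q.trace.coeff 1 = 0) : q = 0 := by
  classical
  have : CompleteSpace (fixSp q) := (isClosed_fixSp q).completeSpace_coe
  set U := fixSp q with hU
  let p : n → L2 (n × G) := fun j => U.starProjection (lp.single 2 (j, 1) 1)
  have hpU : ∀ j, p j ∈ U := fun j => U.starProjection_apply_mem _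
  have hp1 : ∀ j, ∀ v ∈ U, ⟪p j, v⟫_ℝ = v (j, 1) := by
    intro j v hv
    have h := U.starProjection_inner_eq_zero (lp.single 2 (j, 1) 1) v hv
    rw [inner_sub_left, sub_eq_zero, lp.inner_single_left] at h
    rw [← h]; simp
  have hp2 : ∀ j g, ∀ v ∈ U, v (j, g) = ⟪p j, shift (rt n g) v⟫_ℝ := by
    intro j g v hv
    rw [hp1 j _ (shift_mem hv g), shift_apply]
    simp [rt]
  have hsym : ∀ i j g, p i (j, g) = p j (i, g⁻¹) := by
    intro i j g
    rw [hp2 j g _ (hpU i), hp2 i g⁻¹ _ (hpU j), ← inner_shift (rt n g⁻¹), real_inner_comm]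
    congr 1
    ext ⟨x, y⟩
    simp [shift_apply, rt]
  -- the columns of q
  let u : n → L2 (n × G) := fun i => ∑ j, vec (((q j i).coeff).mapDomain (Prod.mk j))
  have hu : ∀ i j g, u i (j, g) = (q j i).coeff g := by
    intro i j g
    simp only [u]
    rw [lp.coeFn_sum, Finset.sum_apply, Finset.sum_eq_single j]
    · rw [vec_apply, Finsupp.mapDomain_apply (Prod.mk_right_injective j)]
    · intro k _ hk
      rw [vec_apply, Finsupp.mapDomain_of_notMem_range]
      rintro ⟨x, hx⟩
      exact hk (congrArg Prod.fst hx)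
    · simp
  have huU : ∀ i, u i ∈ U := by
    intro i j g
    simp only [hu]
    conv_lhs => rw [← hq, Matrix.mul_apply, coeff_sum, Finsupp.finsetSum_apply]
    exact Finset.sum_congr rfl fun k _ => coeff_mul_apply_left _ _ _
  have hui : ∀ i v, ⟪u i, v⟫_ℝ = ∑ j, (q j i).coeff.sum fun h c => c * v (j, h) := by
    intro i v
    simp only [u]
    rw [sum_inner]
    refine Finset.sum_congr rfl fun j _ => ?_
    rw [inner_vec, Finsupp.sum_mapDomain_index_inj (Prod.mk_right_injective j)]
  have key : q.trace.coeff 1 = ∑ j, ⟪p j, p j⟫_ℝ := by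
    calc q.trace.coeff 1 = ∑ i, u i (i, 1) := by
          simp [Matrix.trace, hu, Finsupp.finsetSum_apply]
      _ = ∑ i, ∑ j, (q j i).coeff.sum fun h c => c * p j (i, h⁻¹ * 1) := by
          refine Finset.sum_congr rfl fun i _ => ?_
          rw [← hp1 i _ (huU i), real_inner_comm, hui]
          simp only [hsym i, mul_one]
      _ = ∑ j, ⟪p j, p j⟫_ℝ := by
          rw [Finset.sum_comm]
          refine Finset.sum_congr rfl fun j _ => ?_
          rw [hp1 j _ (hpU j), hpU j j 1]
  rw [htr, eq_comm, Finset.sum_eq_zero_iff_of_nonneg fun j _ => real_inner_self_nonneg] at key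
  ext j i g
  have h0 : p j = 0 := inner_self_eq_zero.1 (key j (Finset.mem_univ j))
  rw [← hu, hp2 j g _ (huU i), h0, inner_zero_left]
  simp

end Pool.Agent.P.MP_81321e_al
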