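import Mathlib

set_option autoImplicit false

namespace Pool.Agent.P.MP_81321e_al

open Matrix

section A

variable {R : Type*} [Ring R] {n : Type} [Fintype n] [DecidableEq n]

/-- `Z` factors through a finite direct sum of copies of the corner idempotent `e`. -/
def Fac (e : R) (Z : Matrix n n R) : Prop :=
  ∃ (m : ℕ) (A : Matrix n (Fin m) R) (B : Matrix (Fin m) n R), A * B = Z ∧
    (∀ i s, A i s * e = A i s) ∧ ∀ s k, e * B s k = B s k

omit [Fintype n] [DecidableEq n] in
theorem Fac.zero (e : R) : Fac e (0 : Matrix n n R) :=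
  ⟨0, 0, 0, by simp, by simp, by simp⟩

omit [Fintype n] [DecidableEq n] in
theorem Fac.add {e : R} {Z W : Matrix n n R} (h : Fac e Z) (h' : Fac e W) : Fac e (Z + W) := by
  obtain ⟨m, A, B, h1, h2, h3⟩ := h
  obtain ⟨m', A', B', h1', h2', h3'⟩ := h'
  refine ⟨m + m', (fromCols A A').submatrix id finSumFinEquiv.symm,
    (fromRows B B').submatrix finSumFinEquiv.symm id, ?_, ?_, ?_⟩
  · rw [submatrix_mul_equiv, fromCols_mul_fromRows, h1, h1']; rfl
  · intro i s
    simp only [submatrix_apply, id]
    rcases finSumFinEquiv.symm s with s | s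
    · simpa using h2 i s
    · simpa using h2' i s
  · intro s k
    simp only [submatrix_apply, id]
    rcases finSumFinEquiv.symm s with s | s
    · simpa using h3 s k
    · simpa using h3' s k

omit [Fintype n] in
theorem Fac.single {e : R} (he : e * e = e) (i k : n) (x y : R) :
    Fac e (Matrix.single i k (x * e * y)) := by
  refine ⟨1, Matrix.single i 0 (x * e), Matrix.single 0 k (e * y), ?_, ?_, ?_⟩
  · rw [single_mul_single_same, mul_assoc, ← mul_assoc e, he, mul_assoc]
  · intro i' s
    rw [Matrix.single_apply]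
    split_ifs
    · rw [mul_assoc, he]
    · simp
  · intro s k'
    rw [Matrix.single_apply]
    split_ifs
    · rw [← mul_assoc, he]
    · simp

theorem fac_of_mem {e : R} (he : e * e = e) (Z : Matrix n n R)
    (hZ : ∀ i k, Z i k ∈ AddSubmonoid.closure {r : R | ∃ x y, r = x * e * y}) : Fac e Z := by
  rw [matrix_eq_sum_single Z]
  refine Finset.sum_induction _ (Fac e) (fun _ _ => Fac.add) (Fac.zero e) fun i _ => ?_
  refine Finset.sum_induction _ (Fac e) (fun _ _ => Fac.add) (Fac.zero e) fun k _ => ?_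
  have := hZ i k
  generalize Z i k = z at this
  induction this using AddSubmonoid.closure_induction with
  | mem r hr =>
    obtain ⟨x, y, rfl⟩ := hr
    exact Fac.single he i k x y
  | zero => simpa using Fac.zero e
  | add a b _ _ ha hb => rw [single_add]; exact ha.add hb

theorem map_mul_nonUnital {S : Type*} [Ring S] (j : S →ₙ+* R) {a b c : Type*} [Fintype b]
    (P : Matrix a b S) (Q : Matrix b c S) : (P * Q).map j = P.map j * Q.map j := by
  ext i k
  simp [Matrix.mul_apply, map_sum]

/-- An idempotent matrix over the ideal generated by `e` is equivalent to an idempotent matrix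
over the corner ring. -/
theorem exists_corner_idem {S : Type*} [Ring S] (j : S →ₙ+* R) (hj : Function.Injective j)
    (hr : ∀ r, ∃ s, j s = j 1 * r * j 1) (E : Matrix n n R) (hE : E * E = E)
    (hmem : ∀ i k, E i k ∈ AddSubmonoid.closure {r : R | ∃ x y, r = x * j 1 * y}) :
    ∃ (m : ℕ) (q : Matrix (Fin m) (Fin m) S) (A : Matrix n (Fin m) R) (B : Matrix (Fin m) n R),
      q * q = q ∧ A * B = E ∧ B * A = q.map j := by
  have he : j 1 * j 1 = j 1 := by rw [← map_mul, one_mul]
  obtain ⟨m, A, B, h1, h2, h3⟩ := fac_of_mem he E hmem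
  have hc : ∀ s t, ∃ z, j z = (B * E * A) s t := by
    intro s t
    obtain ⟨z, hz⟩ := hr ((B * E * A) s t)
    refine ⟨z, hz.trans ?_⟩
    simp only [Matrix.mul_apply, Finset.mul_sum, Finset.sum_mul]
    refine Finset.sum_congr rfl fun i _ => Finset.sum_congr rfl fun k _ => ?_
    rw [← mul_assoc, ← mul_assoc, h3, mul_assoc _ (A i t), h2]
  choose q hq using hc
  have hq' : (Matrix.of q).map j = B * E * A := by
    ext s t; exact hq s t
  refine ⟨m, Matrix.of q, E * A, B * E, ?_, ?_, ?_⟩
  · apply Matrix.map_injective hj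
    simp only
    rw [map_mul_nonUnital, hq']
    calc B * E * A * (B * E * A) = B * (E * (A * B) * E) * A := by simp [Matrix.mul_assoc]
      _ = _ := by rw [h1, hE, hE]
  · calc E * A * (B * E) = E * (A * B) * E := by simp [Matrix.mul_assoc]
      _ = E := by rw [h1, hE, hE]
  · rw [hq']
    calc B * E * (E * A) = B * (E * E) * A := by simp [Matrix.mul_assoc]
      _ = _ := by rw [hE]

end A

section B

variable {R : Type*} [Ring R] {Λ : Type*} [AddCommMonoid Λ]

theorem trace_flip (τ : R →+ Λ) (hτ : ∀ x y, τ (x * y) = τ (y * x)) {a b : Type*} [Fintype a]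
    [Fintype b] (A : Matrix a b R) (B : Matrix b a R) :
    τ (A * B).trace = τ (B * A).trace := by
  simp only [Matrix.trace, Matrix.diag, Matrix.mul_apply, map_sum]
  rw [Finset.sum_comm]
  exact Finset.sum_congr rfl fun _ _ => Finset.sum_congr rfl fun _ _ => hτ _ _

end B

section C

variable {R R' : Type*} [Ring R] [Ring R'] (ρ : R →+* R') (p k : ℕ)

theorem nilpotent_of_map_eq_zero (hker : ∀ x, ρ x = 0 → ∃ y, x = p • y)
    (hp : ∀ y : R, p ^ k • y = 0) {n : Type*} [Fintype n] [DecidableEq n] (Z : Matrix n n R)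
    (hZ : Z.map ρ = 0) : IsNilpotent Z := by
  have : ∀ i j, ∃ y, Z i j = p • y := fun i j => hker _ (congrFun (congrFun hZ i) j)
  choose Y hY using this
  have hZY : Z = p • Matrix.of Y := by
    ext i j; simpa using hY i j
  refine ⟨k, ?_⟩
  rw [hZY, smul_pow]
  ext i j
  simpa using hp _

theorem exists_inv_of_map_eq_one (hker : ∀ x, ρ x = 0 → ∃ y, x = p • y)
    (hp : ∀ y : R, p ^ k • y = 0) {n : Type*} [Fintype n] [DecidableEq n] (U : Matrix n n R)
    (hU : U.map ρ = 1) : ∃ V : Matrix n n R, U * V = 1 ∧ V * U = 1 ∧ V.map ρ = 1 := by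
  have h1 : IsNilpotent (U - 1) := by
    apply nilpotent_of_map_eq_zero ρ p k hker hp
    have : (U - 1).map ρ = ρ.mapMatrix (U - 1) := rfl
    rw [this, map_sub, map_one, RingHom.mapMatrix_apply, hU, sub_self]
  obtain ⟨u, hu⟩ := h1.isUnit_add_one
  rw [sub_add_cancel] at hu
  refine ⟨↑u⁻¹, by rw [← hu]; simp, by rw [← hu]; simp, ?_⟩
  have h2 : (U * (↑u⁻¹ : Matrix n n R)).map ρ = 1 := by
    rw [← hu]; simp
  rwa [Matrix.map_mul, hU, one_mul] at h2

theorem exists_map_eq (hs : Function.Surjective ρ) {a b : Type*} (A' : Matrix a b R') :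
    ∃ A : Matrix a b R, A.map ρ = A' := by
  choose f hf using hs
  exact ⟨A'.map f, by ext i j; simp [hf]⟩

theorem lift_right_inv (hs : Function.Surjective ρ) (hker : ∀ x, ρ x = 0 → ∃ y, x = p • y)
    (hp : ∀ y : R, p ^ k • y = 0) {n : Type*} [Fintype n] [DecidableEq n]
    (X' Y' : Matrix n n R') (h : X' * Y' = 1) :
    ∃ X Y : Matrix n n R, X * Y = 1 ∧ X.map ρ = X' ∧ Y.map ρ = Y' := by
  obtain ⟨X, hX⟩ := exists_map_eq ρ hs X'
  obtain ⟨Y, hY⟩ := exists_map_eq ρ hs Y'
  obtain ⟨V, h1, -, h3⟩ := exists_inv_of_map_eq_one ρ p k hker hp (X * Y)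
    (by rw [Matrix.map_mul, hX, hY, h])
  exact ⟨X, Y * V, by rw [← mul_assoc, h1], hX, by rw [Matrix.map_mul, h3, hY, mul_one]⟩

/-- Equivalence of idempotent matrices lifts along a nilpotent kernel, so traces agree. -/
theorem trace_eq_of_equiv {Λ : Type*} [AddCommGroup Λ] (τ : R →+ Λ)
    (hτ : ∀ x y, τ (x * y) = τ (y * x))
    (hs : Function.Surjective ρ) (hker : ∀ x, ρ x = 0 → ∃ y, x = p • y)
    (hp : ∀ y : R, p ^ k • y = 0) {n m : Type*} [Fintype n] [DecidableEq n] [Fintype m]
    [DecidableEq m] (a : Matrix n n R) (b : Matrix m m R) (ha : a * a = a) (hb : b * b = b)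
    (A' : Matrix n m R') (B' : Matrix m n R') (h1 : A' * B' = a.map ρ) (h2 : B' * A' = b.map ρ) :
    τ a.trace = τ b.trace := by
  obtain ⟨x, hx⟩ := exists_map_eq ρ hs A'
  obtain ⟨y, hy⟩ := exists_map_eq ρ hs B'
  have ha' : a.map ρ * a.map ρ = a.map ρ := by rw [← Matrix.map_mul, ha]
  have hb' : b.map ρ * b.map ρ = b.map ρ := by rw [← Matrix.map_mul, hb]
  set u : Matrix n n R := (1 - a) + a * x * b * y * a with hu
  have hu1 : u.map ρ = 1 := by
    have e1 : u.map ρ = ρ.mapMatrix u := rfl
    rw [e1, hu, map_add, map_sub, map_one]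
    simp only [RingHom.mapMatrix_apply, Matrix.map_mul, hx, hy]
    rw [← h2]
    have : a.map ρ * A' * (B' * A') * B' * a.map ρ
        = a.map ρ * (A' * B') * (A' * B') * a.map ρ := by simp [Matrix.mul_assoc]
    rw [this, h1, ha', ha', ha', sub_add_cancel]
  obtain ⟨v, hv1, hv2, hv3⟩ := exists_inv_of_map_eq_one ρ p k hker hp u hu1
  have hau : a * u = a * x * b * y * a := by
    rw [hu, mul_add, mul_sub, mul_one, ha, sub_self, zero_add]
    simp only [← Matrix.mul_assoc, ha]
  have hua : u * a = a * x * b * y * a := by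
    rw [hu, add_mul, sub_mul, one_mul, ha, sub_self, zero_add, Matrix.mul_assoc _ a a, ha]
  have hva : a * v = v * a := by
    calc a * v = (v * u) * a * v := by rw [hv2, one_mul]
      _ = v * (a * u) * v := by rw [hau, ← hua]; simp [Matrix.mul_assoc]
      _ = v * a := by rw [mul_assoc, mul_assoc, hv1, mul_one]
  set x' : Matrix n m R := a * x * b with hx'
  set y' : Matrix m n R := b * y * a * v with hy'
  have hxy : x' * y' = a := by
    calc x' * y' = (a * x * (b * b) * y * a) * v := by simp [hx', hy', Matrix.mul_assoc]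
      _ = a := by rw [hb, ← hau, mul_assoc, hv1, mul_one]
  have hbx : x' * b = x' := by rw [hx', Matrix.mul_assoc _ b b, hb]
  have hby : b * y' = y' := by
    rw [hy']; simp only [← Matrix.mul_assoc, hb]
  have hya : y' * a = y' := by
    rw [hy', Matrix.mul_assoc _ v a, ← hva, ← Matrix.mul_assoc, Matrix.mul_assoc _ a a, ha]
  have hd : (b - y' * x') * (b - y' * x') = b - y' * x' := by
    have e1 : y' * x' * (y' * x') = y' * x' := by
      calc y' * x' * (y' * x') = y' * (x' * y') * x' := by simp [Matrix.mul_assoc]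
        _ = _ := by rw [hxy, hya]
    rw [mul_sub, sub_mul, sub_mul, hb, e1, Matrix.mul_assoc y' x' b, hbx,
      ← Matrix.mul_assoc b y' x', hby, sub_self, sub_zero]
  have hn : IsNilpotent (b - y' * x') := by
    apply nilpotent_of_map_eq_zero ρ p k hker hp
    have e1 : (b - y' * x').map ρ = ρ.mapMatrix (b - y' * x') := rfl
    rw [e1, map_sub]
    simp only [RingHom.mapMatrix_apply, Matrix.map_mul, hx', hy', hx, hy, hv3, Matrix.mul_one]
    rw [← h1]
    have : b.map ρ * B' * (A' * B') * (A' * B' * A' * b.map ρ)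
        = b.map ρ * (B' * A') * (B' * A') * (B' * A') * b.map ρ := by simp [Matrix.mul_assoc]
    rw [this, h2, hb', hb', hb', hb', sub_self]
  have h0 : b - y' * x' = 0 := IsIdempotentElem.eq_zero_of_isNilpotent hd hn
  rw [sub_eq_zero] at h0
  rw [← hxy, trace_flip τ hτ, ← h0]

end C

end Pool.Agent.P.MP_81321e_al
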