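import Pool.Agent.P.MP_81321e_al.Tau
import Pool.Agent.P.MP_81321e_al.Morita

set_option autoImplicit false

namespace Pool.Agent.P.MP_81321e_al

open MonoidAlgebra

universe u

namespace Data

variable {M : Type*} [Monoid M] {G : Type*} [Group G] (D : Data M G)
variable (Λ : Type*) [CommRing Λ]

/-- The ideal spanned by the elements of `M` that are not `J`-above `e`. -/
def low : Ideal (MonoidAlgebra Λ M) where
  carrier := {f | ∀ m, JLe (D.ι 1) m → f.coeff m = 0}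
  add_mem' := by
    intro a b ha hb m hm
    simp [ha m hm, hb m hm]
  zero_mem' := by intro m _; simp
  smul_mem' := by
    classical
    intro c f hf m hm
    by_contra h
    have h1 := support_coeff_mul_subset c f (Finsupp.mem_support_iff.2 h)
    obtain ⟨s, -, t, ht, rfl⟩ := Finset.mem_mul.1 h1
    exact Finsupp.mem_support_iff.1 ht (hf t hm.of_mul_right)

theorem mem_low {f : MonoidAlgebra Λ M} :
    f ∈ D.low Λ ↔ ∀ m, JLe (D.ι 1) m → f.coeff m = 0 := Iff.rfl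

instance : (D.low Λ).IsTwoSided where
  mul_mem_of_left := by
    classical
    intro f c hf m hm
    by_contra h
    have h1 := support_coeff_mul_subset f c (Finsupp.mem_support_iff.2 h)
    obtain ⟨s, hs, t, -, rfl⟩ := Finset.mem_mul.1 h1
    exact Finsupp.mem_support_iff.1 hs (hf s hm.of_mul_left)

theorem single_mem_low {m : M} (hm : ¬ JLe (D.ι 1) m) (c : Λ) : single m c ∈ D.low Λ := by
  intro m' hm'
  rw [coeff_single, Finsupp.single_eq_of_ne]
  rintro rfl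
  exact hm hm'

/-- The quotient ring. -/
abbrev Q := MonoidAlgebra Λ M ⧸ D.low Λ

/-- The quotient map. -/
noncomputable abbrev pr : MonoidAlgebra Λ M →+* D.Q Λ := Ideal.Quotient.mk (D.low Λ)

/-- The group algebra as the corner of the quotient ring. -/
noncomputable def j : MonoidAlgebra Λ G →ₙ+* D.Q Λ :=
  (D.pr Λ).toNonUnitalRingHom.comp (mapDomainNonUnitalRingHom Λ D.ι)

theorem j_apply (s : MonoidAlgebra Λ G) : D.j Λ s = D.pr Λ (mapDomain D.ι s) := rfl

theorem j_single (g : G) (c : Λ) : D.j Λ (single g c) = D.pr Λ (single (D.ι g) c) := by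
  rw [j_apply, mapDomain_single]

theorem j_one : D.j Λ 1 = D.pr Λ (single (D.ι 1) 1) := D.j_single Λ 1 1

theorem j_inj : Function.Injective (D.j Λ) := by
  rw [injective_iff_map_eq_zero]
  intro s hs
  rw [j_apply, Ideal.Quotient.eq_zero_iff_mem, mem_low] at hs
  ext g
  have := hs (D.ι g) (D.rel_self g).jle
  simpa [mapDomain, Finsupp.mapDomain_apply D.inj] using this

theorem j_range (r : D.Q Λ) : ∃ s, D.j Λ s = D.j Λ 1 * r * D.j Λ 1 := by
  obtain ⟨f, rfl⟩ := Ideal.Quotient.mk_surjective r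
  induction f using MonoidAlgebra.induction_linear with
  | zero => exact ⟨0, by simp⟩
  | add x y hx hy =>
    obtain ⟨s, hs⟩ := hx
    obtain ⟨t, ht⟩ := hy
    exact ⟨s + t, by rw [map_add, map_add, mul_add, add_mul, hs, ht]⟩
  | single m c =>
    rw [j_one, ← map_mul, ← map_mul, single_mul_single, single_mul_single, one_mul, mul_one]
    by_cases h : JLe (D.ι 1) (D.ι 1 * m * D.ι 1)
    · obtain ⟨g, hg⟩ := D.full _ (by rw [← mul_assoc, ← mul_assoc, D.one_mul_ι])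
        (by rw [mul_assoc, D.one_mul_ι]) h
      exact ⟨single g c, by rw [j_single, hg]⟩
    · exact ⟨0, by rw [map_zero, eq_comm, Ideal.Quotient.eq_zero_iff_mem]
                   exact D.single_mem_low Λ h c⟩

theorem mk_mem_closure (f : MonoidAlgebra Λ M)
    (hf : ∀ t ∈ f.coeff.support, JLe (D.ι 1) t → JLe t (D.ι 1)) :
    D.pr Λ f ∈ AddSubmonoid.closure {r : D.Q Λ | ∃ x y, r = x * D.j Λ 1 * y} := by
  rw [← sum_coeff_single f, Finsupp.sum, map_sum]
  refine AddSubmonoid.sum_mem _ fun t ht => ?_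
  by_cases h : JLe (D.ι 1) t
  · obtain ⟨x, y, hxy⟩ := hf t ht h
    apply AddSubmonoid.subset_closure
    refine ⟨D.pr Λ (single x (f.coeff t)), D.pr Λ (single y 1), ?_⟩
    rw [j_one, ← map_mul, ← map_mul, single_mul_single, single_mul_single, mul_one, mul_one,
      ← hxy]
  · rw [Ideal.Quotient.eq_zero_iff_mem.2 (D.single_mem_low Λ h _)]
    exact zero_mem _

variable {Λ}

theorem tau_low (ψ : G → Λ) (f : MonoidAlgebra Λ M) (hf : f ∈ D.low Λ) : D.tau ψ f = 0 := by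
  rw [← sum_coeff_single f, Finsupp.sum, map_sum]
  refine Finset.sum_eq_zero fun t ht => ?_
  rw [tau_single, D.tau0_zero ψ (fun h => Finsupp.mem_support_iff.1 ht (hf t h)), mul_zero]

/-- The trace on the quotient ring. -/
noncomputable def tauQ (ψ : G → Λ) : D.Q Λ →+ Λ :=
  QuotientAddGroup.lift (D.low Λ).toAddSubgroup (D.tau ψ) (fun f hf => D.tau_low ψ f hf)

theorem tauQ_mk (ψ : G → Λ) (f : MonoidAlgebra Λ M) : D.tauQ ψ (D.pr Λ f) = D.tau ψ f := rfl

theorem tauQ_comm {ψ : G → Λ} (hψ : ∀ g c, ψ (c * g * c⁻¹) = ψ g) (x y : D.Q Λ) :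
    D.tauQ ψ (x * y) = D.tauQ ψ (y * x) := by
  obtain ⟨f, rfl⟩ := Ideal.Quotient.mk_surjective x
  obtain ⟨g, rfl⟩ := Ideal.Quotient.mk_surjective y
  rw [← map_mul, ← map_mul, tauQ_mk, tauQ_mk, D.tau_comm hψ]

theorem tauQ_j {ψ : G → Λ} (hψ : ∀ g c, ψ (c * g * c⁻¹) = ψ g) (s : MonoidAlgebra Λ G) :
    D.tauQ ψ (D.j Λ s) = s.coeff.sum fun g c => c * ψ g := by
  induction s using MonoidAlgebra.induction_linear with
  | zero => simp
  | add x y hx hy =>
    rw [map_add, map_add, hx, hy, coeff_add, Finsupp.sum_add_index'] <;> simp [add_mul]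
  | single g c =>
    rw [j_single, tauQ_mk, tau_single, D.tau0_eq hψ (D.rel_self g), coeff_single,
      Finsupp.sum_single_index]
    simp

theorem tauQ_trace_map {ψ : G → Λ} (hψ : ∀ g c, ψ (c * g * c⁻¹) = ψ g) {m : Type*} [Fintype m]
    (q : Matrix m m (MonoidAlgebra Λ G)) :
    D.tauQ ψ (q.map (D.j Λ)).trace = q.trace.coeff.sum fun g c => c * ψ g := by
  rw [← D.tauQ_j hψ]
  congr 1
  simp [Matrix.trace, map_sum]

theorem tauQ_defect {ψ : G → Λ} (hψ : ∀ g c, ψ (c * g * c⁻¹) = ψ g) {n : Type*} [Fintype n]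
    [DecidableEq n] (X Y : Matrix n n (D.Q Λ)) (h : X * Y = 1) :
    D.tauQ ψ (1 - Y * X).trace = 0 := by
  rw [Matrix.trace_sub, map_sub, trace_flip _ (D.tauQ_comm hψ), h, sub_self]

/-- Change of coefficients. -/
noncomputable def mapQ {Λ' : Type*} [CommRing Λ'] (φ : Λ →+* Λ') : D.Q Λ →+* D.Q Λ' :=
  Ideal.quotientMap (D.low Λ') (mapRingHom M φ) (by
    intro f hf m hm
    rw [coeff_mapRingHom, hf m hm, map_zero])

theorem mapQ_mk {Λ' : Type*} [CommRing Λ'] (φ : Λ →+* Λ') (f : MonoidAlgebra Λ M) :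
    D.mapQ φ (D.pr Λ f) = D.pr Λ' (mapRingHom M φ f) := rfl

theorem mapQ_j {Λ' : Type*} [CommRing Λ'] (φ : Λ →+* Λ') (s : MonoidAlgebra Λ G) :
    D.mapQ φ (D.j Λ s) = D.j Λ' (mapRingHom G φ s) := by
  induction s using MonoidAlgebra.induction_linear with
  | zero => simp
  | add x y hx hy => simp only [map_add, hx, hy]
  | single g c => rw [j_single, mapQ_mk, mapRingHom_single, mapRingHom_single, j_single]

theorem mapQ_surjective {Λ' : Type*} [CommRing Λ'] (φ : Λ →+* Λ') (hφ : Function.Surjective φ) :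
    Function.Surjective (D.mapQ φ) := by
  intro r
  obtain ⟨f, rfl⟩ := Ideal.Quotient.mk_surjective r
  obtain ⟨f', hf'⟩ := MonoidAlgebra.map_surjective (M := M) φ.toAddMonoidHom hφ f
  exact ⟨D.pr Λ f', by rw [mapQ_mk, ← hf']; rfl⟩

theorem mapQ_ker {Λ' : Type*} [CommRing Λ'] (φ : Λ →+* Λ') (p : ℕ)
    (hφ : ∀ c, φ c = 0 → ∃ d, c = p • d) (x : D.Q Λ) (hx : D.mapQ φ x = 0) :
    ∃ y, x = p • y := by
  obtain ⟨f, rfl⟩ := Ideal.Quotient.mk_surjective x
  rw [mapQ_mk, Ideal.Quotient.eq_zero_iff_mem, mem_low] at hx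
  rw [← sum_coeff_single f, Finsupp.sum, map_sum]
  refine Finset.sum_induction _ (fun x => ∃ y, x = p • y) ?_ ⟨0, by simp⟩ fun t _ => ?_
  · rintro _ _ ⟨y, rfl⟩ ⟨y', rfl⟩
    exact ⟨y + y', by rw [smul_add]⟩
  · by_cases h : JLe (D.ι 1) t
    · have h1 := hx t h
      rw [coeff_mapRingHom] at h1
      obtain ⟨d, hd⟩ := hφ _ h1
      exact ⟨D.pr Λ (single t d), by rw [hd, ← map_nsmul, smul_single]⟩
    · exact ⟨0, by rw [Ideal.Quotient.eq_zero_iff_mem.2 (D.single_mem_low Λ h _), smul_zero]⟩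

end Data

theorem defect_idem {R : Type*} [Ring R] (X Y : R) (h : X * Y = 1) :
    (1 - Y * X) * (1 - Y * X) = 1 - Y * X := by
  have : Y * X * (Y * X) = Y * X := by
    rw [mul_assoc, ← mul_assoc X, h, one_mul]
  rw [mul_sub, mul_one, sub_mul, one_mul, this, sub_self, sub_zero]

/-- The main reduction: a one-sided inverse over `Λ[M]` yields a nonzero idempotent matrix over
the group algebra of a maximal subgroup. -/
theorem core {M : Type u} [Monoid M] (hM : Good M) {Λ : Type*} [CommRing Λ] {n : Type}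
    [Fintype n] [DecidableEq n] (X Y : Matrix n n (MonoidAlgebra Λ M)) (h : X * Y = 1)
    (h' : Y * X ≠ 1) :
    ∃ (G : Type u) (_ : Group G) (D : Data M G) (m : ℕ)
      (q : Matrix (Fin m) (Fin m) (MonoidAlgebra Λ G)) (A : Matrix n (Fin m) (D.Q Λ))
      (B : Matrix (Fin m) n (D.Q Λ)), q * q = q ∧ q ≠ 0 ∧
        A * B = (1 - Y * X).map (D.pr Λ) ∧ B * A = q.map (D.j Λ) := by
  classical
  set E := 1 - Y * X with hEdef
  have hE : E * E = E := defect_idem X Y h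
  have hE0 : E ≠ 0 := fun h0 => h' (sub_eq_zero.1 h0).symm
  set T : Finset M := Finset.univ.biUnion fun ik : n × n => (E ik.1 ik.2).coeff.support with hT
  have hmemT : ∀ t, t ∈ T ↔ ∃ i k, t ∈ (E i k).coeff.support := by
    intro t; simp [hT]
  have hne : T.Nonempty := by
    by_contra hc
    apply hE0
    ext i k t
    by_contra h1
    exact hc ⟨t, (hmemT t).2 ⟨i, k, Finsupp.mem_support_iff.2 h1⟩⟩
  have hTT : ∀ t ∈ T, ∃ s ∈ T, ∃ s' ∈ T, t = s * s' := by
    intro t ht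
    obtain ⟨i, k, ht⟩ := (hmemT t).1 ht
    rw [← hE, Matrix.mul_apply, coeff_sum] at ht
    obtain ⟨l, -, hl⟩ := Finset.mem_biUnion.1 (Finsupp.support_finsetSum ht)
    obtain ⟨s, hs, s', hs', rfl⟩ := Finset.mem_mul.1 (support_coeff_mul_subset _ _ hl)
    exact ⟨s, (hmemT s).2 ⟨_, _, hs⟩, s', (hmemT s').2 ⟨_, _, hs'⟩, rfl⟩
  obtain ⟨e, he, ⟨t, ht, het⟩, hmax⟩ := hM.exists_idem T hne hTT
  obtain ⟨G, _, D, rfl⟩ := hM.exists_data e he
  obtain ⟨m, q, A, B, h1, h2, h3⟩ := exists_corner_idem (D.j Λ) (D.j_inj Λ) (D.j_range Λ)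
    (E.map (D.pr Λ)) (by rw [← Matrix.map_mul, hE])
    (fun i k => D.mk_mem_closure Λ _ fun t ht => hmax t ((hmemT t).2 ⟨i, k, ht⟩))
  refine ⟨G, inferInstance, D, m, q, A, B, h1, ?_, h2, h3⟩
  rintro rfl
  have h4 : E.map (D.pr Λ) = 0 := by
    calc E.map (D.pr Λ) = E.map (D.pr Λ) * E.map (D.pr Λ) := by rw [← Matrix.map_mul, hE]
      _ = A * (B * A) * B := by rw [← h2]; simp [Matrix.mul_assoc]
      _ = 0 := by rw [h3]; simp
  obtain ⟨i, k, hik⟩ := (hmemT t).1 ht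
  have h5 : D.pr Λ (E i k) = 0 := congrFun (congrFun h4 i) k
  rw [Ideal.Quotient.eq_zero_iff_mem] at h5
  exact Finsupp.mem_support_iff.1 hik (h5 t het)

theorem map_defect {R S : Type*} [Ring R] [Ring S] (f : R →+* S) {n : Type*} [Fintype n]
    [DecidableEq n] (X Y : Matrix n n R) :
    (1 - Y * X).map f = 1 - Y.map f * X.map f := by
  have : (1 - Y * X).map f = f.mapMatrix (1 - Y * X) := rfl
  rw [this, map_sub, map_one, map_mul]; rfl

theorem map_mul_eq_one {R S : Type*} [Ring R] [Ring S] (f : R →+* S) {n : Type*} [Fintype n]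
    [DecidableEq n] {X Y : Matrix n n R} (h : X * Y = 1) : X.map f * Y.map f = 1 := by
  rw [← Matrix.map_mul, h]; simp

/-- Reduction, trace form. -/
theorem core_trace {M : Type u} [Monoid M] (hM : Good M) {Λ : Type*} [CommRing Λ] {n : Type}
    [Fintype n] [DecidableEq n] (X Y : Matrix n n (MonoidAlgebra Λ M)) (h : X * Y = 1)
    (h' : Y * X ≠ 1) :
    ∃ (G : Type u) (_ : Group G) (m : ℕ) (q : Matrix (Fin m) (Fin m) (MonoidAlgebra Λ G)),
      q * q = q ∧ q ≠ 0 ∧ q.trace.coeff 1 = 0 := by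
  classical
  obtain ⟨G, _, D, m, q, A, B, h1, h2, h3, h4⟩ := core hM X Y h h'
  refine ⟨G, inferInstance, m, q, h1, h2, ?_⟩
  obtain ⟨ψ, hψ0⟩ : ∃ ψ : G → Λ, ψ = fun g : G => if g = 1 then (1 : Λ) else 0 := ⟨_, rfl⟩
  have hψ : ∀ g c : G, ψ (c * g * c⁻¹) = ψ g := by
    intro g c
    simp [hψ0, mul_inv_eq_one]
  have e1 := D.tauQ_trace_map hψ q
  rw [← h4, trace_flip _ (D.tauQ_comm hψ), h3, map_defect,
    D.tauQ_defect hψ _ _ (map_mul_eq_one _ h)] at e1
  simp only [hψ0, mul_ite, mul_one, mul_zero, Finsupp.sum_ite_eq'] at e1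
  by_contra hc
  rw [if_pos (Finsupp.mem_support_iff.2 hc)] at e1
  exact hc e1.symm

/-- Reduction, lifted trace form. -/
theorem core_lift {M : Type u} [Monoid M] (hM : Good M) {Λ' : Type*} [CommRing Λ'] {n : Type}
    [Fintype n] [DecidableEq n] (X Y : Matrix n n (MonoidAlgebra Λ' M)) (h : X * Y = 1)
    (h' : Y * X ≠ 1) :
    ∃ (G : Type u) (_ : Group G) (ι : G →ₙ* M) (_ : Function.Injective ι) (m : ℕ)
      (q : Matrix (Fin m) (Fin m) (MonoidAlgebra Λ' G)), q * q = q ∧ q ≠ 0 ∧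
      ∀ (Λ : Type) [CommRing Λ] (φ : Λ →+* Λ') (p k : ℕ), Function.Surjective φ →
        (∀ c, φ c = 0 → ∃ d, c = p • d) → (p ^ k : Λ) = 0 →
        ∀ q' : Matrix (Fin m) (Fin m) (MonoidAlgebra Λ G), q' * q' = q' →
          q'.map (mapRingHom G φ) = q → ∀ ψ : G → Λ, (∀ g c, ψ (c * g * c⁻¹) = ψ g) →
            (q'.trace.coeff.sum fun g c => c * ψ g) = 0 := by
  obtain ⟨G, _, D, m, q, A, B, h1, h2, h3, h4⟩ := core hM X Y h h'
  refine ⟨G, inferInstance, D.ι, D.inj, m, q, h1, h2, ?_⟩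
  intro Λ _ φ p k hs hker hp q' hq' hqq ψ hψ
  have hs' := D.mapQ_surjective φ hs
  have hker' := D.mapQ_ker φ p hker
  have hp' : ∀ y : D.Q Λ, p ^ k • y = 0 := by
    intro y
    obtain ⟨f, rfl⟩ := Ideal.Quotient.mk_surjective y
    rw [← map_nsmul]
    have : p ^ k • f = 0 := by
      ext t
      rw [coeff_smul_apply, nsmul_eq_mul, Nat.cast_pow, hp, zero_mul]; rfl
    rw [this, map_zero]
  obtain ⟨X', Y', e1, e2, e3⟩ := lift_right_inv (D.mapQ φ) p k hs' hker' hp'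
    (X.map (D.pr Λ')) (Y.map (D.pr Λ')) (map_mul_eq_one _ h)
  rw [← D.tauQ_trace_map hψ, ← D.tauQ_defect hψ X' Y' e1, eq_comm]
  refine trace_eq_of_equiv (D.mapQ φ) p k _ (D.tauQ_comm hψ) hs' hker' hp' _ _
    (defect_idem X' Y' e1) (by rw [← map_mul_nonUnital, hq']) A B ?_ ?_
  · rw [h3, map_defect, map_defect, e2, e3]
  · rw [h4, ← hqq]
    ext i l
    simp [D.mapQ_j]

end Pool.Agent.P.MP_81321e_al
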