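import Pool.Agent.P.MP_81321e_al.ChAlg
import Pool.Agent.P.MP_81321e_al.Reduce
import Pool.Agent.P.MP_81321e_al.Kaplansky

/-! Wreath products divide the level of direct finiteness. -/

set_option autoImplicit false

namespace Pool.Agent.P.MP_81321e_al.Ch

open Finset MonoidAlgebra Pool.Agent.P.MP_4b59b0_al Pool.Agent.P.MP_e79ed6_al

theorem map_inj {R S n : Type} [Ring R] [Ring S] [Fintype n] [DecidableEq n] (f : R →+* S)
    (hf : Function.Injective f) (h : DF (Matrix n n S)) : DF (Matrix n n R) :=
  h.inj f.mapMatrix (Matrix.map_injective hf)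

theorem dom_inj {K A B n : Type} [Field K] [Group A] [Group B] [Fintype n] [DecidableEq n]
    (f : A →* B) (hf : Function.Injective f) (h : DF (Matrix n n (MonoidAlgebra K B))) :
    DF (Matrix n n (MonoidAlgebra K A)) :=
  map_inj (mapDomainRingHom K f) (mapDomain_injective hf) h

theorem ext_inj {k A n : Type} (K : Type) [Field k] [Field K] [Algebra k K] [Group A] [Fintype n]
    [DecidableEq n] (h : DF (Matrix n n (MonoidAlgebra K A))) :
    DF (Matrix n n (MonoidAlgebra k A)) :=
  map_inj (mapRingHom _ (algebraMap k K))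
    (map_injective (algebraMap k K).toAddMonoidHom (algebraMap k K).injective) h

/-- Matrix units in a corner. -/
theorem corner {R S m Q : Type} [Ring R] [Ring S] [Fintype m] [DecidableEq m] [Fintype Q]
    [DecidableEq Q] (f : R →+* S) (ε : S) (p q : Q → S) (he : ε * ε = ε)
    (hq : ∀ x y, q y * p x = if y = x then ε else 0) (hp : ∀ x, p x * ε = p x)
    (hc : ∀ r, Commute ε (f r)) (hi : ∀ r, ε * f r = 0 → r = 0) (h : DF (Matrix m m S)) :
    DF (Matrix (m × Q) (m × Q) R) := by
  intro a b hab
  obtain ⟨P, hP⟩ : ∃ P : Matrix m (m × Q) S,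
    P = Matrix.of fun i j => if i = j.1 then p j.2 else 0 := ⟨_, rfl⟩
  obtain ⟨T, hT⟩ : ∃ T : Matrix (m × Q) m S,
    T = Matrix.of fun j i => if j.1 = i then q j.2 else 0 := ⟨_, rfl⟩
  obtain ⟨E, hE⟩ : ∃ E, E = Matrix.scalar (m × Q) ε := ⟨_, rfl⟩
  have e1 : T * P = E := by
    ext ⟨i, x⟩ ⟨j, y⟩
    by_cases h1 : i = j <;> by_cases h2 : x = y <;>
      simp [hT, hP, hE, Matrix.mul_apply, hq, h1, h2]
  have e2 : P * E = P := by
    ext i j
    rw [hE, Matrix.scalar_apply, Matrix.mul_diagonal, hP, Matrix.of_apply]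
    split_ifs <;> simp [hp]
  have e3 : ∀ x : Matrix (m × Q) (m × Q) R, f.mapMatrix x * E = E * f.mapMatrix x := fun x => by
    ext i j
    rw [hE, Matrix.scalar_apply, Matrix.mul_diagonal, Matrix.diagonal_mul]
    exact (hc _).symm
  have key : ∀ x y : Matrix (m × Q) (m × Q) R,
      (P * f.mapMatrix x * T + (1 - P * T)) * (P * f.mapMatrix y * T + (1 - P * T)) =
        P * f.mapMatrix (x * y) * T + (1 - P * T) := fun x y => by
    have a1 : P * f.mapMatrix x * T * P = P * f.mapMatrix x := by
      rw [Matrix.mul_assoc _ T, e1, Matrix.mul_assoc, e3, ← Matrix.mul_assoc, e2]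
    have a2 : P * T * P = P := by rw [Matrix.mul_assoc, e1, e2]
    simp only [add_mul, mul_add, sub_mul, mul_sub, one_mul, mul_one, ← Matrix.mul_assoc, a1, a2,
      map_mul]
    abel
  have e4 := h _ _ ((key a b).trans (by rw [hab, map_one, Matrix.mul_one, add_sub_cancel]))
  rw [key] at e4
  have e5 : P * f.mapMatrix (b * a - 1) * T = 0 := by
    rw [map_sub, map_one, Matrix.mul_sub, Matrix.sub_mul, Matrix.mul_one, ← add_left_inj 1, ← e4]
    nth_rw 2 [← e4]
    abel
  have e6 : E * (E * f.mapMatrix (b * a - 1)) = 0 := by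
    rw [← e3, ← Matrix.mul_assoc, ← e1, ← Matrix.mul_assoc, Matrix.mul_assoc T, Matrix.mul_assoc T,
      e5, Matrix.mul_zero, Matrix.zero_mul]
  ext i j
  have e7 := congrFun (congrFun e6 i) j
  rw [hE, Matrix.scalar_apply, Matrix.diagonal_mul, Matrix.diagonal_mul, ← mul_assoc, he] at e7
  exact sub_eq_zero.1 (hi _ e7)

theorem coeff_inr_inl {K A B : Type} [Field K] [Group A] [Group B] (y : MonoidAlgebra K B)
    (r : MonoidAlgebra K A) (g : A) (b : B) :
    (mapDomainRingHom K (MonoidHom.inr A B) y * mapDomainRingHom K (MonoidHom.inl A B) r).coeff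
      (g, b) = y.coeff b * r.coeff g := by
  classical
  induction y using MonoidAlgebra.induction_linear with
  | zero => simp
  | add x y hx hy => simp only [map_add, add_mul, coeff_add, Finsupp.add_apply, hx, hy]
  | single b' s =>
    induction r using MonoidAlgebra.induction_linear with
    | zero => simp
    | add x y hx hy => simp only [map_add, mul_add, coeff_add, Finsupp.add_apply, hx, hy]
    | single g' t =>
      by_cases h1 : g' = g <;> by_cases h2 : b' = b <;> simp [single_mul_single, h1, h2]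

section

variable {K C Q : Type} [Field K] [CommGroup C] [Fintype C] [Group Q] [Fintype Q]

/-- The base group of the wreath product. -/
def base (C Q : Type) [Group C] [Group Q] : (Q → C) →* C ≀ᵣ Q where
  toFun b := ⟨b, 1⟩
  map_one' := rfl
  map_mul' a b := by ext <;> simp

theorem exists_eps [Nontrivial C] (hl : (Fintype.card C : K) ≠ 0) :
    ∃ ε : MonoidAlgebra K (C ≀ᵣ Q), ε ≠ 0 ∧ ε * ε = ε ∧
      ∀ q, q ≠ 1 → ε * of K _ (RegularWreathProduct.inl q) * ε = 0 := by
  classical
  let α : Q → MonoidAlgebra K (Q → C) := fun t =>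
    av K ((of K _).comp (MonoidHom.mulSingle (fun _ => C) t))
  have α1 : ∀ t, α t * α t = α t := fun t => av_idem hl
  let A := ∏ t ∈ univ.erase 1, α t
  have A1 : A * A = A := by rw [← prod_mul_distrib]; exact prod_congr rfl fun t _ => α1 t
  have A2 : ∀ q, q ≠ 1 → α q * A = A := fun q hq => by
    simp only [A]
    rw [← mul_prod_erase _ α (mem_erase.2 ⟨hq, mem_univ q⟩), ← mul_assoc, α1]
  let β := mapDomainAlgHom K K (base C Q)
  refine ⟨β ((1 - α 1) * A), fun h => ?_, ?_, fun q hq => ?_⟩
  · have h1 : (1 - α 1) * A = 0 := mapDomain_injective (f := base C Q)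
      (fun a b h => congrArg RegularWreathProduct.left h) (h.trans (mapDomain_zero _).symm)
    let γ := mapDomainAlgHom K K (Pi.evalMonoidHom (fun _ : Q => C) 1)
    have h2 := congrArg γ h1
    have h3 : γ A = 1 := by
      rw [map_prod]
      refine prod_eq_one fun t ht => ?_
      simp [α, γ, av, Pi.mulSingle_eq_of_ne (mem_erase.1 ht).1.symm, ← one_def,
        ← Nat.cast_smul_eq_nsmul K, smul_smul, hl]
    rw [map_mul, h3, mul_one, map_zero, map_sub, map_one] at h2
    refine av_ne (K := K) (MonoidHom.id C) Function.injective_id hl (Eq.trans ?_ h2)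
    simp only [α, av, map_smul, map_sum]
    simp [γ]
  · rw [← map_mul, mul_mul_mul_comm, A1, mul_sub, sub_mul _ _ (α 1), α1]
    simp
  · have h1 : of K _ (RegularWreathProduct.inl q) * β (α 1) =
        β (α q) * of K _ (RegularWreathProduct.inl q) := by
      simp only [α, av, map_smul, map_sum, mul_smul_comm, smul_mul_assoc, mul_sum, sum_mul]
      refine congrArg _ (sum_congr rfl fun c _ => ?_)
      simp only [β, MonoidHom.comp_apply, of_apply, mapDomainAlgHom_apply, mapDomain_single,
        single_mul_single]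
      congr 1
      ext x
      · simp [base, Pi.mulSingle_apply, inv_mul_eq_one, eq_comm]
      · simp [base]
    have h2 : (1 - α 1) * A * (1 - α q) = 0 := by
      rw [mul_assoc, mul_comm A, sub_mul _ _ A, A2 q hq]
      simp
    rw [mul_assoc]
    nth_rw 2 [map_mul]
    rw [← mul_assoc (of K _ _), map_sub, map_one, mul_sub, h1, mul_one, ← one_sub_mul,
      ← map_one β, ← map_sub, mul_assoc, ← mul_assoc, ← map_mul, h2]
    simp

theorem upper [Nontrivial C] (hl : (Fintype.card C : K) ≠ 0) (H m : Type) [Group H] [Fintype m]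
    [DecidableEq m] [DecidableEq Q] (h : DF (Matrix m m (MonoidAlgebra K (H × C ≀ᵣ Q)))) :
    DF (Matrix (m × Q) (m × Q) (MonoidAlgebra K H)) := by
  obtain ⟨ε, e0, e1, e2⟩ := exists_eps (K := K) (C := C) (Q := Q) hl
  let β := mapDomainRingHom K (MonoidHom.inr H (C ≀ᵣ Q))
  let r : Q →* MonoidAlgebra K (C ≀ᵣ Q) := (of K _).comp RegularWreathProduct.inl
  refine corner (mapDomainRingHom K (MonoidHom.inl _ _)) (β ε) (fun x => β (r x * ε))
    (fun y => β (ε * r y⁻¹)) (by rw [← map_mul, e1]) (fun x y => ?_)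
    (fun x => by rw [← map_mul, mul_assoc, e1]) (fun a => ?_) (fun a ha => ?_) h
  · rw [← map_mul, ← mul_assoc, mul_assoc ε, ← map_mul]
    split_ifs with h1
    · rw [h1, inv_mul_cancel, map_one, mul_one, e1]
    · exact (congrArg β (e2 _ fun h2 => h1 (inv_mul_eq_one.1 h2))).trans β.map_zero
  · clear e0 e1 e2
    induction ε using MonoidAlgebra.induction_linear with
    | zero => simp
    | add x y hx hy => rw [map_add]; exact hx.add_left hy
    | single b s =>
      induction a using MonoidAlgebra.induction_linear with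
      | zero => simp
      | add x y hx hy => rw [map_add]; exact hx.add_right hy
      | single g t => simp [β, Commute, SemiconjBy, single_mul_single, mul_comm]
  · obtain ⟨b, hb⟩ : ∃ b, ε.coeff b ≠ 0 := by
      by_contra hc; push Not at hc; exact e0 (by ext g; simp [hc])
    ext g
    have := coeff_inr_inl ε a g b
    rw [ha] at this
    simpa [hb] using this.symm

/-- The representation induced from the base group. -/
noncomputable def ind (K C Q H : Type) [Field K] [Group C] [Group Q] [Fintype Q] [DecidableEq Q]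
    [Group H] : H × C × C ≀ᵣ Q →* Matrix Q Q (MonoidAlgebra K (H × (Option Q → C))) where
  toFun g := Matrix.of fun x y => if x = g.2.2.right * y then
    single (g.1, fun o => o.elim g.2.1 fun t => g.2.2.left (x * t)) 1 else 0
  map_one' := by
    ext x y : 1
    rw [Matrix.one_apply, Matrix.of_apply, one_def]
    simp only [Prod.snd_one, RegularWreathProduct.one_right, one_mul]
    congr 3
    funext o
    cases o <;> rfl
  map_mul' g g' := by
    ext x z : 1
    rw [Matrix.mul_apply, sum_eq_single (g.2.2.right⁻¹ * x) (fun y _ hy => by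
      rw [Matrix.of_apply, if_neg fun h => hy (by simp [h]), zero_mul]) (by simp)]
    simp only [Matrix.of_apply, mul_inv_cancel_left, if_true, Prod.snd_mul, Prod.fst_mul,
      RegularWreathProduct.mul_right, inv_mul_eq_iff_eq_mul, mul_assoc]
    split_ifs
    · rw [single_mul_single, mul_one]
      congr 2
      funext o
      cases o <;> simp
    · rw [mul_zero]

omit [Fintype C] in
theorem ind_inj (H : Type) [Group H] [DecidableEq Q] :
    Function.Injective (lift K _ _ (ind K C Q H)) := by
  classical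
  have : ∀ (a : MonoidAlgebra K (H × C × C ≀ᵣ Q)) (g : H × C × C ≀ᵣ Q),
      (lift K _ _ (ind K C Q H) a g.2.2.right 1).coeff
        (g.1, fun o => o.elim g.2.1 fun t => g.2.2.left (g.2.2.right * t)) = a.coeff g := by
    intro a g
    induction a using MonoidAlgebra.induction_linear with
    | zero => simp
    | add x y hx hy => simp only [map_add, Matrix.add_apply, coeff_add, Finsupp.add_apply, hx, hy]
    | single g' s =>
      rw [lift_single, Matrix.smul_apply]
      simp only [ind, MonoidHom.coe_mk, OneHom.coe_mk, Matrix.of_apply, mul_one]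
      by_cases h : g' = g
      · simp [h]
      · rw [coeff_single, Finsupp.single_eq_of_ne' h]
        split_ifs with h1
        · rw [smul_single, coeff_single, Finsupp.single_eq_of_ne']
          intro h2
          obtain ⟨h3, h4⟩ := Prod.ext_iff.1 h2
          refine h (Prod.ext h3 (Prod.ext (congrFun h4 none) ?_))
          ext t
          · simpa using congrFun h4 (some (g.2.2.right⁻¹ * t))
          · exact h1.symm
        · simp
  intro a b h
  ext g
  rw [← this, h, this]

end

theorem unfold {R m Q : Type} [Ring R] [Fintype m] [DecidableEq m] [Fintype Q] [DecidableEq Q]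
    (h : DF (Matrix (m × Q) (m × Q) R)) : DF (Matrix m m (Matrix Q Q R)) :=
  h.inj (Matrix.compRingEquiv _ _ _) (RingEquiv.injective _)

/-- Elementary abelian factors of any rank are seen by one cyclic factor. -/
theorem absorb {K : Type} [Field K] {l : ℕ} [Fact l.Prime] (hl : (l : K) ≠ 0) (H T n : Type)
    [Group H] [Fintype T] [Fintype n] [DecidableEq n]
    (h : DF (Matrix n n (MonoidAlgebra K (H × Multiplicative (ZMod l))))) :
    DF (Matrix n n (MonoidAlgebra K (H × (T → Multiplicative (ZMod l))))) := by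
  classical
  let φ : (T → ZMod l) → (T → Multiplicative (ZMod l)) →* Multiplicative (ZMod l) := fun w =>
    { toFun := fun b => .ofAdd (∑ t, w t * (b t).toAdd)
      map_one' := by simp
      map_mul' := fun a b => by simp [mul_add, sum_add_distrib] }
  let ψ := fun w => mapDomainRingHom K ((MonoidHom.id H).prodMap (φ w))
  have cnt : ∀ b b₀, b ≠ b₀ → l * #{w | φ w b = φ w b₀ * .ofAdd 1} = l ^ Fintype.card T := by
    intro b b₀ hb
    obtain ⟨t, ht⟩ := Function.ne_iff.1 hb
    let g : (T → ZMod l) →+ ZMod l :=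
      { toFun := fun w => ∑ t, w t * ((b t).toAdd - (b₀ t).toAdd)
        map_zero' := by simp
        map_add' := fun a b => by simp [add_mul, sum_add_distrib] }
    have g1 : ∀ c, c ∈ Set.range g := fun c =>
      ⟨Pi.single t (c / ((b t).toAdd - (b₀ t).toAdd)), by
        have : (b t).toAdd - (b₀ t).toAdd ≠ 0 := sub_ne_zero.2 ht
        simp [g, Pi.single_apply, this]⟩
    have g2 := card_eq_sum_card_fiberwise (s := univ) (t := univ) (f := g) fun _ _ => by simp
    rw [sum_congr rfl fun c _ => AddMonoidHom.card_fiber_eq_of_mem_range g (g1 c) (g1 1),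
      sum_const, card_univ, card_univ, Fintype.card_fun, ZMod.card, smul_eq_mul] at g2
    rw [g2]
    congr 2
    refine filter_congr fun w _ => ?_
    simp only [φ, g, MonoidHom.coe_mk, OneHom.coe_mk, ← ofAdd_add, EmbeddingLike.apply_eq_iff_eq,
      AddMonoidHom.coe_mk, ZeroHom.coe_mk, mul_sub, sum_sub_distrib, sub_eq_iff_eq_add']
  have key : ∀ (x : MonoidAlgebra K (H × (T → Multiplicative (ZMod l)))) g b,
      (l : K) * ∑ w, (ψ w x).coeff (g, φ w b * .ofAdd 1) =
        l ^ Fintype.card T * ((ψ 0 x).coeff (g, 1) - x.coeff (g, b)) := by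
    intro x g b
    induction x using MonoidAlgebra.induction_linear with
    | zero => simp
    | add x y hx hy =>
      simp only [map_add, coeff_add, Finsupp.add_apply, sum_add_distrib, mul_add, hx, hy]
      ring
    | single p s =>
      obtain ⟨g', b'⟩ := p
      have e0 : φ 0 b' = 1 := by simp [φ]
      simp only [ψ, mapDomainRingHom_apply, mapDomain_single, MonoidHom.coe_prodMap, Prod.map_apply,
        MonoidHom.id_apply, coeff_single, Finsupp.single_apply, Prod.mk.injEq, e0]
      by_cases h1 : g' = g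
      · by_cases h2 : b' = b
        · simp [h1, h2]
        · have := congrArg (Nat.cast : ℕ → K) (cnt b' b h2)
          push_cast at this
          simp [h1, h2, ← sum_filter, ← this, mul_assoc]
      · simp [h1]
  intro a b hab
  have e1 : ∀ w, (ψ w).mapMatrix (b * a - 1) = 0 := fun w => by
    rw [map_sub, map_one, map_mul, h _ _ (by rw [← map_mul, hab, map_one]), sub_self]
  rw [← sub_eq_zero]
  ext i j ⟨g, c⟩
  have e2 : ∀ w, ψ w ((b * a - 1) i j) = 0 := fun w => congrFun (congrFun (e1 w) i) j
  generalize (b * a - 1) i j = x at e2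
  simpa [e2, hl] using key x g c

theorem levels' {K : Type} [Field K] {l : ℕ} [Fact l.Prime] (hl : (l : K) ≠ 0) (H : Type) [Group H]
    (d : ℕ) (hd : 1 ≤ d)
    (h1 : DF (Matrix (Fin (d * d)) (Fin (d * d)) (MonoidAlgebra K (H × Multiplicative (ZMod l)))))
    (h2 : ∃ m, ¬ DF (Matrix (Fin m) (Fin m) (MonoidAlgebra K (H × Multiplicative (ZMod l))))) :
    ∃ (F : Type) (_ : Group F) (_ : Finite F),
      DF (Matrix (Fin d) (Fin d) (MonoidAlgebra K (H × F))) ∧
      ¬ DF (Matrix (Fin (d + 1)) (Fin (d + 1)) (MonoidAlgebra K (H × F))) := by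
  classical
  have a1 := Nat.find_spec h2
  have a2 := fun m => Nat.find_min h2 (m := m)
  generalize Nat.find h2 = m at a1 a2
  have a3 : d * d < m := by
    by_contra hc
    exact a1 (h1.mono (by simpa using hc))
  obtain ⟨k, hk⟩ : ∃ k, k = (m - 1) / d := ⟨_, rfl⟩
  have b1 : d * k ≤ m - 1 := hk ▸ Nat.mul_div_le _ _
  have b2 : d ≤ k := hk ▸ (Nat.le_div_iff_mul_le hd).2 (by omega)
  have b3 : m - 1 < d * (k + 1) := hk ▸ Nat.lt_mul_div_succ _ hd
  have : NeZero k := ⟨by omega⟩
  have c1 := absorb hl H (Option (Multiplicative (ZMod k))) (Fin d × Multiplicative (ZMod k))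
    ((not_not.1 (a2 (m - 1) (by omega))).mono (by simpa using b1))
  have c2 := map_inj (lift K _ _ (ind K (Multiplicative (ZMod l)) (Multiplicative (ZMod k))
    H)).toRingHom (ind_inj H) (unfold c1)
  refine ⟨_, inferInstance, inferInstance, c2, fun hc => a1 ?_⟩
  let e : (H × Multiplicative (ZMod l)) × Multiplicative (ZMod l) ≀ᵣ Multiplicative (ZMod k) ≃* _ :=
    MulEquiv.prodAssoc
  have c3 := dom_inj e.toMonoidHom e.injective hc
  refine (upper (by simpa using hl) _ _ c3).mono ?_
  simp only [Fintype.card_fin, Fintype.card_prod, Fintype.card_multiplicative, ZMod.card]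
  rw [Nat.mul_succ] at b3
  rw [Nat.succ_mul]
  omega

/-- Every level occurs for a hyperbolic group, over every field of positive characteristic. -/
theorem main (K : Type) [Field K] (p : ℕ) [Fact p.Prime] [CharP K p] (d : ℕ) (hd : 1 ≤ d) :
    ∃ (G : Type) (_ : Group G), IsHyp G ∧ DF (Matrix (Fin d) (Fin d) (MonoidAlgebra K G)) ∧
      ¬ DF (Matrix (Fin (d + 1)) (Fin (d + 1)) (MonoidAlgebra K G)) := by
  classical
  obtain ⟨l, l1, l2⟩ := Nat.exists_infinite_primes (p + 1)
  have : Fact l.Prime := ⟨l2⟩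
  have hl : ∀ (k : Type) [Field k] [CharP k p], (l : k) ≠ 0 := fun k _ _ h => by
    have := (Nat.prime_dvd_prime_iff_eq Fact.out l2).1 ((CharP.cast_eq_zero_iff k p l).1 h)
    omega
  obtain ⟨δ, h⟩ := geoc
  obtain ⟨L, h⟩ := h ((2 * (d * d) + 6) * ((2 ^ (d * d) + 5) * δ + 2))
  obtain ⟨k, Ω, A, B, C, E, R, I, _, _, _, _, _, _, _, _, _, ⟨c⟩⟩ := csc p L
  obtain ⟨H, _, ι, gA, g, gC, ⟨a1, a2, a3, V, _, X, a4, a5, ⟨o⟩, a6⟩, a7⟩ :=
    h k Ω A B C E R I (Multiplicative (ZMod l)) c (.ofAdd 1)
  have : CharP k p := charP_of_injective_algebraMap (algebraMap (ZMod p) k).injective p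
  have hk : (Fintype.card (Multiplicative (ZMod l)) : k) ≠ 0 := by simpa using hl k
  obtain ⟨w, hw⟩ := exists_w (o := (of k H).comp ι) hk (z := .ofAdd 1) fun c =>
    ⟨c.toAdd.val, by simp [← ofAdd_nsmul]⟩
  have e1 := av_idem (o := (of k H).comp ι) hk
  have e2 : ∀ x, Commute (av k ((of k H).comp ι)) x := fun x => av_comm fun c =>
    single_commute (fun g => (a1 g c).symm) (fun _ => Commute.all _ _) x
  have e3 := av_ne ι a2 hk
  generalize av k ((of k H).comp ι) = α at hw e1 e2 e3
  have e4 : NSF (MonoidAlgebra k H) := algc c (ι (.ofAdd 1))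
    (fun ω => if c.sp (c.pA ω) = ω then ι (.ofAdd 1) else 1) gA g gC (1 - α) w
    (by rw [mul_sub, sub_mul _ _ α, e1]; simp) (fun x => (Commute.one_left x).sub_left (e2 x))
    e3 hw (fun a => by simp [c.pA_sp]) (fun ω h => if_neg h) a7
  obtain ⟨n, a, b, n1, n2⟩ := e4
  let _ : Algebra (ZMod p) K := ZMod.algebra K p
  let _ : MulAction (H × Multiplicative (ZMod l)) V := MulAction.compHom _ (MonoidHom.fst _ _)
  have b1 := partc (K := AlgebraicClosure K) (H := H × Multiplicative (ZMod l)) (X := X)
    (Z := Multiplicative (ZMod l) × Multiplicative (ZMod l)) (by simpa using hl _) (d * d) δ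
    (ι.prodMap (MonoidHom.id _)) (fun g c => Prod.ext (a1 _ _) (mul_comm _ _))
    (fun g => a4 g.1) a5 o fun g hg => a6 g.1 fun ⟨c, hc⟩ => hg ⟨(c, g.2), Prod.ext hc rfl⟩
  obtain ⟨F, _, _, f1, f2⟩ := levels' (hl K) H d hd (ext_inj _ b1) (by
    by_contra hc
    push Not at hc
    have : IsStablyFiniteRing (MonoidAlgebra (ZMod p) H) := ⟨fun m => ⟨fun {x y} =>
      ext_inj K (dom_inj (MonoidHom.inl _ _) (fun _ _ h => congrArg Prod.fst h) (hc m)) x y⟩⟩
    have := stablyFinite_of_ext (ZMod p) k H
    exact n2 (mul_eq_one_symm n1))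
  exact ⟨_, inferInstance, a3 F, f1, f2⟩

/-- No level occurs in characteristic zero. -/
theorem zero (K M : Type) [Field K] [CharZero K] [Monoid M] (d : ℕ) (hd : 1 ≤ d)
    (h : DF (Matrix (Fin d) (Fin d) (MonoidAlgebra K M))) (n : ℕ) :
    DF (Matrix (Fin n) (Fin n) (MonoidAlgebra K M)) := by
  have : Nonempty (Fin d) := ⟨⟨0, hd⟩⟩
  have : IsDedekindFiniteMonoid (MonoidAlgebra K M) :=
    ⟨fun {x y} => h.inj (Matrix.scalar (Fin d)) (fun a b hab => Matrix.scalar_inj.1 hab) x y⟩
  have hM := good_of_df K M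
  have : IsStablyFiniteRing (MonoidAlgebra ℝ M) := by
    refine ⟨fun n => ⟨fun {X Y} hXY => ?_⟩⟩
    by_contra h'
    obtain ⟨G, _, m, q, hq, hq0, H⟩ := core_trace hM X Y hXY h'
    exact hq0 (kaplansky q hq H)
  have : IsStablyFiniteRing (MonoidAlgebra ℚ M) :=
    IsStablyFiniteRing.of_injective (mapRingHom M (algebraMap ℚ ℝ))
      (map_injective (algebraMap ℚ ℝ).toAddMonoidHom (algebraMap ℚ ℝ).injective)
  have := stablyFinite_of_ext ℚ K M
  exact fun a b => mul_eq_one_symm

end Pool.Agent.P.MP_81321e_al.Ch
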