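import Pool.Agent.P.MP_81321e_al.ADAlg
import Pool.Agent.P.MP_81321e_al.Brandt

/-! The final assembly. -/

set_option autoImplicit false

namespace Pool.Agent.P.MP_81321e_al

open Pool.Agent.P.MP_4b59b0_al

/-- Groups acting with large displacement whose algebras are not stably finite. -/
def StmtB : Prop := ∃ δ : ℕ, ∀ D : ℕ, ∃ (K : Type) (_ : Field K) (H : Type) (_ : Group H) (z : H)
  (V : Type) (_ : MulAction H V) (X : Sp V), (2 : K) ≠ 0 ∧ (∀ g, g * z = z * g) ∧ z * z = 1 ∧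
    X.Iso H ∧ X.Hyp δ ∧ Nonempty V ∧ (∀ g, g ≠ 1 → g ≠ z → X.Mv g D) ∧
    ∃ (n : ℕ) (a b : Matrix (Fin n) (Fin n) (MonoidAlgebra K H)), a * b = 1 ∧ b * a ≠ 1

theorem glue (h : StmtB) (d : ℕ) (hd : 1 ≤ d) :
    ∃ (M : Type) (_ : Monoid M) (K : Type) (_ : Field K),
      (∀ a b : Matrix (Fin d) (Fin d) (MonoidAlgebra K M), a * b = 1 → b * a = 1) ∧
      ¬ (∀ a b : Matrix (Fin (d + 1)) (Fin (d + 1)) (MonoidAlgebra K M),
          a * b = 1 → b * a = 1) := by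
  obtain ⟨δ, h⟩ := h
  refine levels (fun n => ?_) d hd
  obtain ⟨K, _, H, _, z, V, _, X, h2, hc, hz, iso, hyp, ⟨o⟩, mv, m, a, b, h1, h3⟩ := h _
  exact ⟨K, inferInstance, H, inferInstance, partA n δ z h2 hc hz iso hyp o mv, m,
    fun hh => h3 (hh a b h1)⟩

end Pool.Agent.P.MP_81321e_al
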