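import Mathlib

set_option autoImplicit false

namespace Pool.Agent.P.MP_81321e_al

/-- `s` lies in the two-sided ideal generated by `t`. -/
def JLe {M : Type*} [Monoid M] (s t : M) : Prop := ∃ x y : M, s = x * t * y

theorem JLe.refl {M : Type*} [Monoid M] (s : M) : JLe s s := ⟨1, 1, by simp⟩

theorem JLe.trans {M : Type*} [Monoid M] {s t u : M} (h : JLe s t) (h' : JLe t u) : JLe s u := by
  obtain ⟨x, y, rfl⟩ := h
  obtain ⟨x', y', rfl⟩ := h'
  exact ⟨x * x', y' * y, by simp [mul_assoc]⟩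

theorem JLe.of_mul_left {M : Type*} [Monoid M] {e s t : M} (h : JLe e (s * t)) : JLe e s :=
  h.trans ⟨1, t, by simp⟩

theorem JLe.of_mul_right {M : Type*} [Monoid M] {e s t : M} (h : JLe e (s * t)) : JLe e t :=
  h.trans ⟨s, 1, by simp⟩

/-- The monoid-theoretic criterion. -/
def Good (M : Type*) [Monoid M] : Prop :=
  ∀ g h x y : M, g * x * h = g → g * y * h = h → ∃ r, g = h * r

theorem Good.corner {M : Type*} [Monoid M] (hM : Good M) (e p q : M) (he : e * e = e)
    (_ : e * p = p) (h2 : p * e = p) (h3 : e * q = q) (h4 : q * e = q) (h : p * q = e) :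
    q * p = e := by
  obtain ⟨r, hr⟩ := hM e q p 1 (by rw [mul_assoc, h, he]) (by rw [mul_one, h3])
  calc q * p = q * (p * (q * r)) := by rw [← hr, h2]
    _ = e := by rw [← mul_assoc p, h, ← mul_assoc, h4, ← hr]

theorem good_ring {R : Type*} [Ring R] [IsDedekindFiniteMonoid R] (g h x y : R)
    (h1 : g * x * h = g) (h2 : g * y * h = h) : g = h + h * (x * g) - h * (x * h * y * g) := by
  have e1 : g * (1 - x * h + x * h * y * h) = h := by
    have : g * (1 - x * h + x * h * y * h) = g - g * x * h + (g * x * h) * y * h := by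
      noncomm_ring
    rw [this, h1, h2, sub_self, zero_add]
  have e2 : (1 + x * g - x * h * y * g) * (1 - x * h + x * h * y * h) = 1 := by
    rw [sub_mul, add_mul, mul_assoc x g, mul_assoc (x * h * y) g, e1]
    noncomm_ring
  have e3 := IsDedekindFiniteMonoid.mul_eq_one_symm e2
  calc g = g * ((1 - x * h + x * h * y * h) * (1 + x * g - x * h * y * g)) := by rw [e3, mul_one]
    _ = _ := by rw [← mul_assoc, e1]; noncomm_ring

theorem good_of_df (K M : Type*) [Ring K] [Nontrivial K] [Monoid M]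
    [IsDedekindFiniteMonoid (MonoidAlgebra K M)] : Good M := by
  intro g h x y h1 h2
  have e := good_ring (MonoidAlgebra.of K M g) (MonoidAlgebra.of K M h) (MonoidAlgebra.of K M x)
    (MonoidAlgebra.of K M y) (by rw [← map_mul, ← map_mul, h1]) (by rw [← map_mul, ← map_mul, h2])
  simp only [← map_mul] at e
  by_contra hc
  push Not at hc
  have e' := congrArg (fun z : MonoidAlgebra K M => z.coeff g) e
  have h3 : g ≠ h := by simpa using hc 1
  simp [Finsupp.single_eq_of_ne h3, Finsupp.single_eq_of_ne (hc (x * g)),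
    Finsupp.single_eq_of_ne (hc (x * h * y * g))] at e'

theorem exists_max_rel {α : Type*} (r : α → α → Prop) (hr : ∀ x, r x x)
    (ht : ∀ x y z, r x y → r y z → r x z) (T : Finset α) (hne : T.Nonempty) :
    ∃ t ∈ T, ∀ s ∈ T, r t s → r s t := by
  let _ : Preorder α := { le := r, le_refl := hr, le_trans := ht }
  obtain ⟨t, ht⟩ := T.exists_maximal hne
  exact ⟨t, ht.1, fun s hs h => ht.2 hs h⟩

/-- A finite set `T` with `T ⊆ T * T` has an idempotent in one of its maximal `J`-classes. -/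
theorem Good.exists_idem {M : Type*} [Monoid M] (hM : Good M) (T : Finset M) (hne : T.Nonempty)
    (hT : ∀ t ∈ T, ∃ s ∈ T, ∃ s' ∈ T, t = s * s') :
    ∃ e : M, e * e = e ∧ (∃ t ∈ T, JLe e t) ∧ ∀ t ∈ T, JLe e t → JLe t e := by
  classical
  obtain ⟨t0, ht0, hmax⟩ := exists_max_rel (JLe (M := M)) JLe.refl (fun _ _ _ => JLe.trans) T hne
  set T0 : Finset M := T.filter (fun t => JLe t0 t) with hT0
  have hne0 : T0.Nonempty := ⟨t0, by simp [hT0, ht0, JLe.refl]⟩
  have hJ : ∀ s ∈ T0, ∀ t ∈ T0, JLe s t := by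
    intro s hs t ht
    simp only [hT0, Finset.mem_filter] at hs ht
    exact (hmax s hs.1 hs.2).trans ht.2
  have hfac : ∀ t ∈ T0, ∃ s ∈ T0, ∃ s' ∈ T0, t = s * s' := by
    intro t ht
    simp only [hT0, Finset.mem_filter] at ht ⊢
    obtain ⟨s, hs, s', hs', rfl⟩ := hT t ht.1
    exact ⟨s, ⟨hs, ht.2.of_mul_left⟩, s', ⟨hs', ht.2.of_mul_right⟩, rfl⟩
  obtain ⟨g, hg, hgmax⟩ := exists_max_rel (fun s t : M => ∃ v, s = t * v)
    (fun x => ⟨1, by simp⟩)
    (by rintro _ _ z ⟨v, rfl⟩ ⟨v', rfl⟩; exact ⟨v' * v, by simp [mul_assoc]⟩) T0 hne0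
  obtain ⟨h, hh, hhmax⟩ := exists_max_rel (fun s t : M => ∃ v, s = v * t)
    (fun x => ⟨1, by simp⟩)
    (by rintro _ _ z ⟨v, rfl⟩ ⟨v', rfl⟩; exact ⟨v * v', by simp [mul_assoc]⟩) T0 hne0
  obtain ⟨s, hs, s', hs', hgs⟩ := hfac g hg
  obtain ⟨v, hv⟩ := hgmax s hs ⟨s', hgs⟩
  obtain ⟨r, hr, r', hr', hhr⟩ := hfac h hh
  obtain ⟨v', hv'⟩ := hhmax r' hr' ⟨r, hhr⟩
  obtain ⟨x, y, hxy⟩ := hJ s' hs' h hh
  obtain ⟨x', y', hxy'⟩ := hJ r hr g hg
  -- g = g * w, h = w' * h
  have hgw : g * (v * x * h * y) = g := by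
    calc g * (v * x * h * y) = (g * v) * (x * h * y) := by simp [mul_assoc]
      _ = g := by rw [← hv, ← hxy, ← hgs]
  have hwh : x' * g * (y' * v') * h = h := by
    calc x' * g * (y' * v') * h = (x' * g * y') * (v' * h) := by simp [mul_assoc]
      _ = h := by rw [← hv', ← hxy', ← hhr]
  obtain ⟨z, hz⟩ := hM (x' * g) (h * y) (v * x) (y' * v')
    (by rw [mul_assoc x' g, mul_assoc x', mul_assoc g, ← mul_assoc (v * x), hgw])
    (by rw [← mul_assoc, hwh])
  have hidem : x' * g * (y' * v') * (x' * g * (y' * v')) = x' * g * (y' * v') := by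
    calc x' * g * (y' * v') * (x' * g * (y' * v'))
        = (x' * g * (y' * v') * h) * y * z * (y' * v') := by
          conv_lhs => rw [← mul_assoc (x' * g * (y' * v'))]; enter [1, 2]; rw [hz]
          simp [mul_assoc]
      _ = _ := by rw [hwh, ← hz]
  have hg' := hg
  have hh' := hh
  simp only [hT0, Finset.mem_filter] at hg' hh'
  refine ⟨x' * g * (y' * v'), hidem, ⟨g, hg'.1, ⟨x', y' * v', rfl⟩⟩, fun t ht het => ?_⟩
  have hge : JLe h (x' * g * (y' * v')) := ⟨1, h, by rw [one_mul, hwh]⟩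
  have ht' : t ∈ T0 := by
    simp only [hT0, Finset.mem_filter]
    exact ⟨ht, (hh'.2.trans hge).trans het⟩
  exact (hJ t ht' h hh).trans hge

end Pool.Agent.P.MP_81321e_al
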