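import Pool.Agent.P.MP_81321e_al.Morita

set_option autoImplicit false

namespace Pool.Agent.P.MP_81321e_al

open MonoidAlgebra

universe u

theorem idem_eq_zero_of_trace {Λ : Type*} [CommRing Λ] [IsLocalRing Λ] {N : Type*} [Fintype N]
    [DecidableEq N] (Z : Matrix N N Λ) (hZ : Z * Z = Z) (htr : Z.trace = 0)
    (hchar : ∀ r : ℕ, r ≤ Fintype.card N → (r : Λ) = 0 → r = 0) : Z = 0 := by
  set f : (N → Λ) →ₗ[Λ] (N → Λ) := Matrix.toLin' Z with hf
  have he : IsIdempotentElem f := by
    change f * f = f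
    rw [hf, Module.End.mul_eq_comp, ← Matrix.toLin'_mul, hZ]
  have hfree : ∀ g : (N → Λ) →ₗ[Λ] (N → Λ), IsIdempotentElem g →
      Module.Free Λ (LinearMap.range g) := by
    intro g hg
    have : Module.Projective Λ (LinearMap.range g) := by
      refine Module.Projective.of_split (LinearMap.range g).subtype g.rangeRestrict ?_
      ext ⟨x, y, rfl⟩ : 1
      apply Subtype.ext
      exact LinearMap.congr_fun hg y
    exact Module.free_of_flat_of_isLocalRing
  have h1 := hfree f he
  have hker : LinearMap.ker f = LinearMap.range (1 - f) := LinearMap.IsIdempotentElem.ker_eq_range_one_sub he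
  have h2 : Module.Free Λ (LinearMap.ker f) := hker ▸ hfree _ he.one_sub
  have h3 : Module.Finite Λ (LinearMap.ker f) := hker ▸ inferInstance
  have h4 := (LinearMap.IsIdempotentElem.isProj_range f he).trace
  rw [hf, Matrix.trace_toLin'_eq, htr, ← hf] at h4
  have h5 : Module.finrank Λ (LinearMap.range f) ≤ Fintype.card N := by
    simpa using Submodule.finrank_le (LinearMap.range f)
  have h6 := hchar _ h5 h4.symm
  rw [Module.finrank_eq_zero_iff_of_free, Submodule.subsingleton_iff_eq_bot,
    LinearMap.range_eq_bot] at h6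
  exact Matrix.toLin'.injective (by rw [← hf, h6, map_zero])

theorem isLocalRing_zmod (p k : ℕ) [Fact p.Prime] : IsLocalRing (ZMod (p ^ (k + 1))) := by
  have : Fact (1 < p ^ (k + 1)) := ⟨Nat.one_lt_pow (by omega) (Fact.out : p.Prime).one_lt⟩
  exact IsLocalRing.of_surjective' (PadicInt.toZModPow (p := p) (k + 1))
    (ZMod.ringHom_surjective _)

theorem finite_group_case (p k : ℕ) [Fact p.Prime] {Q : Type*} [Group Q] [Finite Q] {m : ℕ}
    (q : Matrix (Fin m) (Fin m) (MonoidAlgebra (ZMod (p ^ (k + 1))) Q)) (hq : q * q = q)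
    (htr : q.trace.coeff 1 = 0) (hk : m * Nat.card Q < p ^ (k + 1)) : q = 0 := by
  classical
  have := Fintype.ofFinite Q
  have := isLocalRing_zmod p k
  let b := MonoidAlgebra.basis Q (ZMod (p ^ (k + 1)))
  let L := (Algebra.leftMulMatrix b).toRingHom
  let Φ := (Matrix.compRingEquiv (Fin m) Q (ZMod (p ^ (k + 1)))).toRingHom.comp
    (L.mapMatrix (m := Fin m))
  have hL : ∀ x g, L x g g = x.coeff 1 := by
    intro x g
    change Algebra.leftMulMatrix b x g g = _
    rw [Algebra.leftMulMatrix_eq_repr_mul]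
    simp [b, MonoidAlgebra.basis]
  have h0 : Φ q = 0 := by
    apply idem_eq_zero_of_trace _ (by rw [← map_mul, hq])
    · have : (Φ q).trace = ∑ i, ∑ g : Q, L (q i i) g g := by
        simp [Φ, Matrix.trace, Fintype.sum_prod_type]
      rw [this]
      simp only [hL]
      rw [Finset.sum_comm]
      refine Finset.sum_eq_zero fun g _ => ?_
      rw [← htr]
      simp [Matrix.trace, Finsupp.finsetSum_apply]
    · intro r hr h
      rw [ZMod.natCast_eq_zero_iff] at h
      refine Nat.eq_zero_of_dvd_of_lt h (lt_of_le_of_lt hr ?_)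
      simpa [Nat.card_eq_fintype_card] using hk
  have h1 : L.mapMatrix q = 0 :=
    (Matrix.compRingEquiv (Fin m) Q (ZMod (p ^ (k + 1)))).injective (by rw [map_zero]; exact h0)
  refine Matrix.ext fun i j => Algebra.leftMulMatrix_injective b ?_
  have := congrFun (congrFun h1 i) j
  simpa [L] using this

theorem castHom_ker (p k : ℕ) (c : ZMod (p ^ (k + 1)))
    (h : ZMod.castHom (dvd_pow_self p k.succ_ne_zero) (ZMod p) c = 0) : ∃ d, c = p • d := by
  obtain ⟨z, rfl⟩ := ZMod.intCast_surjective c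
  rw [map_intCast, ZMod.intCast_zmod_eq_zero_iff_dvd] at h
  obtain ⟨d, rfl⟩ := h
  exact ⟨d, by simp⟩

theorem pow_eq_zero_zmod (p k : ℕ) : ((p : ZMod (p ^ (k + 1))) ^ (k + 1)) = 0 := by
  rw [← Nat.cast_pow, ZMod.natCast_self]

theorem exists_idem_lift (p k : ℕ) {H : Type*} [Monoid H] {m : ℕ}
    (q : Matrix (Fin m) (Fin m) (MonoidAlgebra (ZMod p) H)) (hq : q * q = q) :
    ∃ q' : Matrix (Fin m) (Fin m) (MonoidAlgebra (ZMod (p ^ (k + 1))) H), q' * q' = q' ∧
      q'.map (mapRingHom H (ZMod.castHom (dvd_pow_self p k.succ_ne_zero) (ZMod p))) = q := by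
  set φ := ZMod.castHom (dvd_pow_self p k.succ_ne_zero) (ZMod p) with hφ
  have hs : Function.Surjective (mapRingHom H φ) :=
    MonoidAlgebra.map_surjective φ.toAddMonoidHom (ZMod.ringHom_surjective φ)
  refine exists_isIdempotentElem_eq_of_ker_isNilpotent
    ((mapRingHom H φ).mapMatrix (m := Fin m)) ?_ q (RingHom.mem_range.2 (exists_map_eq _ hs q)) hq
  intro Z hZ
  refine nilpotent_of_map_eq_zero (mapRingHom H φ) p (k + 1) ?_ ?_ Z hZ
  · intro x hx
    rw [← sum_coeff_single x, Finsupp.sum]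
    refine Finset.sum_induction _ (fun x => ∃ y, x = p • y) ?_ ⟨0, by simp⟩ fun t _ => ?_
    · rintro _ _ ⟨y, rfl⟩ ⟨y', rfl⟩
      exact ⟨y + y', by rw [smul_add]⟩
    · have h1 : φ (x.coeff t) = 0 := by
        rw [← coeff_mapRingHom, hx]; rfl
      obtain ⟨d, hd⟩ := castHom_ker p k _ h1
      exact ⟨single t d, by rw [hd, smul_single]⟩
  · intro y
    ext t
    rw [coeff_smul_apply, nsmul_eq_mul, Nat.cast_pow, pow_eq_zero_zmod, zero_mul]; rfl

theorem coeff_mapDomain_one {Λ H Q : Type*} [CommRing Λ] [One Q] [DecidableEq Q] (φ : H → Q)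
    (x : MonoidAlgebra Λ H) :
    (mapDomain φ x).coeff 1 = x.coeff.sum fun h c => c * (if φ h = 1 then 1 else 0) := by
  induction x using MonoidAlgebra.induction_linear with
  | zero => simp
  | add x y hx hy =>
    rw [mapDomain_add, coeff_add, Finsupp.add_apply, hx, hy, coeff_add,
      Finsupp.sum_add_index' (fun _ => zero_mul _) (fun _ _ _ => add_mul _ _ _)]
  | single g c =>
    rw [mapDomain_single, coeff_single, coeff_single, Finsupp.sum_single_index (by simp),
      Finsupp.single_apply]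
    split_ifs <;> simp

/-- Residually locally finite groups have faithful lifted traces. -/
theorem resLocFin_case (p : ℕ) [Fact p.Prime] {G : Type u} [Group G]
    (hG : ∀ g : G, g ≠ 1 → ∃ (Q : Type u) (_ : Group Q) (π : G →* Q), π g ≠ 1 ∧
      ∀ s : Finset Q, Finite (Subgroup.closure (s : Set Q)))
    {m : ℕ} (q : Matrix (Fin m) (Fin m) (MonoidAlgebra (ZMod p) G)) (hq : q * q = q)
    (h : ∀ (k : ℕ) (q' : Matrix (Fin m) (Fin m) (MonoidAlgebra (ZMod (p ^ (k + 1))) G)),
      q' * q' = q' →
      q'.map (mapRingHom G (ZMod.castHom (dvd_pow_self p k.succ_ne_zero) (ZMod p))) = q →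
      ∀ ψ : G → ZMod (p ^ (k + 1)), (∀ g c, ψ (c * g * c⁻¹) = ψ g) →
        (q'.trace.coeff.sum fun g c => c * ψ g) = 0) : q = 0 := by
  classical
  set F : Finset G := Finset.univ.biUnion fun ij : Fin m × Fin m =>
    (q ij.1 ij.2).coeff.support with hF
  set D : Finset G := ((F ×ˢ F).image fun x => x.1⁻¹ * x.2).erase 1 with hD
  choose Q instQ π hπ hfin using fun d : D => hG d.1 (Finset.ne_of_mem_erase d.2)
  set H : Subgroup G := Subgroup.closure (F : Set G) with hH
  let Q' : D → Type u := fun d => Subgroup.closure ((F.image (π d) : Finset (Q d)) : Set (Q d))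
  have hmem : ∀ (d : D) (x : H),
      π d x ∈ Subgroup.closure ((F.image (π d) : Finset (Q d)) : Set (Q d)) := by
    intro d x
    rw [Finset.coe_image, ← MonoidHom.map_closure]
    exact Subgroup.mem_map_of_mem _ x.2
  let φ : H →* ∀ d, Q' d := MonoidHom.pi fun d =>
    ((π d).comp H.subtype).codRestrict _ (hmem d)
  have hφ : ∀ x : H, φ x = 1 ↔ ∀ d, π d x = 1 := by
    intro x
    rw [funext_iff]
    exact forall_congr' fun d => Subtype.ext_iff
  have : ∀ d, Finite (Q' d) := fun d => hfin d _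
  have hsub : ∀ i j, ((q i j).coeff.support : Set G) ⊆ Set.range H.subtype := by
    intro i j g hg
    exact ⟨⟨g, Subgroup.subset_closure (by
      simp only [hF, Finset.coe_biUnion, Set.mem_iUnion]
      exact ⟨(i, j), by simp, hg⟩)⟩, rfl⟩
  let qH : Matrix (Fin m) (Fin m) (MonoidAlgebra (ZMod p) H) :=
    q.map (comapDomain H.subtype H.subtype_injective)
  have hqH : (mapDomainRingHom (ZMod p) H.subtype).mapMatrix qH = q :=
    Matrix.ext fun i j => mapDomain_comapDomain (hsub i j) H.subtype_injective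
  have hqH2 : qH * qH = qH := by
    apply Matrix.map_injective (mapDomain_injective (R := ZMod p) H.subtype_injective)
    change (mapDomainRingHom (ZMod p) H.subtype).mapMatrix _
      = (mapDomainRingHom (ZMod p) H.subtype).mapMatrix _
    rw [map_mul, hqH, hq]
  obtain ⟨k, hk⟩ : ∃ k, m * Nat.card (∀ d, Q' d) < p ^ (k + 1) :=
    ⟨_, (Nat.lt_pow_self (Fact.out : p.Prime).one_lt).trans
      (Nat.pow_lt_pow_right (Fact.out : p.Prime).one_lt (Nat.lt_succ_self _))⟩
  obtain ⟨q', hq'1, hq'2⟩ := exists_idem_lift p k qH hqH2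
  set c := ZMod.castHom (dvd_pow_self p k.succ_ne_zero) (ZMod p) with hc
  have hcomm : ∀ {B : Type u} [Group B] (f : H →* B) (x : MonoidAlgebra (ZMod (p ^ (k + 1))) H),
      mapRingHom B c (mapDomain f x) = mapDomain f (mapRingHom H c x) := by
    intro B _ f x
    exact RingHom.congr_fun (mapRingHom_comp_mapDomainRingHom c f) x
  have h1 := h k ((mapDomainRingHom _ H.subtype).mapMatrix q') (by rw [← map_mul, hq'1])
    (by rw [← hqH, ← hq'2]; exact Matrix.ext fun i j => hcomm H.subtype (q' i j))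
    (fun g => if ∀ d, π d g = 1 then 1 else 0) (by intro g c; simp [mul_inv_eq_one])
  have h2 : ((mapDomainRingHom _ φ).mapMatrix q').trace.coeff 1 = 0 := by
    have e1 : ∀ {B : Type u} [Group B] (f : H →* B),
        ((mapDomainRingHom _ f).mapMatrix q').trace = mapDomain f q'.trace := by
      intro B _ f
      exact (AddMonoidHom.map_trace (mapDomainRingHom _ f) q').symm
    rw [e1, coeff_mapDomain_one]
    rw [e1] at h1
    change (Finsupp.mapDomain H.subtype q'.trace.coeff).sum _ = 0 at h1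
    rw [Finsupp.sum_mapDomain_index_inj H.subtype_injective] at h1
    refine Eq.trans (Finsupp.sum_congr fun x _ => ?_) h1
    exact congrArg _ (if_congr (hφ x) rfl rfl)
  have h3 := finite_group_case p k _ (by rw [← map_mul, hq'1]) h2 hk
  ext i j g
  by_contra hg
  have hgs : g ∈ (q i j).coeff.support := Finsupp.mem_support_iff.2 hg
  obtain ⟨g', rfl⟩ := hsub i j hgs
  have h4 : mapDomain φ (qH i j) = 0 := by
    have : mapDomain φ (q' i j) = 0 := congrFun (congrFun h3 i) j
    rw [← hq'2, Matrix.map_apply, ← hcomm, this, map_zero]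
  have hcoef : ∀ x : H, (qH i j).coeff x = (q i j).coeff x := fun x => rfl
  have hFm : ∀ x : H, x ∈ (qH i j).coeff.support → (x : G) ∈ F := by
    intro x hx
    rw [Finsupp.mem_support_iff, hcoef] at hx
    exact Finset.mem_biUnion.2 ⟨(i, j), Finset.mem_univ _, Finsupp.mem_support_iff.2 hx⟩
  have h5 : (Finsupp.mapDomain φ (qH i j).coeff) (φ g') = (qH i j).coeff g' := by
    refine Finsupp.mapDomain_apply' (qH i j).coeff.support _ subset_rfl ?_ ?_
    · intro x hx y hy hxy
      by_contra hne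
      have hd : (x : G)⁻¹ * y ∈ D := by
        refine Finset.mem_erase.2 ⟨fun h0 => hne (Subtype.ext (inv_mul_eq_one.1 h0)), ?_⟩
        exact Finset.mem_image.2 ⟨(x, y), Finset.mem_product.2 ⟨hFm x hx, hFm y hy⟩, rfl⟩
      have : φ (x⁻¹ * y) = 1 := by rw [map_mul, map_inv, hxy, inv_mul_cancel]
      exact hπ ⟨_, hd⟩ ((hφ _).1 this ⟨_, hd⟩)
    · rw [Finset.mem_coe, Finsupp.mem_support_iff, hcoef]
      exact hg
  have h6 : (mapDomain φ (qH i j)).coeff (φ g') = 0 := by rw [h4]; rfl
  exact hg ((hcoef g').symm.trans (h5.symm.trans h6))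

end Pool.Agent.P.MP_81321e_al
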