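import Pool.Agent.P.MP_81321e_al.Good

set_option autoImplicit false

namespace Pool.Agent.P.MP_81321e_al

open MonoidAlgebra

universe u

/-- A group embedded in `M` onto all of `e M e ∩ J_e`, where `e` is the image of `1`. -/
structure Data (M : Type*) [Monoid M] (G : Type*) [Group G] where
  ι : G →ₙ* M
  inj : Function.Injective ι
  full : ∀ z, ι 1 * z = z → z * ι 1 = z → JLe (ι 1) z → ∃ g, ι g = z

/-- The group of units of the corner monoid `e M e`. -/
@[ext] structure HGrp {M : Type*} [Monoid M] (e : M) (he : e * e = e) where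
  val : M
  prop : e * val = val ∧ val * e = val ∧
    ∃ w, e * w = w ∧ w * e = w ∧ val * w = e ∧ w * val = e

noncomputable instance {M : Type*} [Monoid M] (e : M) (he : e * e = e) : Group (HGrp e he) where
  mul a b := ⟨a.val * b.val, by
    obtain ⟨a1, a2, w, w1, w2, w3, w4⟩ := a.prop
    obtain ⟨b1, b2, v, v1, v2, v3, v4⟩ := b.prop
    refine ⟨by rw [← mul_assoc, a1], by rw [mul_assoc, b2], v * w, by rw [← mul_assoc, v1],
      by rw [mul_assoc, w2], ?_, ?_⟩
    · rw [mul_assoc, ← mul_assoc b.val, v3, w1, w3]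
    · rw [mul_assoc, ← mul_assoc w, w4, b1, v4]⟩
  mul_assoc a b c := HGrp.ext (mul_assoc _ _ _)
  one := ⟨e, he, he, e, he, he, he, he⟩
  one_mul a := HGrp.ext a.prop.1
  mul_one a := HGrp.ext a.prop.2.1
  inv a := ⟨a.prop.2.2.choose, a.prop.2.2.choose_spec.1, a.prop.2.2.choose_spec.2.1, a.val,
    a.prop.1, a.prop.2.1, a.prop.2.2.choose_spec.2.2.2, a.prop.2.2.choose_spec.2.2.1⟩
  inv_mul_cancel a := HGrp.ext a.prop.2.2.choose_spec.2.2.2

theorem Good.exists_data {M : Type u} [Monoid M] (hM : Good M) (e : M) (he : e * e = e) :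
    ∃ (G : Type u) (_ : Group G) (D : Data M G), D.ι 1 = e := by
  refine ⟨HGrp e he, inferInstance, ⟨⟨fun a => a.val, fun _ _ => rfl⟩,
    fun a b h => HGrp.ext h, ?_⟩, rfl⟩
  intro z h1 h2 ⟨x, y, hxy⟩
  change e * z = z at h1
  change z * e = z at h2
  change e = x * z * y at hxy
  -- p = e x e is a left inverse of z (e y e), etc.
  have e1 : (e * x * e) * (z * (e * y * e)) = e := by
    calc (e * x * e) * (z * (e * y * e)) = e * (x * ((e * z) * e) * y) * e := by
          simp [mul_assoc]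
      _ = e := by rw [h1, h2, ← hxy, he, he]
  have e2 : (z * (e * y * e)) * (e * x * e) = e :=
    hM.corner e _ _ he (by rw [← mul_assoc, ← mul_assoc, he]) (by rw [mul_assoc, he])
      (by rw [← mul_assoc, h1]) (by rw [mul_assoc, mul_assoc _ e e, he]) e1
  have w1 : e * ((e * y * e) * (e * x * e)) = (e * y * e) * (e * x * e) := by
    rw [← mul_assoc, ← mul_assoc e (e * y), ← mul_assoc e e, he]
  have w2 : ((e * y * e) * (e * x * e)) * e = (e * y * e) * (e * x * e) := by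
    rw [mul_assoc, mul_assoc (e * x) e e, he]
  have e3 : z * ((e * y * e) * (e * x * e)) = e := by rw [← mul_assoc, e2]
  exact ⟨⟨z, h1, h2, _, w1, w2, e3, hM.corner e _ _ he h1 h2 w1 w2 e3⟩, rfl⟩

namespace Data

variable {M : Type*} [Monoid M] {G : Type*} [Group G] (D : Data M G)

theorem one_mul_ι (g : G) : D.ι 1 * D.ι g = D.ι g := by rw [← map_mul, one_mul]
theorem ι_mul_one (g : G) : D.ι g * D.ι 1 = D.ι g := by rw [← map_mul, mul_one]

/-- `m` is eventually in the `J`-class of `e`, with stable part `g`. -/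
def Rel (m : M) (g : G) : Prop :=
  ∃ (a b : M) (k : ℕ), a * b = D.ι 1 ∧ D.ι 1 * a = a ∧ b * D.ι 1 = b ∧ m * b = b * D.ι g ∧
    a * m = D.ι g * a ∧ ∀ j, k ≤ j → m ^ (j + 1) = b * D.ι (g ^ (j + 1)) * a

theorem Rel.jle {D : Data M G} {m : M} {g : G} (h : D.Rel m g) : JLe (D.ι 1) m := by
  obtain ⟨a, b, k, h1, h2, h3, h4, h5, h6⟩ := h
  refine ⟨D.ι g⁻¹ * a, b, ?_⟩
  rw [mul_assoc _ a m, h5, ← mul_assoc, ← map_mul, inv_mul_cancel, h2, h1]

theorem rel_self (g : G) : D.Rel (D.ι g) g := by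
  refine ⟨D.ι 1, D.ι 1, 0, D.one_mul_ι 1, D.one_mul_ι 1, D.one_mul_ι 1,
    by rw [D.one_mul_ι, D.ι_mul_one], by rw [D.one_mul_ι, D.ι_mul_one], fun j _ => ?_⟩
  rw [D.one_mul_ι, D.ι_mul_one]
  induction j with
  | zero => simp
  | succ j ih => rw [pow_succ, ih (Nat.zero_le _), ← map_mul, ← pow_succ]

theorem Rel.swap {D : Data M G} {x y : M} {g : G} (h : D.Rel (x * y) g) : D.Rel (y * x) g := by
  obtain ⟨a, b, k, h1, h2, h3, h4, h5, h6⟩ := h
  have hb : b * D.ι g⁻¹ * D.ι g = b := by rw [mul_assoc, ← map_mul, inv_mul_cancel, h3]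
  refine ⟨a * x, y * b * D.ι g⁻¹, k + 1, ?_, ?_, ?_, ?_, ?_, fun j hj => ?_⟩
  · calc a * x * (y * b * D.ι g⁻¹) = (a * (x * y)) * b * D.ι g⁻¹ := by simp [mul_assoc]
      _ = D.ι 1 := by rw [h5, mul_assoc _ a b, h1, ← map_mul, ← map_mul]; simp
  · rw [← mul_assoc, h2]
  · rw [mul_assoc, D.ι_mul_one]
  · calc y * x * (y * b * D.ι g⁻¹) = y * ((x * y) * b) * D.ι g⁻¹ := by simp [mul_assoc]
      _ = y * b := by
        rw [h4, mul_assoc, mul_assoc, ← map_mul, mul_inv_cancel, h3]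
      _ = y * b * D.ι g⁻¹ * D.ι g := by rw [mul_assoc y b, mul_assoc y, hb]
  · calc a * x * (y * x) = (a * (x * y)) * x := by simp [mul_assoc]
      _ = D.ι g * (a * x) := by rw [h5, mul_assoc]
  · obtain ⟨i, rfl⟩ : ∃ i, j = i + 1 := ⟨j - 1, by omega⟩
    have hp : ∀ n : ℕ, (y * x) ^ (n + 1) = y * (x * y) ^ n * x := by
      intro n
      induction n with
      | zero => simp
      | succ n ih => rw [pow_succ, ih, pow_succ]; simp [mul_assoc]
    rw [hp, h6 i (by omega)]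
    have : D.ι g⁻¹ * D.ι (g ^ (i + 1 + 1)) = D.ι (g ^ (i + 1)) := by
      rw [← map_mul, pow_succ' g (i + 1), inv_mul_cancel_left]
    rw [← this]; simp [mul_assoc]

theorem Rel.conj {D : Data M G} {m : M} {g g' : G} (h : D.Rel m g) (h' : D.Rel m g') :
    ∃ c : G, g = c * g' * c⁻¹ := by
  obtain ⟨a, b, k, h1, h2, h3, h4, h5, h6⟩ := h
  obtain ⟨a', b', k', h1', h2', h3', h4', h5', h6'⟩ := h'
  have e1 := h6 (k + k') (by omega)
  have e2 := h6' (k + k') (by omega)
  set N := k + k' + 1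
  have e3 : D.ι (g ^ N) = (a * b') * (D.ι (g' ^ N) * a' * b) := by
    calc D.ι (g ^ N) = (a * b) * D.ι (g ^ N) * (a * b) := by
          rw [h1, D.one_mul_ι, D.ι_mul_one]
      _ = a * (b * D.ι (g ^ N) * a) * b := by simp [mul_assoc]
      _ = _ := by rw [← e1, e2]; simp [mul_assoc]
  obtain ⟨c, hc⟩ := D.full (a * b') (by rw [← mul_assoc, h2]) (by rw [mul_assoc, h3'])
    ⟨D.ι (g ^ N)⁻¹, D.ι (g' ^ N) * a' * b, by
      rw [mul_assoc, ← e3, ← map_mul, inv_mul_cancel]⟩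
  refine ⟨c, ?_⟩
  rw [eq_mul_inv_iff_mul_eq]
  apply D.inj
  rw [map_mul, map_mul, hc, ← mul_assoc, ← h5, mul_assoc, h4', mul_assoc]

variable {Λ : Type*} [CommRing Λ]

open Classical in
/-- The extension of a class function of `G` to `M`. -/
noncomputable def tau0 (ψ : G → Λ) (m : M) : Λ :=
  if h : ∃ g, D.Rel m g then ψ h.choose else 0

theorem tau0_eq {ψ : G → Λ} (hψ : ∀ g c, ψ (c * g * c⁻¹) = ψ g) {m : M} {g : G}
    (h : D.Rel m g) : D.tau0 ψ m = ψ g := by
  have h' : ∃ g, D.Rel m g := ⟨g, h⟩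
  rw [tau0, dif_pos h']
  obtain ⟨c, hc⟩ := h'.choose_spec.conj h
  rw [hc, hψ]

theorem tau0_comm {ψ : G → Λ} (hψ : ∀ g c, ψ (c * g * c⁻¹) = ψ g) (x y : M) :
    D.tau0 ψ (x * y) = D.tau0 ψ (y * x) := by
  by_cases h : ∃ g, D.Rel (x * y) g
  · obtain ⟨g, hg⟩ := h
    rw [D.tau0_eq hψ hg, D.tau0_eq hψ hg.swap]
  · have h' : ¬ ∃ g, D.Rel (y * x) g := fun ⟨g, hg⟩ => h ⟨g, hg.swap⟩
    rw [tau0, tau0, dif_neg h, dif_neg h']

theorem tau0_zero (ψ : G → Λ) {m : M} (h : ¬ JLe (D.ι 1) m) : D.tau0 ψ m = 0 := by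
  rw [tau0, dif_neg]
  exact fun ⟨g, hg⟩ => h hg.jle

/-- The trace on the monoid algebra. -/
noncomputable def tau (ψ : G → Λ) : MonoidAlgebra Λ M →+ Λ :=
  liftNC (AddMonoidHom.id Λ) (D.tau0 ψ)

theorem tau_single (ψ : G → Λ) (m : M) (c : Λ) : D.tau ψ (single m c) = c * D.tau0 ψ m := by
  simp [tau]

theorem tau_comm {ψ : G → Λ} (hψ : ∀ g c, ψ (c * g * c⁻¹) = ψ g) (x y : MonoidAlgebra Λ M) :
    D.tau ψ (x * y) = D.tau ψ (y * x) := by
  induction x using MonoidAlgebra.induction_linear with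
  | zero => simp
  | add x x' h h' => rw [add_mul, mul_add, map_add, map_add, h, h']
  | single m c =>
    induction y using MonoidAlgebra.induction_linear with
    | zero => simp
    | add y y' h h' => rw [add_mul, mul_add, map_add, map_add, h, h']
    | single m' c' =>
      rw [single_mul_single, single_mul_single, tau_single, tau_single, D.tau0_comm hψ,
        mul_comm c c']

end Data

end Pool.Agent.P.MP_81321e_al
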