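import Pool.Agent.P.MP_e79ed6_al.Read
import Pool.Agent.P.MP_4b59b0_al.Cone
import Pool.Agent.P.MP_4b59b0_al.Quot

set_option autoImplicit false

namespace Pool.Agent.P.MP_81321e_al.Tw

open Pool.Agent.P.MP_4b59b0_al Pool.Agent.P.MP_e79ed6_al Sp FreeGroup LG

/-- Small cancellation over the fundamental group of a graph of large girth, with a central
twist. -/
def StmtTw : Prop := ∃ δ : ℕ, ∀ D : ℕ, ∃ L : ℕ, ∀ (S N₀ Ed N : Type) [DecidableEq S]
  (X₀ : LG S N₀ S) (Γ : LG Ed N S) (pr : N → N₀) (tw : Ed → Prop) [DecidablePred tw] (x₀ : N₀),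
  (∀ s, X₀.lab s = s) → (∀ x, ∃ f, X₀.Rf x₀ f x) → X₀.Girth L → Γ.Pieces 2 →
  (∀ e b, pr (Γ.en e b) = X₀.en (Γ.lab e) b) →
  ∃ (H : Type) (_ : Group H) (z : H) (V : Type) (_ : MulAction H V) (X : Sp V) (lam : S → H)
    (gam : N → H), (∀ g, g * z = z * g) ∧ z * z = 1 ∧ z ≠ 1 ∧ X.Iso H ∧ X.Hyp δ ∧ Nonempty V ∧
    (∀ g : H, g ≠ 1 → g ≠ z → X.Mv g D) ∧
    ∀ e, gam (Γ.en e false) = gam (Γ.en e true) * lam (Γ.lab e) * (if tw e then z else 1)

section

variable {Ed N S : Type} (Γ : LG Ed N S) (sg : Ed → ℤˣ)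

/-- The double cover given by signs on the edges. -/
def dc : LG (Ed × ℤˣ) (N × ℤˣ) S where
  en e b := (Γ.en e.1 b, if b then e.2 else e.2 * sg e.1)
  lab e := Γ.lab e.1
  fold := by
    rintro ⟨e, a⟩ ⟨e', a'⟩ b h1 h2
    simp only [Prod.mk.injEq] at h1 h2 ⊢
    have := Γ.fold e e' b h1.1 h2
    subst this
    cases b <;> simpa using h1.2

variable {Γ sg}

theorem rd_map {Ed' N' : Type} {Γ' : LG Ed' N' S} (φ : N → N') (ψ : Ed → Ed')
    (h1 : ∀ e, Γ'.lab (ψ e) = Γ.lab e) (h2 : ∀ e b, φ (Γ.en e b) = Γ'.en (ψ e) b)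
    {w : List (S × Bool)} : ∀ {y z : N}, Γ.Rd w y z → Γ'.Rd w (φ y) (φ z) := by
  induction w with
  | nil => intro y z h; exact congrArg φ h
  | cons c w ih =>
    rintro y z ⟨m, ⟨e, a1, a2, a3⟩, h⟩
    exact ⟨φ m, ⟨ψ e, (h1 e).trans a1, by rw [← h2, a2], by rw [← h2, a3]⟩, ih h⟩

theorem rd_lift {w : List (S × Bool)} : ∀ {y z : N} (a : ℤˣ), Γ.Rd w y z →
    ∃ a', (dc Γ sg).Rd w (y, a) (z, a') := by
  induction w with
  | nil => intro y z a h; exact ⟨a, congrArg (·, a) h⟩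
  | cons c w ih =>
    rintro y z a ⟨m, ⟨e, a1, a2, a3⟩, h⟩
    obtain ⟨a', h'⟩ := ih (a * sg e) h
    refine ⟨a', (m, a * sg e), ?_, h'⟩
    obtain ⟨s, b⟩ := c
    cases b
    · exact ⟨(e, a * sg e), a1, by simp [dc, ← a2, mul_assoc], by simp [dc, ← a3]⟩
    · exact ⟨(e, a), a1, by simp [dc, ← a2], by simp [dc, ← a3]⟩

variable [DecidableEq S]

theorem rf_down {y z : N × ℤˣ} {f : FreeGroup S} (h : (dc Γ sg).Rf y f z) : Γ.Rf y.1 f z.1 :=
  rd_map (Γ := dc Γ sg) (Γ' := Γ) Prod.fst Prod.fst (fun _ => rfl) (fun _ _ => rfl) h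

theorem rf_shift {y z : N} {a a' : ℤˣ} {f : FreeGroup S} (h : (dc Γ sg).Rf (y, a) f (z, a'))
    (k : ℤˣ) : (dc Γ sg).Rf (y, k * a) f (z, k * a') :=
  rd_map (Γ := dc Γ sg) (Γ' := dc Γ sg) (fun p => (p.1, k * p.2)) (fun p => (p.1, k * p.2))
    (fun _ => rfl) (fun e b => by cases b <;> simp [dc, mul_assoc]) h

theorem fam' {U : Type} (ι : U → Quotient Γ.sd) (hι : Function.Injective ι) {c : ℕ}
    (hc : Γ.Pieces c) :
    Fam (tree S) (fun u => {f | ∃ z, Quotient.mk Γ.sd (f, z) = ι u}) (2 * c + 6) := by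
  have conv : ∀ {q : Quotient Γ.sd} {x y m : FreeGroup S}, (∃ z, Quotient.mk Γ.sd (x, z) = q) →
      (∃ z, Quotient.mk Γ.sd (y, z) = q) → (tree S).Bt 0 x m y →
      ∃ z, Quotient.mk Γ.sd (m, z) = q := by
    rintro q x y m ⟨z, h1⟩ ⟨z', h2⟩ h
    have h3 := mk_eq.1 (h1.trans h2.symm)
    have e : x⁻¹ * y = (x⁻¹ * m) * (m⁻¹ * y) := by group
    rw [e] at h3
    obtain ⟨k, hk⟩ := h3.pre (by rw [← e]; exact h)
    exact ⟨k, (mk_eq.2 hk).symm.trans h1⟩
  refine ⟨(tree_hyp S).mono (by omega), by omega, fun u => ?_,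
    fun u x y m hx hy h => ⟨m, conv hx hy h, by rw [(tree S).d_self]; omega⟩, ?_⟩
  · obtain ⟨⟨f, z⟩, h⟩ := Quotient.exists_rep (ι u)
    exact ⟨f, z, h⟩
  intro u u' hne x hx y hy p hp q hq
  by_contra hlt
  obtain ⟨m, m', a1, a2, a3, a4, a5⟩ := (tree_hyp S).ov1 (t := c + 1) (x := x) (y := y) (p := p)
    (q := q) (by omega)
  obtain ⟨z, b1⟩ := conv hx hy a1
  obtain ⟨z', b2⟩ := conv hx hy a2
  obtain ⟨w, b3⟩ := conv hq hp a3
  obtain ⟨w', b4⟩ := conv hq hp a4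
  have hzw : z ≠ w := by
    rintro rfl
    exact hne (hι (b3.symm.trans b1))
  have h1 : (tree S).d m m' ≤ c := hc _ z w z' w' isReduced_toWord hzw
    (mk_eq.1 (b1.trans b2.symm)) (mk_eq.1 (b3.trans b4.symm))
  have := (tree S).tri x m m'
  omega

theorem disp_all {N₀ : Type} {X₀ : LG S N₀ S} (hl : ∀ s, X₀.lab s = s) {L : ℕ} (hg : X₀.Girth L)
    {q : Quotient X₀.sd} {h : FreeGroup S} (hq : h • q = q) (h1 : h ≠ 1) (x : FreeGroup S) :
    L ≤ (tree S).d x (h • x) + 48 := by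
  have hp : X₀.Pieces 0 := by
    intro w y y' z z' _ hne a b
    cases w with
    | nil => rfl
    | cons c w =>
      obtain ⟨m, ⟨e, a1, a2, -⟩, -⟩ := a
      obtain ⟨m', ⟨e', b1, b2, -⟩, -⟩ := b
      rw [hl] at a1 b1
      exact absurd (by rw [← a2, ← b2, a1, b1]) hne
  let u : X₀.U := ⟨q, h, h1, hq⟩
  have hu : h • u = u := Subtype.ext hq
  have a1 := (fam hp).rot (tree_iso S) Y_eqv hu (disp hg hu h1) x
  have a2 := ang_le_two (X := tree S) (Y := X₀.Y) u x (h • x)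
  omega

end

attribute [local instance] ConeOff.act QS.act

theorem tw : StmtTw := by
  classical
  obtain ⟨δ₀, K, h⟩ := exists_coneOff
  refine ⟨2 * δ₀ + 2, fun D => ?_⟩
  obtain ⟨M, h⟩ := h 10 1000 (3 * D + 1) le_rfl (by omega)
  obtain ⟨E, hE⟩ : ∃ E, E = 3 * D * 2 ^ (3 * D) * 1000 := ⟨_, rfl⟩
  refine ⟨100 * M + 1000 + E + 49, fun S N₀ Ed N _ X₀ Γ pr tw _ x₀ hl hcon hg hc hpr => ?_⟩
  let sg : Ed → ℤˣ := fun e => if tw e then -1 else 1
  have hmap : ∀ {y z : N} {f : FreeGroup S}, Γ.Rf y f z → X₀.Rf (pr y) f (pr z) :=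
    fun h => rd_map pr Γ.lab (fun e => hl _) hpr h
  let u₀ : Quotient X₀.sd := Quotient.mk X₀.sd (1, x₀)
  let H₁ := MulAction.stabilizer (FreeGroup S) u₀
  have mem₁ : ∀ {f : FreeGroup S}, X₀.Rf x₀ f x₀ → f ∈ H₁ := by
    intro f hf
    change f • u₀ = u₀
    rw [smul_mk, eq_comm, mk_eq]; simpa using hf
  let θ : H₁ × ℤˣ →* FreeGroup S := H₁.subtype.comp (MonoidHom.fst _ _)
  let prq : Quotient Γ.sd → Quotient X₀.sd :=
    Quotient.map (fun p => (p.1, pr p.2)) fun p q h => hmap h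
  have prq_smul : ∀ (g : FreeGroup S) q, prq (g • q) = g • prq q := by
    rintro g ⟨p⟩; rfl
  let U := {q : Quotient Γ.sd // prq q = u₀}
  let aV : MulAction (H₁ × ℤˣ) (FreeGroup S) := MulAction.compHom _ θ
  let aU : MulAction (H₁ × ℤˣ) U :=
    { smul := fun g q => ⟨θ g • q.1, by rw [prq_smul, q.2]; exact g.1.2⟩
      one_smul := fun q => Subtype.ext (by
        change θ 1 • q.1 = q.1
        rw [θ.map_one, one_smul])
      mul_smul := fun g k q => Subtype.ext (by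
        change θ (g * k) • q.1 = θ g • θ k • q.1
        rw [θ.map_mul, mul_smul]) }
  have sU : ∀ (g : H₁ × ℤˣ) (u : U), (g • u).1 = θ g • u.1 := fun _ _ => rfl
  have sV : ∀ (g : H₁ × ℤˣ) (x : FreeGroup S), g • x = θ g • x := fun _ _ => rfl
  let Y : U → Set (FreeGroup S) := fun u => {f | ∃ z, Quotient.mk Γ.sd (f, z) = u.1}
  have F : Fam (tree S) Y 10 := fam' (fun u : U => u.1) Subtype.val_injective hc
  have iso : (tree S).Iso (H₁ × ℤˣ) := fun g x y => tree_iso S (θ g) x y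
  have eqv : Eqv (H₁ × ℤˣ) Y := by
    rintro g u f ⟨z, hz⟩
    exact ⟨z, by rw [sU, ← hz]; rfl⟩
  have dsp : ∀ g : H₁ × ℤˣ, θ g ≠ 1 → ∀ x, 100 * M + 1000 + E + 1 ≤ (tree S).d x (g • x) := by
    intro g g1 x
    have := disp_all hl hg (q := u₀) g.1.2 g1 x
    change _ ≤ (tree S).d x (g • x) + 48 at this
    omega
  obtain ⟨Z⟩ := h _ (tree S) (H₁ × ℤˣ) U Y F iso eqv
  let Gu : U → Subgroup (H₁ × ℤˣ) := fun u =>
    { carrier := {g | ∀ f y, Quotient.mk Γ.sd (f, y) = u.1 →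
        (dc Γ sg).Rf (y, 1) (f⁻¹ * θ g * f) (y, g.2)}
      one_mem' := fun f y _ => by simpa using rf_one (Γ := dc Γ sg) (y, 1)
      mul_mem' := fun {a b} ha hb f y hy => by
        have := (ha f y hy).mul (by simpa using rf_shift (hb f y hy) a.2)
        simpa [mul_assoc] using this
      inv_mem' := fun {a} ha f y hy => by
        have := rf_shift (ha f y hy).inv a.2⁻¹
        simpa [mul_assoc] using this }
  have memG : ∀ (u : U) (g : H₁ × ℤˣ) f y, Quotient.mk Γ.sd (f, y) = u.1 →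
      (dc Γ sg).Rf (y, 1) (f⁻¹ * θ g * f) (y, g.2) → g ∈ Gu u := by
    intro u g f y hy hr f' y' hy'
    obtain ⟨k, hk⟩ := rd_lift (sg := sg) 1 (mk_eq.1 (hy.trans hy'.symm))
    have a1 : (dc Γ sg).Rf (y, 1) (f⁻¹ * f') (y', k) := hk
    have a2 := rf_shift ((a1.inv.mul hr).mul (by simpa using rf_shift a1 g.2)) k
    have e : k * (g.2 * k) = g.2 := by rw [mul_comm g.2, ← mul_assoc, Int.units_mul_self, one_mul]
    rw [e, Int.units_mul_self] at a2
    simpa [mul_assoc] using a2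
  have Gfix : ∀ u r, r ∈ Gu u → r • u = u := by
    intro u r hr
    obtain ⟨⟨f, y⟩, hy⟩ := Quotient.exists_rep u.1
    refine Subtype.ext ?_
    rw [sU, ← hy, smul_mk, eq_comm, mk_eq]
    simpa [mul_assoc] using rf_down (hr f y hy)
  have Gne : ∀ u r, r ∈ Gu u → r ≠ 1 → θ r ≠ 1 := by
    intro u r hr r1 hθ
    obtain ⟨⟨f, y⟩, hy⟩ := Quotient.exists_rep u.1
    have a1 := hr f y hy
    rw [hθ, mul_one, inv_mul_cancel] at a1
    have a2 := Rd.func a1 (rf_one _)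
    exact r1 (Prod.ext (Subtype.ext hθ) (Prod.ext_iff.1 a2).2)
  let R : Rot Z.P (100 * M) :=
    { G := Gu
      conj := fun g u r hr f y hy => by
        have a1 : Quotient.mk Γ.sd ((θ g)⁻¹ * f, y) = u.1 := by
          rw [← smul_mk, hy, sU, inv_smul_smul]
        have a2 := hr _ _ a1
        have e : (g * r * g⁻¹).2 = r.2 := by
          change g.2 * r.2 * g.2⁻¹ = r.2
          rw [mul_comm g.2, mul_inv_cancel_right]
        rw [e]
        simpa [mul_assoc] using a2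
      fix := Gfix
      rot := fun u r a hr r1 => Z.rot r u (100 * M + 1000) _ a (Gfix u r hr)
        (fun y _ => le_trans (by omega) (dsp r (Gne u r hr r1) y)) le_rfl }
  let π : H₁ × ℤˣ →* (H₁ × ℤˣ) ⧸ R.N := QuotientGroup.mk' R.N
  obtain ⟨Q⟩ := exists_QS R Z.iso
  have hyp := (Q.rips Z.iso le_rfl Z.hyp (by omega) Z.sep).hyp
  choose τ hτ using hcon
  let cn : Setoid N := ⟨fun y z => ∃ f, Γ.Rf y f z, ⟨fun y => ⟨1, rf_one y⟩,
    fun ⟨f, hf⟩ => ⟨_, hf.inv⟩, fun ⟨f, hf⟩ ⟨f', hf'⟩ => ⟨_, hf.mul hf'⟩⟩⟩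
  let rep : N → N := fun y => (Quotient.mk cn y).out
  have hp : ∀ y, ∃ f a, (dc Γ sg).Rf (rep y, 1) f (y, a) := by
    intro y
    obtain ⟨f, hf⟩ : ∃ f, Γ.Rf (rep y) f y := Quotient.mk_out (s := cn) y
    exact ⟨f, rd_lift 1 hf⟩
  choose pth sgn hpth using hp
  have triv : ∀ k : H₁ × ℤˣ, θ k = 1 → π k = 1 ∨ π k = π (1, -1) := by
    rintro ⟨k, a⟩ hk
    have : k = 1 := Subtype.ext hk
    subst this
    rcases Int.units_eq_one_or a with rfl | rfl
    · exact Or.inl π.map_one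
    · exact Or.inr rfl
  refine ⟨_, inferInstance, π (1, -1), Q.V', inferInstance, Q.X',
    fun s => π (⟨τ (X₀.en s true) * of s * (τ (X₀.en s false))⁻¹,
      mem₁ (((hτ _).mul (by simpa [hl] using rf_edge (Γ := X₀) s)).mul (hτ _).inv)⟩, 1),
    fun y => π (⟨τ (pr (rep y)) * pth y * (τ (pr y))⁻¹,
      mem₁ (((hτ _).mul (hmap (rf_down (hpth y)))).mul (hτ _).inv)⟩, sgn y),
    fun g => ?_, ?_, fun hz => ?_, Q.iso' Z.iso, hyp, ⟨Q.pr (Z.ι 1)⟩, fun g g1 g2 x => ?_,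
    fun e => ?_⟩
  · obtain ⟨g, rfl⟩ := QuotientGroup.mk'_surjective R.N g
    change π g * _ = _ * π g
    rw [← π.map_mul, ← π.map_mul]
    congr 1
    exact Prod.ext (by simp) (mul_comm _ _)
  · rw [← π.map_mul, ← π.map_one]
    congr 1
  · obtain ⟨k, hk⟩ := R.mem_N_iff.1 ((QuotientGroup.eq_one_iff _).1 hz)
    have z1 : ((1, -1) : H₁ × ℤˣ) ≠ 1 := fun h => by simpa using (Prod.ext_iff.1 h).2
    cases k with
    | zero => exact z1 hk.zero
    | succ k =>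
      obtain ⟨u, r, hr, r1, -, ha⟩ := R.green Z.iso (by omega) (x := Z.ι 1) (Z.ι_ne 1) hk z1
      have e : ((1, -1) : H₁ × ℤˣ) • Z.ι 1 = Z.ι 1 := by
        rw [← Z.ι_smul, sV]; congr 1
      rw [mul_smul, e] at ha
      exact R.rot u r⁻¹ _ (inv_mem hr) (inv_ne_one.2 r1) (Z.P.mono ha (by omega))
  · obtain ⟨c, rfl⟩ := Q.surj x
    obtain ⟨k, rfl, e⟩ := Q.lift_el g c
    rw [← e]
    by_contra hlt
    rcases Z.shallow c D (by omega) with ⟨u, -, hu⟩ | ⟨y, hy⟩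
    · have a1 := hu k (by omega)
      obtain ⟨⟨f, y⟩, hy⟩ := Quotient.exists_rep u.1
      have a2 : Γ.Rf y (f⁻¹ * θ k * f) y := by
        rw [mul_assoc, ← mk_eq, ← smul_mk, hy, ← sU, a1]
      obtain ⟨a, ha⟩ := rd_lift (sg := sg) 1 a2
      have a3 : π (k.1, a) = 1 :=
        (QuotientGroup.eq_one_iff _).2 (R.le_N u (memG u (k.1, a) f y hy ha))
      have a4 : π k = π (1, a⁻¹ * k.2) := by
        rw [← one_mul (π (1, a⁻¹ * k.2)), ← a3, ← π.map_mul]
        congr 1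
        exact Prod.ext (by simp) (mul_inv_cancel_left a k.2).symm
      rcases triv (1, a⁻¹ * k.2) rfl with a5 | a5
      · exact g1 (a4.trans a5)
      · exact g2 (a4.trans a5)
    · have a1 := Z.iso k c (Z.ι y)
      have a2 := Z.Z.tri (Z.ι y) c (k • Z.ι y)
      have a3 := Z.Z.tri c (k • c) (k • Z.ι y)
      have a4 := Z.Z.symm c (Z.ι y)
      have a5 := Z.sh y (k • y) (3 * D) (by rw [Z.ι_smul]; omega) (by omega)
      by_cases hk : θ k = 1
      · rcases triv k hk with a6 | a6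
        · exact g1 a6
        · exact g2 a6
      · have := dsp k hk y
        omega
  · have e1 : rep (Γ.en e false) = rep (Γ.en e true) := by
      simp only [rep]
      congr 1
      exact (Quotient.sound (s := cn) ⟨_, rf_edge e⟩).symm
    have e2 : (if tw e then π (1, -1) else 1) = π (1, sg e) := by
      simp only [sg]; split_ifs
      · rfl
      · exact π.map_one.symm
    rw [e2, ← π.map_mul, ← π.map_mul, eq_comm]
    refine QuotientGroup.eq.2 ?_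
    rw [← inv_mem_iff, mul_inv_rev, inv_inv, ← R.normal.mem_comm_iff]
    have a1 := hpth (Γ.en e true)
    have a2 := hpth (Γ.en e false)
    rw [e1] at a2
    have a3 : (dc Γ sg).Rf (Γ.en e true, sgn (Γ.en e true)) (of (Γ.lab e))
        (Γ.en e false, sgn (Γ.en e true) * sg e) := rf_edge (Γ := dc Γ sg) (e, sgn (Γ.en e true))
    have a4 := rf_shift a2.inv (sgn (Γ.en e true) * sg e * (sgn (Γ.en e false))⁻¹)
    rw [inv_mul_cancel_right, mul_one] at a4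
    refine R.le_N ⟨Quotient.mk Γ.sd (τ (pr (rep (Γ.en e true))), rep (Γ.en e true)), ?_⟩
      (memG _ _ _ _ rfl ?_)
    · exact (mk_eq.2 (by simpa using hτ _)).symm
    · have a5 := (a1.mul a3).mul a4
      simpa [θ, mul_assoc, e1, hpr] using a5

end Pool.Agent.P.MP_81321e_al.Tw
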