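import Pool.Agent.P.MP_81321e_al.TwWedge

set_option autoImplicit false

namespace Pool.Agent.P.MP_81321e_al.Tw

open Pool.Agent.P.MP_4b59b0_al Pool.Agent.P.MP_e79ed6_al Sp FreeGroup LG

theorem rd_fun {Ed N S : Type} {Γ : LG Ed N S} {w : List (S × Bool)} : ∀ {y z : N}, Γ.Rd w y z →
    ∃ v : ℕ → N, v 0 = y ∧ v w.length = z ∧ ∀ i (hi : i < w.length), Γ.St (v i) w[i] (v (i + 1)) := by
  induction w with
  | nil => intro y z h; exact ⟨fun _ => y, rfl, h, fun i hi => by simp at hi⟩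
  | cons c w ih =>
    rintro y z ⟨m, h1, h2⟩
    obtain ⟨v, v0, vn, vs⟩ := ih h2
    refine ⟨fun i => Nat.casesOn i y v, rfl, vn, fun i hi => ?_⟩
    cases i with
    | zero => simpa [v0] using h1
    | succ i => exact vs i (by simpa using hi)

section

variable {Om EA PB PC PE : Type} (pA : Om → EA) (pB : Om → PB) (pC : Om → PC) (eA : EA → PE)
  (eC : PC → PE)

/-- The incidence graph of the panels. -/
def x0 : LG Om (PE ⊕ PB) Om where
  en w b := if b then Sum.inl (eA (pA w)) else Sum.inr (pB w)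
  lab := id
  fold _ _ _ _ h := h

/-- The two families of cones. -/
def cones : LG (Om × Bool) ((EA ⊕ PC) ⊕ PB × Bool) Om where
  en e b := if b then Sum.inl (if e.2 then Sum.inl (pA e.1) else Sum.inr (pC e.1))
    else Sum.inr (pB e.1, e.2)
  lab e := e.1
  fold := by
    rintro ⟨w, t⟩ ⟨w', t'⟩ b h1 h2
    cases h2
    cases b <;> cases t <;> cases t' <;> simp_all

theorem x0_girth {L : ℕ} (gal : ∀ (m : ℕ) (w : ℕ → Om) (s : ℕ → Bool), 0 < m → m ≤ L →
    (∀ i, s (i + 1) = !s i) → (∀ i, i < m → w i ≠ w (i + 1) ∧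
      if s i then pB (w i) = pB (w (i + 1)) else eA (pA (w i)) = eA (pA (w (i + 1)))) →
    w m ≠ w 0) : (x0 pA pB eA).Girth L := by
  intro w y hr h0 hw
  by_contra hlt
  obtain ⟨v, v0, vn, vs⟩ := rd_fun hw
  have hn : 0 < w.length := List.length_pos_iff.2 h0
  have adj : ∀ (c c' : Om × Bool) (a m b : PE ⊕ PB), (x0 pA pB eA).St a c m →
      (x0 pA pB eA).St m c' b → c'.2 = !c.2 ∧
        if c.2 then pB c.1 = pB c'.1 else eA (pA c.1) = eA (pA c'.1) := by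
    rintro ⟨g, s⟩ ⟨g', s'⟩ a m b ⟨e, rfl, -, a2⟩ ⟨e', rfl, b1, -⟩
    have := a2.trans b1.symm
    revert this
    cases s <;> cases s' <;> simp [x0]
  obtain ⟨s, s0, s1⟩ : ∃ s : ℕ → Bool, s 0 = (w[0]).2 ∧ ∀ i, s (i + 1) = !s i :=
    ⟨fun i => Nat.rec (w[0]).2 (fun _ b => !b) i, rfl, fun _ => rfl⟩
  have hs : ∀ i (hi : i < w.length), (w[i]).2 = s i := by
    intro i
    induction i with
    | zero => intro _; exact s0.symm
    | succ i ih =>
      intro hi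
      rw [(adj _ _ _ _ _ (vs i (by omega)) (vs (i + 1) hi)).1, ih (by omega), s1]
  let g : ℕ → Om := fun i => if h : i < w.length then (w[i]).1 else (w[0]).1
  have step : ∀ i, i + 1 < w.length → g i ≠ g (i + 1) ∧
      if s i = true then pB (g i) = pB (g (i + 1)) else eA (pA (g i)) = eA (pA (g (i + 1))) := by
    intro i hi
    obtain ⟨a1, a2⟩ := adj _ _ _ _ _ (vs i (by omega)) (vs (i + 1) hi)
    have a3 := (List.isChain_iff_getElem.1 hr) i hi
    simp only [g, dif_pos hi, dif_pos (show i < w.length by omega), ← hs i (by omega)]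
    refine ⟨fun h => ?_, a2⟩
    have := a3 h
    rw [a1] at this
    simp at this
  obtain ⟨k, hk⟩ : ∃ k, w.length = k + 1 := ⟨w.length - 1, by omega⟩
  have last := vs k (by omega)
  rw [← hk, vn, ← v0] at last
  obtain ⟨a1, a2⟩ := adj _ _ _ _ _ last (vs 0 hn)
  have kpos : 0 < k := by
    rcases Nat.eq_zero_or_pos k with rfl | h
    · simp at a1
    · exact h
  by_cases he : g k = g 0
  · exact gal k g s kpos (by omega) s1 (fun i hi => step i (by omega)) he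
  · have e1 : g (k + 1) = g 0 := by simp [g, hk]
    refine gal (k + 1) g s (by omega) (by omega) s1 (fun i hi => ?_) e1
    rcases Nat.lt_succ_iff_lt_or_eq.1 hi with h | rfl
    · exact step i (by omega)
    · rw [e1]
      refine ⟨he, ?_⟩
      simpa only [g, dif_pos hn, dif_pos (show i < w.length by omega), ← hs i (by omega)] using a2

theorem cones_pieces (uniq : ∀ w w', pA w = pA w' → pC w = pC w' → w = w') :
    (cones pA pB pC).Pieces 2 := by
  intro w y y' z z' hr hne h h'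
  by_contra hlt
  obtain _ | ⟨c₁, _ | ⟨c₂, _ | ⟨c₃, w⟩⟩⟩ := w
  any_goals simp at hlt
  obtain ⟨m₁, ⟨⟨g₁, t₁⟩, a1, a2, a3⟩, m₂, ⟨⟨g₂, t₂⟩, b1, b2, b3⟩, m₃, ⟨⟨g₃, t₃⟩, d1, d2, -⟩, -⟩ := h
  obtain ⟨n₁, ⟨⟨k₁, u₁⟩, a1', a2', a3'⟩, n₂, ⟨⟨k₂, u₂⟩, b1', b2', b3'⟩, n₃,
    ⟨⟨k₃, u₃⟩, d1', d2', -⟩, -⟩ := h'
  obtain ⟨r1, hr⟩ := isReduced_cons_cons.1 hr
  obtain ⟨r2, -⟩ := isReduced_cons_cons.1 hr
  obtain ⟨_, s₁⟩ := c₁
  obtain ⟨_, s₂⟩ := c₂
  obtain ⟨_, s₃⟩ := c₃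
  simp only [cones] at a1 b1 d1 a1' b1' d1'
  subst a1 b1 d1
  subst a1' b1' d1'
  have e1 := a3.trans b2.symm
  have e2 := b3.trans d2.symm
  have e1' := a3'.trans b2'.symm
  have e2' := b3'.trans d2'.symm
  have ht : t₁ ≠ u₁ := by
    rintro rfl
    exact hne (a2.symm.trans a2')
  have u12 := uniq k₁ k₂
  have u23 := uniq k₂ k₃
  clear a2 a3 b2 b3 d2 a2' a3' b2' b3' d2' hne hr uniq hlt
  cases s₁ <;> cases s₂ <;> cases s₃ <;> cases t₁ <;> cases u₁ <;> cases t₂ <;> cases u₂ <;>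
    cases t₃ <;> cases u₃ <;> simp_all [cones]

end

theorem geo_core : ∃ δ : ℕ, ∀ D : ℕ, ∃ L : ℕ, ∀ (Om EA PB PC PE : Type) (pA : Om → EA)
    (pB : Om → PB) (pC : Om → PC) (eA : EA → PE) (eC : PC → PE) (spc : Om → Prop)
    [DecidablePred spc], (∀ w, eA (pA w) = eC (pC w)) →
    (∀ w w', pA w = pA w' → pC w = pC w' → w = w') →
    (∀ (m : ℕ) (w : ℕ → Om) (s : ℕ → Bool), 0 < m → m ≤ L →
      (∀ i, s (i + 1) = !s i) → (∀ i, i < m → w i ≠ w (i + 1) ∧
        if s i then pB (w i) = pB (w (i + 1)) else eA (pA (w i)) = eA (pA (w (i + 1)))) →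
      w m ≠ w 0) →
    ∃ (H : Type) (_ : Group H) (z : H) (V : Type) (_ : MulAction H V) (X : Sp V) (lam : Om → H)
      (gA : EA → H) (gB gB' : PB → H) (gC : PC → H), (∀ g, g * z = z * g) ∧ z * z = 1 ∧ z ≠ 1 ∧
      X.Iso H ∧ X.Hyp δ ∧ Nonempty V ∧ (∀ g : H, g ≠ 1 → g ≠ z → X.Mv g D) ∧
      (∀ w, gB (pB w) = gA (pA w) * lam w) ∧
      ∀ w, gB' (pB w) = gC (pC w) * lam w * (if spc w then z else 1) := by
  classical
  obtain ⟨δ, h⟩ := tw'
  refine ⟨δ, fun D => ?_⟩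
  obtain ⟨L, h⟩ := h D
  refine ⟨L, fun Om EA PB PC PE pA pB pC eA eC spc _ h0 uniq gal => ?_⟩
  obtain ⟨H, _, z, V, _, X, lam, gam, a1, a2, a3, a4, a5, a6, a7, a8⟩ :=
    h Om _ _ _ (x0 pA pB eA) (cones pA pB pC)
      (Sum.elim (fun a => Sum.inl (Sum.elim eA eC a)) fun b => Sum.inr b.1)
      (fun e => e.2 = false ∧ spc e.1) (fun _ => rfl) (x0_girth pA pB eA gal)
      (cones_pieces pA pB pC uniq) (by
        rintro ⟨w, t⟩ b
        cases b <;> cases t <;> simp [cones, x0, h0])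
  refine ⟨H, inferInstance, z, V, inferInstance, X, lam, fun a => gam (.inl (.inl a)),
    fun b => gam (.inr (b, true)), fun b => gam (.inr (b, false)), fun c => gam (.inl (.inr c)),
    a1, a2, a3, a4, a5, a6, a7, fun w => ?_, fun w => ?_⟩
  · simpa [cones] using a8 (w, true)
  · simpa [cones] using a8 (w, false)

end Pool.Agent.P.MP_81321e_al.Tw
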