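import Pool.Agent.P.MP_81321e_al.TwCore
import Pool.Agent.P.MP_81321e_al.BDefs

set_option autoImplicit false

namespace Pool.Agent.P.MP_81321e_al

theorem geo : SGeo := by
  obtain ⟨δ, h⟩ := Tw.geo_core
  refine ⟨δ, fun D => ?_⟩
  obtain ⟨L, h⟩ := h D
  refine ⟨L, fun K Ω A B C E R I _ _ _ _ _ _ c => h Ω A B C E c.pA c.pB c.pC c.eA c.eC
    (fun ω => c.sp (c.pA ω) = ω) c.eAC (fun w w' h1 h2 => ?_) fun m w s h1 h2 h3 h4 => ?_⟩
  · exact (c.grid w' (c.pA w') (c.eAC w')).unique ⟨h2, h1⟩ ⟨rfl, rfl⟩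
  · refine c.gal m w s h1 h2 (fun i hi => ⟨(h4 i hi).1, fun e => ?_, fun e => ?_⟩) fun i _ => ?_
    · simpa [e] using (h4 i hi).2
    · simpa [e] using (h4 i hi).2
    · rw [h3]; simp

end Pool.Agent.P.MP_81321e_al
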