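import Pool.Agent.P.MP_81321e_al.Tw
import Pool.Agent.P.MP_e79ed6_al.Girth

set_option autoImplicit false

namespace Pool.Agent.P.MP_81321e_al.Tw

open Pool.Agent.P.MP_4b59b0_al Pool.Agent.P.MP_e79ed6_al Sp FreeGroup LG

theorem walk_map {W W' : Type} {R : W → W → Prop} {R' : W' → W' → Prop} (f : W → W')
    (hf : ∀ x y, R x y → R' (f x) (f y)) :
    ∀ {n : ℕ} {x y : W}, Walk R n x y → Walk R' n (f x) (f y) := by
  intro n
  induction n with
  | zero => intro x y h; cases h; rfl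
  | succ n ih => rintro x y ⟨m, h1, h2⟩; exact ⟨f m, hf _ _ h1, ih h2⟩

theorem gir_of_girth {S N : Type} [DecidableEq S] {X : LG S N S} (hl : ∀ s, X.lab s = s) {g : ℕ}
    (hg : X.Girth (g + 2)) : Gir X.en Set.univ g := by
  intro e _ hw
  have key : ∀ (n : ℕ) (a b : N), Walk (Adj X.en (Set.univ \ {e})) n a b →
      ∃ w, w.length ≤ n ∧ (∀ c ∈ w, c.1 ≠ e) ∧ X.Rd w a b := by
    intro n
    induction n with
    | zero => intro a b h; exact ⟨[], le_rfl, by simp, h⟩
    | succ n ih =>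
      rintro a b ⟨m, h1, h2⟩
      obtain ⟨w, w1, w2, w3⟩ := ih m b h2
      rcases h1 with rfl | ⟨e', he, c, rfl, rfl⟩
      · exact ⟨w, by omega, w2, w3⟩
      · refine ⟨(e', c) :: w, by simpa using w1, ?_, _, ⟨e', hl _, rfl, rfl⟩, w3⟩
        intro c' hc'
        rcases List.mem_cons.1 hc' with rfl | h
        · exact he.2
        · exact w2 c' h
  obtain ⟨w, w1, w2, w3⟩ := key _ _ _ hw
  have s1 : (reduce w).Sublist w := (reduce.red (L := w)).sublist
  have h1 : IsReduced ((e, false) :: reduce w) := by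
    have h2 : IsReduced (reduce w) := IsReduced.of_reduce_eq reduce.idem
    cases h3 : reduce w with
    | nil => simp
    | cons c l =>
      rw [h3] at h2 s1
      exact isReduced_cons_cons.2
        ⟨fun h => absurd h.symm (w2 c (s1.subset (by simp))), h2⟩
  have h2 := hg _ (X.en e false) h1 (by simp) ⟨_, ⟨e, hl _, rfl, rfl⟩, w3.red reduce.red⟩
  have := s1.length_le
  rw [List.length_cons] at h2
  omega

/-- The connectivity hypothesis is not needed. -/
theorem tw' : ∃ δ : ℕ, ∀ D : ℕ, ∃ L : ℕ, ∀ (S N₀ Ed N : Type)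
    (X₀ : LG S N₀ S) (Γ : LG Ed N S) (pr : N → N₀) (tw : Ed → Prop) [DecidablePred tw],
    (∀ s, X₀.lab s = s) → X₀.Girth L → Γ.Pieces 2 →
    (∀ e b, pr (Γ.en e b) = X₀.en (Γ.lab e) b) →
    ∃ (H : Type) (_ : Group H) (z : H) (V : Type) (_ : MulAction H V) (X : Sp V) (lam : S → H)
      (gam : N → H), (∀ g, g * z = z * g) ∧ z * z = 1 ∧ z ≠ 1 ∧ X.Iso H ∧ X.Hyp δ ∧ Nonempty V ∧
      (∀ g : H, g ≠ 1 → g ≠ z → X.Mv g D) ∧
      ∀ e, gam (Γ.en e false) = gam (Γ.en e true) * lam (Γ.lab e) * (if tw e then z else 1) := by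
  classical
  obtain ⟨δ, h⟩ := Tw.tw
  refine ⟨δ, fun D => ?_⟩
  obtain ⟨L, h⟩ := h D
  refine ⟨L + 2, fun S N₀ Ed N X₀ Γ pr tw _ hl hg hc hpr => ?_⟩
  let cn : Setoid N₀ := ⟨fun y z => ∃ f, X₀.Rf y f z, ⟨fun y => ⟨1, rf_one y⟩,
    fun ⟨f, hf⟩ => ⟨_, hf.inv⟩, fun ⟨f, hf⟩ ⟨f', hf'⟩ => ⟨_, hf.mul hf'⟩⟩⟩
  let rep : N₀ → N₀ := fun y => (Quotient.mk cn y).out
  have rep_rep : ∀ y, rep (rep y) = rep y := fun y => by simp [rep]
  have rep_en : ∀ s b, rep (X₀.en s b) = rep (X₀.en s true) := by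
    intro s b
    cases b
    · simp only [rep]
      congr 1
      exact (Quotient.sound (s := cn) ⟨_, rf_edge s⟩).symm
    · rfl
  let N₁ := Option {y : N₀ // rep y ≠ y}
  let q : N₀ → N₁ := fun y => if h : rep y = y then none else some ⟨y, h⟩
  let X₁ : LG S N₁ S := ⟨fun s b => q (X₀.en s b), id, fun _ _ _ _ h => h⟩
  refine h S N₁ Ed N X₁ Γ (fun y => q (pr y)) tw none (fun _ => rfl) (fun x => ?_)
    (girth _ _ _ X₁ L fun e _ hw => ?_) hc (fun e b => by rw [hpr])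
  · cases x with
    | none => exact ⟨1, rf_one _⟩
    | some y =>
      obtain ⟨f, hf⟩ : ∃ f, X₀.Rf (rep y.1) f y.1 := Quotient.mk_out (s := cn) y.1
      have h1 : X₁.Rf (q (rep y.1)) f (q y.1) :=
        rd_map (Γ := X₀) (Γ' := X₁) q id (fun e => (hl e).symm) (fun _ _ => rfl) hf
      refine ⟨f, ?_⟩
      simpa only [q, dif_pos (rep_rep _), dif_neg y.2] using h1
  · let r := rep (X₀.en e true)
    let ρ : N₁ → N₀ := fun a => match a with
      | none => r
      | some y => if rep y.1 = r then y.1 else r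
    have ρ1 : ∀ y, rep y = r → ρ (q y) = y := by
      intro y hy
      by_cases h1 : rep y = y
      · simp only [q, dif_pos h1, ρ]; rw [← hy, h1]
      · simp only [q, dif_neg h1, ρ, if_pos hy]
    have ρ2 : ∀ y, rep y ≠ r → ρ (q y) = r := by
      intro y hy
      by_cases h1 : rep y = y
      · simp only [q, dif_pos h1, ρ]
      · simp only [q, dif_neg h1, ρ, if_neg hy]
    have h1 := walk_map (R' := Adj X₀.en (Set.univ \ {e})) ρ (by
      rintro a b (rfl | ⟨e', he, c, rfl, rfl⟩)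
      · exact Or.inl rfl
      · change Adj _ _ (ρ (q _)) (ρ (q _))
        by_cases h2 : rep (X₀.en e' true) = r
        · rw [ρ1 _ ((rep_en _ _).trans h2), ρ1 _ ((rep_en _ _).trans h2)]
          exact Or.inr ⟨e', he, c, rfl, rfl⟩
        · rw [ρ2 _ (by rwa [rep_en]), ρ2 _ (by rwa [rep_en])]
          exact Or.inl rfl) hw
    change Walk _ _ (ρ (q _)) (ρ (q _)) at h1
    rw [ρ1 _ rfl, ρ1 _ (rep_en _ _)] at h1
    exact gir_of_girth hl hg e trivial h1

end Pool.Agent.P.MP_81321e_al.Tw
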